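import Pool.Agent.Lib.MP_af28a5_co.EmptyTri

/-!
Adding one vertex to a complex, with a given subcomplex as its link.
-/

set_option autoImplicit false

namespace Pool.Agent.Lib.MP_af28a5_co

open Finset

section addv

variable {n : ℕ}

/-- the complex `Δ` with the cone over `L`, the apex being a new last vertex -/
def addv (Δ L : Finset (Finset (Fin n))) : Finset (Finset (Fin (n + 1))) :=
  Δ.image (fun F => F.map inc) ∪ L.image (fun F => insert (Fin.last n) (F.map inc))

theorem mem_addv {Δ L : Finset (Finset (Fin n))} {F : Finset (Fin (n + 1))} :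
    F ∈ addv Δ L ↔ (∃ G ∈ Δ, G.map inc = F) ∨ ∃ G ∈ L, insert (Fin.last n) (G.map inc) = F := by
  simp [addv]

theorem map_mem_addv {Δ L : Finset (Finset (Fin n))} {F : Finset (Fin n)} :
    F.map inc ∈ addv Δ L ↔ F ∈ Δ := by
  rw [mem_addv]
  constructor
  · rintro (⟨G, hG, h⟩ | ⟨G, hG, h⟩)
    · rw [Finset.map_inj] at h
      exact h ▸ hG
    · exact absurd (h ▸ Finset.mem_insert_self _ _) (last_notMem F)
  · intro h
    exact Or.inl ⟨F, h, rfl⟩

theorem insert_last_inj {F G : Finset (Fin n)}
    (h : insert (Fin.last n) (F.map inc) = insert (Fin.last n) (G.map inc)) : F = G := by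
  have h1 : F.map inc = G.map inc := by
    rw [← Finset.erase_insert (last_notMem F), ← Finset.erase_insert (last_notMem G), h]
  rwa [Finset.map_inj] at h1

theorem insert_mem_addv {Δ L : Finset (Finset (Fin n))} {F : Finset (Fin n)} :
    insert (Fin.last n) (F.map inc) ∈ addv Δ L ↔ F ∈ L := by
  rw [mem_addv]
  constructor
  · rintro (⟨G, hG, h⟩ | ⟨G, hG, h⟩)
    · exact absurd (h.symm ▸ Finset.mem_insert_self _ _) (last_notMem G)
    · exact insert_last_inj h ▸ hG
  · intro h
    exact Or.inr ⟨F, h, rfl⟩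

theorem isComplex_addv {Δ L : Finset (Finset (Fin n))} (hΔ : IsComplex Δ) (hL : IsComplex L)
    (hLΔ : L ⊆ Δ) : IsComplex (addv Δ L) := by
  refine ⟨mem_addv.mpr (Or.inl ⟨∅, hΔ.1, by simp⟩), ?_⟩
  intro F hF G hGF
  rcases mem_addv.mp hF with ⟨F', hF', rfl⟩ | ⟨F', hF', rfl⟩
  · obtain ⟨G', hG', rfl⟩ := Finset.subset_map_iff.mp hGF
    exact map_mem_addv.mpr (hΔ.2 F' hF' G' hG')
  · rcases form G with ⟨G', rfl⟩ | ⟨G', rfl⟩
    · rw [subset_coneTop] at hGF
      exact map_mem_addv.mpr (hΔ.2 F' (hLΔ hF') G' hGF)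
    · rw [insert_subset_coneTop] at hGF
      exact insert_mem_addv.mpr (hL.2 F' hF' G' hGF)

theorem jexp_addv {Δ L : Finset (Finset (Fin n))} (hΔ : IsComplex Δ) (hL : IsComplex L)
    (hLΔ : L ⊆ Δ) {j : ℕ} (h1 : JExp j Δ) (h2 : JExp j L) : JExp j (addv Δ L) := by
  -- images of the links in `L`
  have hexp : ∀ G : Finset (Fin n), G.card ≤ j →
      Exp ∅ {H : Finset (Fin (n + 1)) | ∃ K : Finset (Fin n), K ∩ G = ∅ ∧ K ∪ G ∈ L ∧
        H = K.map inc} := by
    intro G hG
    by_cases hGL : G ∈ L
    · have h1 := Exp.map inc (h2 G hGL hG) ∅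
        (fun F hF => absurd hF (Set.notMem_empty F)) (fun F _ _ => Set.notMem_empty _)
      have e : ((∅ : Set (Finset (Fin (n + 1)))) ∪
          {H | ∃ F ∈ (link L G : Set (Finset (Fin n))), F.map inc = H}) =
          {H : Finset (Fin (n + 1)) | ∃ K : Finset (Fin n), K ∩ G = ∅ ∧ K ∪ G ∈ L ∧
            H = K.map inc} := by
        ext H
        rw [Set.empty_union, Set.mem_ofPred_eq, Set.mem_ofPred_eq]
        constructor
        · rintro ⟨K, hK, rfl⟩
          rw [Finset.mem_coe, mem_link] at hK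
          exact ⟨K, hK.2.1, hK.2.2, rfl⟩
        · rintro ⟨K, hK1, hK2, rfl⟩
          refine ⟨K, ?_, rfl⟩
          rw [Finset.mem_coe, mem_link]
          exact ⟨hL.2 _ hK2 _ Finset.subset_union_left, hK1, hK2⟩
      rwa [e] at h1
    · have e : {H : Finset (Fin (n + 1)) | ∃ K : Finset (Fin n), K ∩ G = ∅ ∧ K ∪ G ∈ L ∧
          H = K.map inc} = ∅ := by
        ext H
        rw [Set.mem_ofPred_eq]
        constructor
        · rintro ⟨K, _, hK2, _⟩
          exact absurd (hL.2 _ hK2 _ Finset.subset_union_right) hGL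
        · intro h
          exact absurd h (Set.notMem_empty _)
      rw [e]
      exact Exp.refl _
  intro F hF hc
  rcases mem_addv.mp hF with ⟨G, hG, rfl⟩ | ⟨G, hG, rfl⟩
  · rw [Finset.card_map] at hc
    have h3 := Exp.map inc (h1 G hG hc) ∅
      (fun F hF => absurd hF (Set.notMem_empty F)) (fun F _ _ => Set.notMem_empty _)
    rw [Set.empty_union] at h3
    set E : Set (Finset (Fin (n + 1))) :=
      {H | ∃ F ∈ (link Δ G : Set (Finset (Fin n))), F.map inc = H} with hE
    have h4 := exp_attach (Fin.last n) (hexp G hc) E (by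
      rintro F ⟨K, _, rfl⟩
      exact last_notMem K) (by
      rintro H ⟨K, hK1, hK2, rfl⟩
      refine ⟨K, ?_, rfl⟩
      rw [Finset.mem_coe, mem_link]
      exact ⟨hΔ.2 _ (hLΔ hK2) _ Finset.subset_union_left, hK1, hLΔ hK2⟩)
    have e1 : E ∪ {H | ∃ F ∈ (∅ : Set (Finset (Fin (n + 1)))), H = insert (Fin.last n) F} =
        E := by
      ext H
      simp
    rw [e1] at h4
    have h5 := Exp.trans h3 h4
    have e2 : E ∪ {H | ∃ F ∈ {H : Finset (Fin (n + 1)) | ∃ K : Finset (Fin n),
        K ∩ G = ∅ ∧ K ∪ G ∈ L ∧ H = K.map inc}, H = insert (Fin.last n) F} =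
        (link (addv Δ L) (G.map inc) : Set _) := by
      ext H
      rw [Finset.mem_coe, mem_link, hE]
      simp only [Set.mem_union, Set.mem_ofPred_eq, Finset.mem_coe]
      constructor
      · rintro (⟨K, hK, rfl⟩ | ⟨F, ⟨K, hK1, hK2, rfl⟩, rfl⟩)
        · rw [mem_link] at hK
          refine ⟨map_mem_addv.mpr hK.1, (inter_map _ _).mpr hK.2.1, ?_⟩
          rw [← Finset.map_union]
          exact map_mem_addv.mpr hK.2.2
        · refine ⟨insert_mem_addv.mpr (hL.2 _ hK2 _ Finset.subset_union_left),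
            (insert_inter_map _ _).mpr hK1, ?_⟩
          rw [Finset.insert_union, ← Finset.map_union]
          exact insert_mem_addv.mpr hK2
      · rintro ⟨g1, g2, g3⟩
        rcases mem_addv.mp g1 with ⟨K, hK, rfl⟩ | ⟨K, hK, rfl⟩
        · left
          rw [inter_map] at g2
          rw [← Finset.map_union, map_mem_addv] at g3
          exact ⟨K, mem_link.mpr ⟨hK, g2, g3⟩, rfl⟩
        · right
          rw [insert_inter_map] at g2
          rw [Finset.insert_union, ← Finset.map_union, insert_mem_addv] at g3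
          exact ⟨_, ⟨K, g2, g3, rfl⟩, rfl⟩
    rwa [e2] at h5
  · rw [Finset.card_insert_of_notMem (last_notMem G), Finset.card_map] at hc
    have h := hexp G (by omega)
    have e : {H : Finset (Fin (n + 1)) | ∃ K : Finset (Fin n), K ∩ G = ∅ ∧ K ∪ G ∈ L ∧
        H = K.map inc} =
        (link (addv Δ L) (insert (Fin.last n) (G.map inc)) : Set _) := by
      ext H
      rw [Finset.mem_coe, mem_link, Set.mem_ofPred_eq]
      constructor
      · rintro ⟨K, h1, h2, rfl⟩
        refine ⟨map_mem_addv.mpr (hΔ.2 _ (hLΔ h2) _ Finset.subset_union_left), ?_, ?_⟩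
        · rw [Finset.inter_comm, insert_inter_map, Finset.inter_comm]
          exact h1
        · rw [Finset.union_insert, ← Finset.map_union]
          exact insert_mem_addv.mpr h2
      · rintro ⟨g1, g2, g3⟩
        have hn : Fin.last n ∉ H := by
          intro hn
          have : Fin.last n ∈ H ∩ insert (Fin.last n) (G.map inc) :=
            Finset.mem_inter.mpr ⟨hn, Finset.mem_insert_self _ _⟩
          rw [g2] at this
          exact Finset.notMem_empty _ this
        rcases form H with ⟨K, rfl⟩ | ⟨K, rfl⟩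
        · refine ⟨K, ?_, ?_, rfl⟩
          · rw [Finset.inter_comm, insert_inter_map, Finset.inter_comm] at g2
            exact g2
          · rw [Finset.union_insert, ← Finset.map_union, insert_mem_addv] at g3
            exact g3
        · exact absurd (Finset.mem_insert_self _ _) hn
    rwa [e] at h

theorem union_addv {Δ L : Finset (Finset (Fin n))} {r : ℕ}
    (h1 : IsUnionOfIntervals r Δ) (h2 : IsUnionOfIntervals r L) :
    IsUnionOfIntervals r (addv Δ L) := by
  classical
  obtain ⟨P, hP1, hP2⟩ := h1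
  obtain ⟨Q, hQ1, hQ2⟩ := h2
  refine ⟨P.image (fun p => (p.1.map inc, p.2.map inc)) ∪
    Q.image (fun p => (insert (Fin.last n) (p.1.map inc), insert (Fin.last n) (p.2.map inc))),
    ?_, ?_⟩
  · intro p hp
    rw [Finset.mem_union, Finset.mem_image, Finset.mem_image] at hp
    rcases hp with ⟨q, hq, rfl⟩ | ⟨q, hq, rfl⟩
    · obtain ⟨a1, a2, a3⟩ := hP1 q hq
      refine ⟨Finset.map_subset_map.mpr a1, map_mem_addv.mpr a2, ?_⟩
      simp only
      rw [← Finset.map_sdiff, Finset.card_map, a3]
    · obtain ⟨a1, a2, a3⟩ := hQ1 q hq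
      refine ⟨insert_subset_coneTop.mpr a1, insert_mem_addv.mpr a2, ?_⟩
      simp only
      rw [Finset.insert_sdiff_insert, Finset.sdiff_insert_of_notMem (last_notMem _),
        ← Finset.map_sdiff, Finset.card_map, a3]
  · intro H hH
    rcases mem_addv.mp hH with ⟨G, hG, rfl⟩ | ⟨G, hG, rfl⟩
    · obtain ⟨p, ⟨hp, hp1, hp2⟩, hpu⟩ := hP2 G hG
      refine ⟨(p.1.map inc, p.2.map inc), ⟨Finset.mem_union_left _
        (Finset.mem_image_of_mem _ hp), Finset.map_subset_map.mpr hp1,
        Finset.map_subset_map.mpr hp2⟩, ?_⟩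
      rintro q ⟨hq, hq1, hq2⟩
      rw [Finset.mem_union, Finset.mem_image, Finset.mem_image] at hq
      rcases hq with ⟨q', hq', rfl⟩ | ⟨q', hq', rfl⟩
      · rw [hpu q' ⟨hq', Finset.map_subset_map.mp hq1, Finset.map_subset_map.mp hq2⟩]
      · exact absurd (hq1 (Finset.mem_insert_self _ _)) (last_notMem G)
    · obtain ⟨p, ⟨hp, hp1, hp2⟩, hpu⟩ := hQ2 G hG
      refine ⟨(insert (Fin.last n) (p.1.map inc), insert (Fin.last n) (p.2.map inc)),
        ⟨Finset.mem_union_right _ (Finset.mem_image_of_mem _ hp),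
        insert_subset_coneTop.mpr hp1, insert_subset_coneTop.mpr hp2⟩, ?_⟩
      rintro q ⟨hq, hq1, hq2⟩
      rw [Finset.mem_union, Finset.mem_image, Finset.mem_image] at hq
      rcases hq with ⟨q', hq', rfl⟩ | ⟨q', hq', rfl⟩
      · exact absurd (hq2 (Finset.mem_insert_self _ _)) (last_notMem _)
      · rw [hpu q' ⟨hq', insert_subset_coneTop.mp hq1, insert_subset_coneTop.mp hq2⟩]

theorem inter_coneTop (U T : Finset (Fin n)) : coneTop U ∩ coneTop T = coneTop (U ∩ T) := by
  unfold coneTop
  rw [← Finset.insert_inter_distrib, Finset.map_inter]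

theorem erase_coneTop (T : Finset (Fin n)) (x : Fin n) :
    (coneTop T).erase (inc x) = coneTop (T.erase x) := by
  unfold coneTop
  have hne : Fin.last n ≠ inc x := (Fin.castSucc_lt_last x).ne'
  rw [Finset.erase_insert_of_ne hne, Finset.map_erase]

theorem shelling_addv {d : ℕ} {Δ L : Finset (Finset (Fin n))} (hLΔ : L ⊆ Δ)
    {S S' : List (Finset (Fin n))} (hS : IsShelling (d + 1) Δ S) (hS' : IsShelling d L S') :
    IsShelling (d + 1) (addv Δ L) (S.map (fun T => T.map inc) ++ S'.map coneTop) := by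
  obtain ⟨a1, a2, a3, a4⟩ := hS
  obtain ⟨b1, b2, b3, b4⟩ := hS'
  have hinj : Function.Injective (fun T : Finset (Fin n) => T.map inc) :=
    Finset.map_injective inc
  -- the condition for a new facet and an old facet
  have old1 : ∀ T ∈ S', ∀ R ∈ S.map (fun T => T.map inc), ∃ R' ∈ S.map (fun T => T.map inc),
      ∃ x ∈ coneTop T, R' ∩ coneTop T = (coneTop T).erase x ∧
        R ∩ coneTop T ⊆ (coneTop T).erase x := by
    intro T hT R hR
    have hTΔ : T ∈ Δ := hLΔ ((b3 T).mpr ⟨T, hT, subset_rfl⟩)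
    obtain ⟨U, hU, hTU⟩ := (a3 T).mp hTΔ
    have herase : (coneTop T).erase (Fin.last n) = T.map inc :=
      Finset.erase_insert (last_notMem T)
    refine ⟨U.map inc, List.mem_map.mpr ⟨U, hU, rfl⟩, Fin.last n, Finset.mem_insert_self _ _, ?_, ?_⟩
    · rw [herase]
      unfold coneTop
      rw [Finset.inter_insert_of_notMem (last_notMem U), ← Finset.map_inter,
        Finset.inter_eq_right.mpr hTU]
    · rw [herase]
      obtain ⟨R₀, _, rfl⟩ := List.mem_map.mp hR
      unfold coneTop
      rw [Finset.inter_insert_of_notMem (last_notMem R₀)]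
      exact Finset.inter_subset_right
  refine ⟨?_, ?_, ?_, ?_⟩
  · rw [List.nodup_append]
    refine ⟨a1.map hinj, b1.map coneTop_injective, ?_⟩
    intro A hA B hB hAB
    obtain ⟨A', _, rfl⟩ := List.mem_map.mp hA
    obtain ⟨B', _, rfl⟩ := List.mem_map.mp hB
    have : Fin.last n ∈ A'.map inc := by
      rw [hAB]
      exact Finset.mem_insert_self _ _
    exact last_notMem A' this
  · intro T hT
    rw [List.mem_append] at hT
    rcases hT with hT | hT
    · obtain ⟨T', hT', rfl⟩ := List.mem_map.mp hT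
      rw [Finset.card_map, a2 T' hT']
    · obtain ⟨T', hT', rfl⟩ := List.mem_map.mp hT
      unfold coneTop
      rw [Finset.card_insert_of_notMem (last_notMem _), Finset.card_map, b2 T' hT']
  · intro F
    constructor
    · intro hF
      rcases mem_addv.mp hF with ⟨G, hG, rfl⟩ | ⟨G, hG, rfl⟩
      · obtain ⟨T, hT, hGT⟩ := (a3 G).mp hG
        exact ⟨T.map inc, List.mem_append_left _ (List.mem_map.mpr ⟨T, hT, rfl⟩),
          Finset.map_subset_map.mpr hGT⟩
      · obtain ⟨T, hT, hGT⟩ := (b3 G).mp hG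
        exact ⟨coneTop T, List.mem_append_right _ (List.mem_map_of_mem hT),
          insert_subset_coneTop.mpr hGT⟩
    · rintro ⟨T, hT, hFT⟩
      rw [List.mem_append] at hT
      rcases hT with hT | hT
      · obtain ⟨T', hT', rfl⟩ := List.mem_map.mp hT
        obtain ⟨G, hG, rfl⟩ := Finset.subset_map_iff.mp hFT
        exact map_mem_addv.mpr ((a3 G).mpr ⟨T', hT', hG⟩)
      · obtain ⟨T', hT', rfl⟩ := List.mem_map.mp hT
        unfold coneTop at hFT
        rcases form F with ⟨G, rfl⟩ | ⟨G, rfl⟩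
        · rw [subset_coneTop] at hFT
          exact map_mem_addv.mpr (hLΔ ((b3 G).mpr ⟨T', hT', hFT⟩))
        · rw [insert_subset_coneTop] at hFT
          exact insert_mem_addv.mpr ((b3 G).mpr ⟨T', hT', hFT⟩)
  · intro A T B hAB R hR
    -- the two parts of the list
    have newcase : ∀ C : List (Finset (Fin (n + 1))), A = S.map (fun T => T.map inc) ++ C →
        S'.map coneTop = C ++ T :: B → ∃ R' ∈ A, ∃ x ∈ T, R' ∩ T = T.erase x ∧
          R ∩ T ⊆ T.erase x := by
      intro C hA hC
      obtain ⟨C', R', hL, hC', hR'⟩ := List.map_eq_append_iff.mp hC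
      obtain ⟨T', B', rfl, rfl, hB'⟩ := List.map_eq_cons_iff.mp hR'
      have hT' : T' ∈ S' := by rw [hL]; simp
      rw [hA, List.mem_append] at hR
      rcases hR with hR | hR
      · obtain ⟨U, hU, x, hx, e1, e2⟩ := old1 T' hT' R hR
        exact ⟨U, by rw [hA]; exact List.mem_append_left _ hU, x, hx, e1, e2⟩
      · rw [← hC'] at hR
        obtain ⟨R₀, hR₀, rfl⟩ := List.mem_map.mp hR
        obtain ⟨U, hU, x, hx, e1, e2⟩ := b4 C' T' B' hL R₀ hR₀
        refine ⟨coneTop U, ?_, inc x, ?_, ?_, ?_⟩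
        · rw [hA, ← hC']
          exact List.mem_append_right _ (List.mem_map_of_mem hU)
        · exact Finset.mem_insert_of_mem (Finset.mem_map_of_mem _ hx)
        · rw [inter_coneTop, erase_coneTop, e1]
        · rw [inter_coneTop, erase_coneTop]
          exact insert_subset_coneTop.mpr e2
    rcases List.append_eq_append_iff.mp hAB with ⟨C, hA, hC⟩ | ⟨C, hA, hC⟩
    · exact newcase C hA hC
    · rcases C with _ | ⟨c, C⟩
      · refine newcase [] ?_ ?_
        · rw [hA]
          simp
        · rw [List.nil_append] at hC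
          rw [List.nil_append]
          exact hC.symm
      · rw [List.cons_append, List.cons.injEq] at hC
        obtain ⟨rfl, hC⟩ := hC
        obtain ⟨A', R', hL, hA', hR'⟩ := List.map_eq_append_iff.mp hA
        obtain ⟨T', B', rfl, rfl, hB'⟩ := List.map_eq_cons_iff.mp hR'
        rw [← hA'] at hR
        obtain ⟨R₀, hR₀, rfl⟩ := List.mem_map.mp hR
        obtain ⟨U, hU, x, hx, e1, e2⟩ := a4 A' T' B' hL R₀ hR₀
        refine ⟨U.map inc, by rw [← hA']; exact List.mem_map.mpr ⟨U, hU, rfl⟩, inc x,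
          Finset.mem_map_of_mem _ hx, ?_, ?_⟩
        · rw [← Finset.map_inter, e1, Finset.map_erase]
        · rw [← Finset.map_inter, ← Finset.map_erase]
          exact Finset.map_subset_map.mpr e2

end addv

/-! ### Images -/

theorem shelling_mapC {n m d : ℕ} (φ : Fin n ↪ Fin m) {Δ : Finset (Finset (Fin n))}
    {S : List (Finset (Fin n))} (hS : IsShelling d Δ S) :
    IsShelling d (mapC φ Δ) (S.map (fun T => T.map φ)) := by
  obtain ⟨a1, a2, a3, a4⟩ := hS
  refine ⟨a1.map (Finset.map_injective φ), ?_, ?_, ?_⟩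
  · intro T hT
    obtain ⟨T', hT', rfl⟩ := List.mem_map.mp hT
    rw [Finset.card_map, a2 T' hT']
  · intro F
    constructor
    · intro hF
      obtain ⟨G, hG, rfl⟩ := mem_mapC.mp hF
      obtain ⟨T, hT, hGT⟩ := (a3 G).mp hG
      exact ⟨T.map φ, List.mem_map.mpr ⟨T, hT, rfl⟩, Finset.map_subset_map.mpr hGT⟩
    · rintro ⟨T, hT, hFT⟩
      obtain ⟨T', hT', rfl⟩ := List.mem_map.mp hT
      obtain ⟨G, hG, rfl⟩ := Finset.subset_map_iff.mp hFT
      exact map_mem_mapC.mpr ((a3 G).mpr ⟨T', hT', hG⟩)
  · intro A T B hAB R hR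
    obtain ⟨A', R', hL, hA', hR'⟩ := List.map_eq_append_iff.mp hAB
    obtain ⟨T', B', rfl, rfl, hB'⟩ := List.map_eq_cons_iff.mp hR'
    rw [← hA'] at hR
    obtain ⟨R₀, hR₀, rfl⟩ := List.mem_map.mp hR
    obtain ⟨U, hU, x, hx, e1, e2⟩ := a4 A' T' B' hL R₀ hR₀
    refine ⟨U.map φ, by rw [← hA']; exact List.mem_map.mpr ⟨U, hU, rfl⟩, φ x,
      Finset.mem_map_of_mem _ hx, ?_, ?_⟩
    · rw [← Finset.map_inter, e1, Finset.map_erase]
    · rw [← Finset.map_inter, ← Finset.map_erase]
      exact Finset.map_subset_map.mpr e2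

/-! ### Good complexes -/

/-- `j`-acyclic by expansions, a union of intervals of length `j + 1`, shellable of dimension
`d - 1` -/
def Good (j d : ℕ) {n : ℕ} (Δ : Finset (Finset (Fin n))) : Prop :=
  IsComplex Δ ∧ JExp j Δ ∧ IsUnionOfIntervals (j + 1) Δ ∧ ∃ S, IsShelling d Δ S

theorem good_addv {j d n : ℕ} {Δ L : Finset (Finset (Fin n))} (h1 : Good j (d + 1) Δ)
    (h2 : Good j d L) (hLΔ : L ⊆ Δ) : Good j (d + 1) (addv Δ L) := by
  obtain ⟨a1, a2, a3, S, a4⟩ := h1
  obtain ⟨b1, b2, b3, S', b4⟩ := h2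
  exact ⟨isComplex_addv a1 b1 hLΔ, jexp_addv a1 b1 hLΔ a2 b2, union_addv a3 b3,
    _, shelling_addv hLΔ a4 b4⟩

theorem good_mapC {j d n m : ℕ} (φ : Fin n ↪ Fin m) {Δ : Finset (Finset (Fin n))}
    (h : Good j d Δ) : Good j d (mapC φ Δ) := by
  obtain ⟨a1, a2, a3, S, a4⟩ := h
  exact ⟨isComplex_mapC a1, jexp_mapC a2, union_mapC a3, _, shelling_mapC φ a4⟩

theorem good_powerset {j d n : ℕ} (hd : j + 1 ≤ d) (Q : Finset (Fin n)) (hQ : Q.card = d) :
    Good j d Q.powerset := by
  classical
  refine ⟨⟨Finset.empty_mem_powerset _, ?_⟩, ?_, ?_, [Q], ?_, ?_, ?_, ?_⟩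
  · intro F hF G hG
    rw [Finset.mem_powerset] at hF ⊢
    exact hG.trans hF
  · intro F hF hc
    rw [Finset.mem_powerset] at hF
    have h1 := exp_simplex (Q \ F) (by
      rw [← Finset.card_pos, Finset.card_sdiff_of_subset hF]
      omega)
    have e : {H : Finset (Fin n) | H ⊆ Q \ F} = (link Q.powerset F : Set (Finset (Fin n))) := by
      ext H
      rw [Finset.mem_coe, mem_link, Finset.mem_powerset, Finset.mem_powerset, Set.mem_ofPred_eq,
        Finset.subset_sdiff, Finset.disjoint_iff_inter_eq_empty]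
      constructor
      · rintro ⟨h2, h3⟩
        exact ⟨h2, h3, Finset.union_subset h2 hF⟩
      · rintro ⟨h2, h3, _⟩
        exact ⟨h2, h3⟩
    rw [← e]
    exact h1
  · obtain ⟨R, hRQ, hR⟩ := Finset.exists_subset_card_eq (s := Q) (n := j + 1) (by omega)
    refine ⟨Q.powerset.image (fun F => (F \ R, F ∪ R)), ?_, ?_⟩
    · intro p hp
      rw [Finset.mem_image] at hp
      obtain ⟨F, hF, rfl⟩ := hp
      rw [Finset.mem_powerset] at hF
      refine ⟨Finset.sdiff_subset.trans Finset.subset_union_left,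
        Finset.mem_powerset.mpr (Finset.union_subset hF hRQ), ?_⟩
      rw [← hR]
      congr 1
      ext x
      simp only [Finset.mem_sdiff, Finset.mem_union]
      tauto
    · intro H hH
      refine ⟨(H \ R, H ∪ R), ⟨Finset.mem_image_of_mem _ hH, Finset.sdiff_subset,
        Finset.subset_union_left⟩, ?_⟩
      rintro q ⟨hq, hq1, hq2⟩
      rw [Finset.mem_image] at hq
      obtain ⟨F, _, rfl⟩ := hq
      simp only at hq1 hq2
      have h1 : F \ R = H \ R := by
        ext x
        simp only [Finset.mem_sdiff]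
        constructor
        · rintro ⟨h2, h3⟩
          exact ⟨hq1 (Finset.mem_sdiff.mpr ⟨h2, h3⟩), h3⟩
        · rintro ⟨h2, h3⟩
          have := hq2 h2
          rw [Finset.mem_union] at this
          exact ⟨this.resolve_right h3, h3⟩
      have h2 : F ∪ R = H ∪ R := by
        rw [← Finset.sdiff_union_self_eq_union (s := F),
          ← Finset.sdiff_union_self_eq_union (s := H), h1]
      rw [h1, h2]
  · simp
  · intro T hT
    rw [List.mem_singleton] at hT
    rw [hT, hQ]
  · intro F
    simp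
  · intro A T B hAB R hR
    have h1 := congrArg List.length hAB
    rw [List.length_singleton, List.length_append, List.length_cons] at h1
    have h2 : A.length = 0 := by omega
    rw [List.length_eq_zero_iff] at h2
    rw [h2] at hR
    exact absurd hR List.not_mem_nil

/-- subcomplexes of `X` over which a cone may be attached -/
def Att (j : ℕ) {n : ℕ} (X L : Finset (Finset (Fin n))) : Prop :=
  Good j (j + 2) L ∧ L ⊆ X ∧ ∀ u, ({u} : Finset (Fin n)) ∈ L → ∃ w, w ≠ u ∧
    ({w} : Finset (Fin n)) ∈ L ∧ ({u, w} : Finset (Fin n)) ∈ X ∧ ({u, w} : Finset (Fin n)) ∉ L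

theorem exists_attach (j : ℕ) {n : ℕ} {X : Finset (Finset (Fin n))} (hX : Good j (j + 3) X)
    (C : Finset (Finset (Finset (Fin n)))) (hC : ∀ L ∈ C, Att j X L) :
    ∃ (m : ℕ) (Δ : Finset (Finset (Fin m))) (ι : Fin n ↪ Fin m), Good j (j + 3) Δ ∧
      (∀ F, F.map ι ∈ Δ ↔ F ∈ X) ∧
      ∀ x y : Fin m, x ≠ y → ({x, y} : Finset (Fin m)) ∈ Δ →
        (∃ v, v ≠ x ∧ v ≠ y ∧ ({x, v} : Finset (Fin m)) ∈ Δ ∧ ({y, v} : Finset (Fin m)) ∈ Δ ∧
          ({x, y, v} : Finset (Fin m)) ∉ Δ) ∨
        ∃ a b, x = ι a ∧ y = ι b ∧ ∀ L ∈ C, ({a} : Finset (Fin n)) ∈ L →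
          ({b} : Finset (Fin n)) ∈ L → ({a, b} : Finset (Fin n)) ∈ L := by
  classical
  induction C using Finset.induction_on with
  | empty =>
    refine ⟨n, X, Function.Embedding.refl _, hX, fun F => by simp, fun x y _ _ => Or.inr
      ⟨x, y, rfl, rfl, fun L hL => absurd hL (Finset.notMem_empty L)⟩⟩
  | insert L C hLC ih =>
    obtain ⟨m, Δ, ι, h1, h2, h3⟩ := ih (fun L hL => hC L (Finset.mem_insert_of_mem hL))
    obtain ⟨l1, l2, l3⟩ := hC L (Finset.mem_insert_self _ _)
    have hsub : mapC ι L ⊆ Δ := by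
      intro F hF
      obtain ⟨G, hG, rfl⟩ := mem_mapC.mp hF
      exact (h2 G).mpr (l2 hG)
    have pm : ∀ a b : Fin m, ({inc a, inc b} : Finset (Fin (m + 1))) =
        ({a, b} : Finset (Fin m)).map inc := by
      intro a b
      rw [Finset.map_insert, Finset.map_singleton]
    have pι : ∀ a b : Fin n, ({ι a, ι b} : Finset (Fin m)) =
        ({a, b} : Finset (Fin n)).map ι := by
      intro a b
      rw [Finset.map_insert, Finset.map_singleton]
    have sι : ∀ a : Fin n, ({ι a} : Finset (Fin m)) = ({a} : Finset (Fin n)).map ι := by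
      intro a
      rw [Finset.map_singleton]
    have plast : ∀ a : Fin m, ({Fin.last m, inc a} : Finset (Fin (m + 1))) =
        insert (Fin.last m) (({a} : Finset (Fin m)).map inc) := by
      intro a
      rw [Finset.map_singleton]
    have hil : ∀ a : Fin m, inc a ≠ Fin.last m := fun a => (Fin.castSucc_lt_last a).ne
    -- edges at the new vertex
    have mixed : ∀ y' : Fin m, ({Fin.last m, inc y'} : Finset (Fin (m + 1))) ∈
        addv Δ (mapC ι L) → ∃ v, v ≠ Fin.last m ∧ v ≠ inc y' ∧
          ({Fin.last m, v} : Finset (Fin (m + 1))) ∈ addv Δ (mapC ι L) ∧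
          ({inc y', v} : Finset (Fin (m + 1))) ∈ addv Δ (mapC ι L) ∧
          ({Fin.last m, inc y', v} : Finset (Fin (m + 1))) ∉ addv Δ (mapC ι L) := by
      intro y' hy'
      rw [plast, insert_mem_addv] at hy'
      obtain ⟨G, hG, hGe⟩ := mem_mapC.mp hy'
      have hG1 : G.card = 1 := by
        rw [← Finset.card_map ι, hGe, Finset.card_singleton]
      obtain ⟨u, rfl⟩ := Finset.card_eq_one.mp hG1
      rw [Finset.map_singleton, Finset.singleton_inj] at hGe
      subst hGe
      obtain ⟨w, w1, w2, w3, w4⟩ := l3 u hG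
      refine ⟨inc (ι w), hil _, fun h => w1 (ι.injective (inc.injective h)), ?_, ?_, ?_⟩
      · rw [plast, insert_mem_addv, sι, map_mem_mapC]
        exact w2
      · rw [pm, map_mem_addv, pι, h2]
        exact w3
      · rw [pm, insert_mem_addv, pι, map_mem_mapC]
        exact w4
    refine ⟨m + 1, addv Δ (mapC ι L), ι.trans inc, good_addv h1 (good_mapC ι l1) hsub, ?_, ?_⟩
    · intro F
      rw [← Finset.map_map, map_mem_addv, h2]
    · intro x y hxy hmem
      rcases Fin.eq_castSucc_or_eq_last x with ⟨x', rfl⟩ | rfl <;>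
        rcases Fin.eq_castSucc_or_eq_last y with ⟨y', rfl⟩ | rfl
      · change ({inc x', inc y'} : Finset (Fin (m + 1))) ∈ _ at hmem
        rw [pm, map_mem_addv] at hmem
        have hxy' : x' ≠ y' := fun h => hxy (by rw [h])
        rcases h3 x' y' hxy' hmem with ⟨v, v1, v2, v3, v4, v5⟩ | ⟨a, b, rfl, rfl, hab⟩
        · left
          refine ⟨inc v, fun h => v1 (inc.injective h), fun h => v2 (inc.injective h), ?_, ?_, ?_⟩
          · change ({inc x', inc v} : Finset (Fin (m + 1))) ∈ _
            rw [pm, map_mem_addv]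
            exact v3
          · change ({inc y', inc v} : Finset (Fin (m + 1))) ∈ _
            rw [pm, map_mem_addv]
            exact v4
          · change ({inc x', inc y', inc v} : Finset (Fin (m + 1))) ∉ _
            rw [pm, ← Finset.map_insert, map_mem_addv]
            exact v5
        · by_cases hL : ({a} : Finset (Fin n)) ∈ L → ({b} : Finset (Fin n)) ∈ L →
              ({a, b} : Finset (Fin n)) ∈ L
          · right
            refine ⟨a, b, rfl, rfl, ?_⟩
            intro L' hL'
            rw [Finset.mem_insert] at hL'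
            rcases hL' with rfl | hL'
            · exact hL
            · exact hab L' hL'
          · left
            push Not at hL
            obtain ⟨q1, q2, q3⟩ := hL
            refine ⟨Fin.last m, (hil _).symm, (hil _).symm, ?_, ?_, ?_⟩
            · change ({inc (ι a), Fin.last m} : Finset (Fin (m + 1))) ∈ _
              rw [Finset.pair_comm, plast, insert_mem_addv, sι, map_mem_mapC]
              exact q1
            · change ({inc (ι b), Fin.last m} : Finset (Fin (m + 1))) ∈ _
              rw [Finset.pair_comm, plast, insert_mem_addv, sι, map_mem_mapC]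
              exact q2
            · change ({inc (ι a), inc (ι b), Fin.last m} : Finset (Fin (m + 1))) ∉ _
              have e : ({inc (ι a), inc (ι b), Fin.last m} : Finset (Fin (m + 1))) =
                  insert (Fin.last m) (({ι a, ι b} : Finset (Fin m)).map inc) := by
                rw [← pm]
                ext z
                simp only [Finset.mem_insert, Finset.mem_singleton]
                tauto
              rw [e, insert_mem_addv, pι, map_mem_mapC]
              exact q3
      · change ({inc x', Fin.last m} : Finset (Fin (m + 1))) ∈ _ at hmem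
        rw [Finset.pair_comm] at hmem
        obtain ⟨v, v1, v2, v3, v4, v5⟩ := mixed x' hmem
        left
        refine ⟨v, v2, v1, v4, v3, ?_⟩
        rw [Finset.insert_comm]
        exact v5
      · change ({Fin.last m, inc y'} : Finset (Fin (m + 1))) ∈ _ at hmem
        obtain ⟨v, v1, v2, v3, v4, v5⟩ := mixed y' hmem
        left
        exact ⟨v, v1, v2, v3, v4, v5⟩
      · exact absurd rfl hxy

end Pool.Agent.Lib.MP_af28a5_co
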