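import Pool.Agent.Lib.MP_af28a5_co.Defs2

/-!
Further definitions: shellings.
-/

set_option autoImplicit false

namespace Pool.Agent.Lib.MP_af28a5_co

/-- The list `L` is a shelling of the complex `Δ` of dimension `d - 1`: its entries are different
sets with `d` elements, `Δ` consists of their subsets, and every entry `T` of `L` meets the complex
generated by the earlier entries in a union of sets `T \ {x}` (for every earlier entry `S` there
are an earlier entry `S'` and an `x` in `T` with `S ∩ T ⊆ S' ∩ T = T \ {x}`). -/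
def IsShelling (d : ℕ) {n : ℕ} (Δ : Finset (Finset (Fin n))) (L : List (Finset (Fin n))) : Prop :=
  L.Nodup ∧ (∀ T ∈ L, T.card = d) ∧ (∀ F, F ∈ Δ ↔ ∃ T ∈ L, F ⊆ T) ∧
    ∀ (A : List (Finset (Fin n))) (T : Finset (Fin n)) (B : List (Finset (Fin n))),
      L = A ++ T :: B → ∀ S ∈ A, ∃ S' ∈ A, ∃ x ∈ T, S' ∩ T = T.erase x ∧ S ∩ T ⊆ T.erase x

end Pool.Agent.Lib.MP_af28a5_co
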