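import Pool.Agent.Lib.MP_af28a5_co.Cone
import Pool.Agent.Lib.MP_af28a5_co.Defs3

/-!
An obstruction to partitions with subcomplex bottoms, and its behaviour under cones.
-/

set_option autoImplicit false

namespace Pool.Agent.Lib.MP_af28a5_co

open Finset

variable {n : ℕ}

/-- every face `F` with `j + 1` elements has a vertex `v` outside such that `v` and the elements of
`F` joined to `v` by an edge do not form a face -/
def Viol (j : ℕ) (Δ : Finset (Finset (Fin n))) : Prop :=
  ∀ F ∈ Δ, F.card = j + 1 → ∃ v, v ∉ F ∧ ({v} : Finset (Fin n)) ∈ Δ ∧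
    insert v (F.filter (fun x => ({x, v} : Finset (Fin n)) ∈ Δ)) ∉ Δ

theorem not_union_of_viol {j : ℕ} {Δ : Finset (Finset (Fin n))} (hΔ : IsComplex Δ)
    (h : Viol j Δ) : ¬ IsUnionWithComplexBottoms (j + 1) Δ := by
  rintro ⟨P, h1, h2, h3⟩
  obtain ⟨p, ⟨hp, hp1, _⟩, hpu⟩ := h2 ∅ hΔ.1
  have hp0 : p.1 = ∅ := Finset.subset_empty.mp hp1
  obtain ⟨_, a2, a3⟩ := h1 p hp
  rw [hp0, Finset.sdiff_empty] at a3
  obtain ⟨v, hv, hvΔ, hno⟩ := h p.2 a2 a3
  -- an interval with empty bottom is `p`
  have hemp : ∀ q ∈ P, q.1 = ∅ → q = p := by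
    intro q hq h0
    exact hpu q ⟨hq, by rw [h0], Finset.empty_subset _⟩
  -- no bottom meets the top of `p`
  have hbot : ∀ q ∈ P, ∀ x ∈ p.2, x ∉ q.1 := by
    intro q hq x hx hxq
    obtain ⟨r, hr, hr1⟩ := h3 q hq {x} (Finset.singleton_subset_iff.mpr hxq)
    have hxΔ : ({x} : Finset (Fin n)) ∈ Δ :=
      hΔ.2 _ a2 _ (Finset.singleton_subset_iff.mpr hx)
    obtain ⟨s, _, hs⟩ := h2 {x} hxΔ
    have e1 := hs r ⟨hr, by rw [hr1], by rw [← hr1]; exact (h1 r hr).1⟩
    have e2 := hs p ⟨hp, by rw [hp0]; exact Finset.empty_subset _,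
      Finset.singleton_subset_iff.mpr hx⟩
    have e3 : r = p := e1.trans e2.symm
    rw [e3, hp0] at hr1
    exact (Finset.singleton_ne_empty x) hr1.symm
  obtain ⟨q, ⟨hq, hq1, hq2⟩, hqu⟩ := h2 {v} hvΔ
  have hqv : q.1 = {v} := by
    rcases Finset.subset_singleton_iff.mp hq1 with h0 | h0
    · exfalso
      have := hemp q hq h0
      rw [this] at hq2
      exact hv (Finset.singleton_subset_iff.mp hq2)
    · exact h0
  refine hno (hΔ.2 q.2 (h1 q hq).2.1 _ ?_)
  rw [Finset.insert_subset_iff]
  refine ⟨Finset.singleton_subset_iff.mp hq2, ?_⟩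
  intro x hx
  rw [Finset.mem_filter] at hx
  obtain ⟨r, ⟨hr, hr1, hr2⟩, _⟩ := h2 _ hx.2
  have hr3 : r.1 ⊆ {v} := by
    intro y hy
    have h4 := hr1 hy
    rw [Finset.mem_insert] at h4
    rcases h4 with h4 | h4
    · exact absurd (h4 ▸ hy) (hbot r hr x hx.1)
    · exact h4
  have hvr : v ∈ r.2 := hr2 (by simp)
  have hr4 : r = q := by
    rcases Finset.subset_singleton_iff.mp hr3 with h0 | h0
    · exfalso
      have := hemp r hr h0
      rw [this] at hvr
      exact hv hvr
    · exact hqu r ⟨hr, by rw [h0], Finset.singleton_subset_iff.mpr hvr⟩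
  rw [← hr4]
  exact hr2 (by simp)

theorem viol_cone {j : ℕ} {Δ : Finset (Finset (Fin n))} (hΔ : IsComplex Δ)
    (h : Viol j Δ) : Viol (j + 1) (cone Δ) := by
  -- it is enough to treat a face of the base below the given face
  have key : ∀ (F : Finset (Fin (n + 1))) (G : Finset (Fin n)) (v : Fin n), G.map inc ⊆ F →
      insert v (G.filter (fun x => ({x, v} : Finset (Fin n)) ∈ Δ)) ∉ Δ →
      insert (inc v) (F.filter (fun x => ({x, inc v} : Finset (Fin (n + 1))) ∈ cone Δ)) ∉
        cone Δ := by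
    intro F G v hGF hno hcon
    refine hno ?_
    rw [← map_mem_cone]
    refine (isComplex_cone hΔ).2 _ hcon _ ?_
    rw [Finset.map_insert]
    refine Finset.insert_subset_insert _ ?_
    intro y hy
    rw [Finset.mem_map] at hy
    obtain ⟨x, hx, rfl⟩ := hy
    rw [Finset.mem_filter] at hx ⊢
    refine ⟨hGF (Finset.mem_map_of_mem _ hx.1), ?_⟩
    have h5 : ({inc x, inc v} : Finset (Fin (n + 1))) = ({x, v} : Finset (Fin n)).map inc := by
      rw [Finset.map_insert, Finset.map_singleton]
    rw [h5, map_mem_cone]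
    exact hx.2
  intro F hF hc
  rcases mem_cone.mp hF with ⟨G, hG, rfl⟩ | ⟨G, hG, rfl⟩
  · rw [Finset.card_map] at hc
    obtain ⟨G', hG', hc'⟩ := Finset.exists_subset_card_eq (s := G) (n := j + 1) (by omega)
    obtain ⟨v, hv, hvΔ, hno⟩ := h G' (hΔ.2 G hG G' hG') hc'
    refine ⟨inc v, ?_, ?_, key _ G' v (Finset.map_subset_map.mpr hG') hno⟩
    · intro hv'
      rw [Finset.mem_map'] at hv'
      refine hno (hΔ.2 G hG _ ?_)
      exact Finset.insert_subset hv' ((Finset.filter_subset _ _).trans hG')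
    · rw [← Finset.map_singleton, map_mem_cone]
      exact hvΔ
  · rw [Finset.card_insert_of_notMem (last_notMem G), Finset.card_map] at hc
    obtain ⟨v, hv, hvΔ, hno⟩ := h G hG (by omega)
    refine ⟨inc v, ?_, ?_, key _ G v (Finset.subset_insert _ _) hno⟩
    · intro hv'
      rw [Finset.mem_insert] at hv'
      rcases hv' with h6 | h6
      · exact (Fin.castSucc_lt_last v).ne h6
      · rw [Finset.mem_map'] at h6
        exact hv h6
    · rw [← Finset.map_singleton, map_mem_cone]
      exact hvΔ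

theorem subset_coneTop {F T : Finset (Fin n)} :
    F.map inc ⊆ insert (Fin.last n) (T.map inc) ↔ F ⊆ T := by
  constructor
  · intro h
    rw [← Finset.map_subset_map (f := inc)]
    intro v hv
    have := h hv
    rw [Finset.mem_insert] at this
    rcases this with h' | h'
    · exact absurd (h' ▸ hv) (last_notMem F)
    · exact h'
  · intro h
    exact (Finset.map_subset_map.mpr h).trans (Finset.subset_insert _ _)

theorem insert_subset_coneTop {F T : Finset (Fin n)} :
    insert (Fin.last n) (F.map inc) ⊆ insert (Fin.last n) (T.map inc) ↔ F ⊆ T := by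
  rw [Finset.insert_subset_iff, subset_coneTop]
  simp

theorem union_cone {r : ℕ} {Δ : Finset (Finset (Fin n))} (h : IsUnionOfIntervals r Δ) :
    IsUnionOfIntervals (r + 1) (cone Δ) := by
  classical
  obtain ⟨P, h1, h2⟩ := h
  refine ⟨P.image (fun p => (p.1.map inc, insert (Fin.last n) (p.2.map inc))), ?_, ?_⟩
  · intro p hp
    rw [Finset.mem_image] at hp
    obtain ⟨q, hq, rfl⟩ := hp
    obtain ⟨a1, a2, a3⟩ := h1 q hq
    refine ⟨subset_coneTop.mpr a1, insert_map_mem_cone.mpr a2, ?_⟩
    simp only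
    rw [Finset.insert_sdiff_of_notMem _ (last_notMem q.1), ← Finset.map_sdiff,
      Finset.card_insert_of_notMem (last_notMem _), Finset.card_map, a3]
  · have key : ∀ (H : Finset (Fin (n + 1))) (G : Finset (Fin n)), G ∈ Δ →
        (∀ F : Finset (Fin n), F.map inc ⊆ H ↔ F ⊆ G) →
        (∀ T : Finset (Fin n), H ⊆ insert (Fin.last n) (T.map inc) ↔ G ⊆ T) →
        ∃! p, p ∈ P.image (fun p => (p.1.map inc, insert (Fin.last n) (p.2.map inc))) ∧
          p.1 ⊆ H ∧ H ⊆ p.2 := by
      intro H G hG hlow hup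
      obtain ⟨p, ⟨hp, hp1, hp2⟩, hpu⟩ := h2 G hG
      refine ⟨(p.1.map inc, insert (Fin.last n) (p.2.map inc)),
        ⟨Finset.mem_image_of_mem _ hp, (hlow _).mpr hp1, (hup _).mpr hp2⟩, ?_⟩
      rintro q ⟨hq, hq1, hq2⟩
      rw [Finset.mem_image] at hq
      obtain ⟨q', hq', rfl⟩ := hq
      rw [hpu q' ⟨hq', (hlow _).mp hq1, (hup _).mp hq2⟩]
    intro H hH
    rcases mem_cone.mp hH with ⟨G, hG, rfl⟩ | ⟨G, hG, rfl⟩
    · exact key _ G hG (fun F => Finset.map_subset_map) (fun T => subset_coneTop)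
    · exact key _ G hG (fun F => subset_coneTop) (fun T => insert_subset_coneTop)

/-- the cone over a facet -/
def coneTop (T : Finset (Fin n)) : Finset (Fin (n + 1)) := insert (Fin.last n) (T.map inc)

theorem coneTop_injective : Function.Injective (coneTop (n := n)) := by
  intro A B h
  have h1 : A ⊆ B := insert_subset_coneTop.mp (by
    have : coneTop A ⊆ coneTop B := by rw [h]
    exact this)
  have h2 : B ⊆ A := insert_subset_coneTop.mp (by
    have : coneTop B ⊆ coneTop A := by rw [h]
    exact this)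
  exact h1.antisymm h2

theorem shelling_cone {d : ℕ} {Δ : Finset (Finset (Fin n))} {L : List (Finset (Fin n))}
    (h : IsShelling d Δ L) : IsShelling (d + 1) (cone Δ) (L.map coneTop) := by
  obtain ⟨h1, h2, h3, h4⟩ := h
  refine ⟨h1.map coneTop_injective, ?_, ?_, ?_⟩
  · intro T hT
    rw [List.mem_map] at hT
    obtain ⟨T', hT', rfl⟩ := hT
    unfold coneTop
    rw [Finset.card_insert_of_notMem (last_notMem _), Finset.card_map, h2 T' hT']
  · intro F
    constructor
    · intro hF
      rcases mem_cone.mp hF with ⟨G, hG, rfl⟩ | ⟨G, hG, rfl⟩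
      · obtain ⟨T, hT, hGT⟩ := (h3 G).mp hG
        exact ⟨coneTop T, List.mem_map_of_mem hT, subset_coneTop.mpr hGT⟩
      · obtain ⟨T, hT, hGT⟩ := (h3 G).mp hG
        exact ⟨coneTop T, List.mem_map_of_mem hT, insert_subset_coneTop.mpr hGT⟩
    · rintro ⟨T, hT, hFT⟩
      rw [List.mem_map] at hT
      obtain ⟨T', hT', rfl⟩ := hT
      unfold coneTop at hFT
      rcases form F with ⟨G, rfl⟩ | ⟨G, rfl⟩
      · rw [subset_coneTop] at hFT
        exact map_mem_cone.mpr ((h3 G).mpr ⟨T', hT', hFT⟩)
      · rw [insert_subset_coneTop] at hFT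
        exact insert_map_mem_cone.mpr ((h3 G).mpr ⟨T', hT', hFT⟩)
  · intro A T B hAB S hS
    obtain ⟨A', R', hL, hA', hR'⟩ := List.map_eq_append_iff.mp hAB
    obtain ⟨T', B', rfl, rfl, hB'⟩ := List.map_eq_cons_iff.mp hR'
    subst hA'
    rw [List.mem_map] at hS
    obtain ⟨S₀, hS₀, rfl⟩ := hS
    obtain ⟨S', hS', x, hx, e1, e2⟩ := h4 A' T' B' hL S₀ hS₀
    have hinter : ∀ U : Finset (Fin n), coneTop U ∩ coneTop T' = coneTop (U ∩ T') := by
      intro U
      unfold coneTop
      rw [← Finset.insert_inter_distrib, Finset.map_inter]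
    have herase : (coneTop T').erase (inc x) = coneTop (T'.erase x) := by
      unfold coneTop
      have hne : Fin.last n ≠ inc x := (Fin.castSucc_lt_last x).ne'
      rw [Finset.erase_insert_of_ne hne, Finset.map_erase]
    refine ⟨coneTop S', List.mem_map_of_mem hS', inc x, ?_, ?_, ?_⟩
    · exact Finset.mem_insert_of_mem (Finset.mem_map_of_mem _ hx)
    · rw [hinter, herase, e1]
    · rw [hinter, herase]
      exact insert_subset_coneTop.mpr e2

theorem ridge_cone {d : ℕ} {L : List (Finset (Fin n))} (hd : ∀ T ∈ L, T.card = d)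
    (hn : L.Nodup)
    (h : ∀ F : Finset (Fin n), F.card + 1 = d → (L.filter (fun T => F ⊆ T)).length ≤ 2) :
    ∀ F : Finset (Fin (n + 1)), F.card + 1 = d + 1 →
      ((L.map coneTop).filter (fun T => F ⊆ T)).length ≤ 2 := by
  intro F hF
  rw [List.filter_map, List.length_map]
  rcases form F with ⟨G, rfl⟩ | ⟨G, rfl⟩
  · rw [Finset.card_map] at hF
    have h1 : L.filter ((fun T => decide (G.map inc ⊆ T)) ∘ coneTop) =
        L.filter (fun T => decide (T = G)) := by
      apply List.filter_congr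
      intro T hT
      simp only [Function.comp_apply]
      congr 1
      rw [eq_iff_iff]
      unfold coneTop
      rw [subset_coneTop]
      constructor
      · intro h
        exact (Finset.eq_of_subset_of_card_le h (by rw [hd T hT]; omega)).symm
      · intro h
        rw [h]
    rw [h1]
    have h2 : (L.filter (fun T => decide (T = G))).Nodup := hn.filter _
    have h3 : ∀ T ∈ L.filter (fun T => decide (T = G)), T = G := by
      intro T hT
      rw [List.mem_filter] at hT
      exact of_decide_eq_true hT.2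
    rcases h4 : L.filter (fun T => decide (T = G)) with _ | ⟨a, _ | ⟨b, l⟩⟩
    · simp
    · simp
    · exfalso
      rw [h4] at h2 h3
      have ha := h3 a (by simp)
      have hb := h3 b (by simp)
      rw [ha, hb] at h2
      simp at h2
  · have h1 : L.filter ((fun T => decide (insert (Fin.last n) (G.map inc) ⊆ T)) ∘ coneTop) =
        L.filter (fun T => decide (G ⊆ T)) := by
      apply List.filter_congr
      intro T hT
      simp only [Function.comp_apply]
      congr 1
      rw [eq_iff_iff]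
      unfold coneTop
      rw [insert_subset_coneTop]
    rw [h1]
    apply h G
    rw [Finset.card_insert_of_notMem (last_notMem G), Finset.card_map] at hF
    omega

end Pool.Agent.Lib.MP_af28a5_co
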