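import Pool.Agent.Lib.MP_af28a5_co.ChordalAcyc
import Pool.Agent.Lib.MP_af28a5_co.Viol

/-!
Attaching cones to a simplex along subcomplexes.
-/

set_option autoImplicit false

namespace Pool.Agent.Lib.MP_af28a5_co

open Finset

section gen

variable {V : Type*} [DecidableEq V]

theorem exp_attach (a : V) {D M : Set (Finset V)} (h : Exp D M) (E : Set (Finset V))
    (hE : ∀ F ∈ E, a ∉ F) (hM : M ⊆ E) :
    Exp (E ∪ {H | ∃ F ∈ D, H = insert a F}) (E ∪ {H | ∃ F ∈ M, H = insert a F}) := by
  induction h with
  | refl => exact Exp.refl _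
  | @step M' σ b h1 h2 h3 h4 ih =>
    have hM' : M' ⊆ E := fun F hF => hM (Or.inr (Or.inr hF))
    have hσ : σ ∈ E := hM (Or.inl rfl)
    have hbσ : insert b σ ∈ E := hM (Or.inr (Or.inl rfl))
    have haσ := hE _ hσ
    have habσ := hE _ hbσ
    have hab : a ≠ b := fun e => habσ (e ▸ Finset.mem_insert_self _ _)
    have h5 := Exp.step (insert a σ) b (ih hM') ?_ ?_ ?_
    · have e : insert (insert a σ) (insert (insert b (insert a σ))
          (E ∪ {H | ∃ F ∈ M', H = insert a F})) =
          E ∪ {H | ∃ F ∈ insert σ (insert (insert b σ) M'), H = insert a F} := by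
        ext H
        simp only [Set.mem_insert_iff, Set.mem_union, Set.mem_ofPred_eq]
        constructor
        · rintro (h | h | h | ⟨F, hF, h⟩)
          · exact Or.inr ⟨σ, Or.inl rfl, h⟩
          · exact Or.inr ⟨insert b σ, Or.inr (Or.inl rfl), by rw [h, Finset.insert_comm]⟩
          · exact Or.inl h
          · exact Or.inr ⟨F, Or.inr (Or.inr hF), h⟩
        · rintro (h | ⟨F, (rfl | rfl | hF), h⟩)
          · exact Or.inr (Or.inr (Or.inl h))
          · exact Or.inl h
          · exact Or.inr (Or.inl (by rw [h, Finset.insert_comm]))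
          · exact Or.inr (Or.inr (Or.inr ⟨F, hF, h⟩))
      rwa [e] at h5
    · rintro (h | ⟨F, hF, h⟩)
      · exact hE _ h (Finset.mem_insert_self _ _)
      · have haF := hE _ (hM' hF)
        have : σ = F := by
          rw [← Finset.erase_insert haσ, h, Finset.erase_insert haF]
        exact h2 (this ▸ hF)
    · rw [Finset.mem_insert]
      rintro (h | h)
      · exact hab h.symm
      · exact h3 h
    · intro x hx
      rw [Finset.mem_insert] at hx
      rcases hx with rfl | hx
      · left
        have : (insert b (insert x σ)).erase x = insert b σ := by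
          rw [Finset.insert_comm, Finset.erase_insert habσ]
        rw [this]
        exact hbσ
      · right
        refine ⟨(insert b σ).erase x, h4 x hx, ?_⟩
        have hax : a ≠ x := fun e => haσ (e ▸ hx)
        rw [Finset.insert_comm, Finset.erase_insert_of_ne hax]

end gen

/-! ### Images of complexes -/

section map

variable {n m : ℕ}

/-- the image of a complex under an embedding of the vertex sets -/
def mapC (φ : Fin n ↪ Fin m) (Δ : Finset (Finset (Fin n))) : Finset (Finset (Fin m)) :=
  Δ.image (fun F => F.map φ)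

theorem mem_mapC {φ : Fin n ↪ Fin m} {Δ : Finset (Finset (Fin n))} {F : Finset (Fin m)} :
    F ∈ mapC φ Δ ↔ ∃ G ∈ Δ, G.map φ = F := by
  simp [mapC]

theorem map_mem_mapC {φ : Fin n ↪ Fin m} {Δ : Finset (Finset (Fin n))} {F : Finset (Fin n)} :
    F.map φ ∈ mapC φ Δ ↔ F ∈ Δ := by
  rw [mem_mapC]
  constructor
  · rintro ⟨G, hG, h⟩
    rw [Finset.map_inj] at h
    exact h ▸ hG
  · intro h
    exact ⟨F, h, rfl⟩

theorem isComplex_mapC {φ : Fin n ↪ Fin m} {Δ : Finset (Finset (Fin n))} (h : IsComplex Δ) :
    IsComplex (mapC φ Δ) := by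
  refine ⟨mem_mapC.mpr ⟨∅, h.1, by simp⟩, ?_⟩
  intro F hF G hG
  obtain ⟨F', hF', rfl⟩ := mem_mapC.mp hF
  obtain ⟨G', hG', rfl⟩ := Finset.subset_map_iff.mp hG
  exact map_mem_mapC.mpr (h.2 _ hF' _ hG')

theorem jexp_mapC {φ : Fin n ↪ Fin m} {Δ : Finset (Finset (Fin n))} {j : ℕ}
    (h : JExp j Δ) : JExp j (mapC φ Δ) := by
  intro F hF hc
  obtain ⟨F', hF', rfl⟩ := mem_mapC.mp hF
  rw [Finset.card_map] at hc
  have h1 := Exp.map φ (h F' hF' hc) ∅ (fun F hF => absurd hF (Set.notMem_empty F))
    (fun F _ _ => Set.notMem_empty _)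
  have e : ((∅ : Set (Finset (Fin m))) ∪
      {G | ∃ F ∈ (link Δ F' : Set (Finset (Fin n))), F.map φ = G}) =
      (link (mapC φ Δ) (F'.map φ) : Set _) := by
    ext G
    rw [Set.empty_union, Set.mem_ofPred_eq, Finset.mem_coe, mem_link]
    constructor
    · rintro ⟨G', hG', rfl⟩
      rw [Finset.mem_coe, mem_link] at hG'
      refine ⟨map_mem_mapC.mpr hG'.1, ?_, ?_⟩
      · rw [← Finset.map_inter, hG'.2.1, Finset.map_empty]
      · rw [← Finset.map_union]
        exact map_mem_mapC.mpr hG'.2.2
    · rintro ⟨g1, g2, g3⟩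
      obtain ⟨G', hG', rfl⟩ := mem_mapC.mp g1
      refine ⟨G', ?_, rfl⟩
      rw [Finset.mem_coe, mem_link]
      rw [← Finset.map_inter, Finset.map_eq_empty] at g2
      rw [← Finset.map_union] at g3
      exact ⟨hG', g2, map_mem_mapC.mp g3⟩
  rw [← e]
  exact h1

theorem union_mapC {φ : Fin n ↪ Fin m} {Δ : Finset (Finset (Fin n))} {r : ℕ}
    (h : IsUnionOfIntervals r Δ) : IsUnionOfIntervals r (mapC φ Δ) := by
  classical
  obtain ⟨P, h1, h2⟩ := h
  refine ⟨P.image (fun p => (p.1.map φ, p.2.map φ)), ?_, ?_⟩
  · intro p hp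
    rw [Finset.mem_image] at hp
    obtain ⟨q, hq, rfl⟩ := hp
    obtain ⟨a1, a2, a3⟩ := h1 q hq
    refine ⟨Finset.map_subset_map.mpr a1, map_mem_mapC.mpr a2, ?_⟩
    simp only
    rw [← Finset.map_sdiff, Finset.card_map, a3]
  · intro H hH
    obtain ⟨G, hG, rfl⟩ := mem_mapC.mp hH
    obtain ⟨p, ⟨hp, hp1, hp2⟩, hpu⟩ := h2 G hG
    refine ⟨(p.1.map φ, p.2.map φ), ⟨Finset.mem_image_of_mem _ hp,
      Finset.map_subset_map.mpr hp1, Finset.map_subset_map.mpr hp2⟩, ?_⟩
    rintro q ⟨hq, hq1, hq2⟩
    rw [Finset.mem_image] at hq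
    obtain ⟨q', hq', rfl⟩ := hq
    rw [hpu q' ⟨hq', Finset.map_subset_map.mp hq1, Finset.map_subset_map.mp hq2⟩]

end map

/-! ### A simplex with cones attached -/

section attach

variable {N M : ℕ}

/-- the vertices of the simplex -/
def old (N M : ℕ) : Fin N ↪ Fin (N + M) := ⟨Fin.castAdd M, Fin.castAdd_injective N M⟩

/-- the apex of the cone with number `i` -/
def new (N : ℕ) {M : ℕ} (i : Fin M) : Fin (N + M) := Fin.natAdd N i

theorem new_ne_old (i : Fin M) (a : Fin N) : new N i ≠ old N M a := by
  intro h
  have h1 := congrArg Fin.val h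
  have h2 : (new N i).val = N + i.val := rfl
  have h3 : (old N M a).val = a.val := rfl
  have := a.isLt
  omega

theorem new_inj {i i' : Fin M} (h : new N i = new N i') : i = i' := by
  have h1 := congrArg Fin.val h
  have h2 : (new N i).val = N + i.val := rfl
  have h3 : (new N i').val = N + i'.val := rfl
  exact Fin.ext (by omega)

theorem new_notMem (i : Fin M) (G : Finset (Fin N)) : new N i ∉ G.map (old N M) := by
  intro h
  obtain ⟨a, _, ha⟩ := Finset.mem_map.mp h
  exact new_ne_old i a ha.symm

theorem old_or_new (x : Fin (N + M)) : (∃ a, x = old N M a) ∨ ∃ i, x = new N i := by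
  refine Fin.addCases (fun a => Or.inl ⟨a, rfl⟩) (fun i => Or.inr ⟨i, rfl⟩) x

/-- the simplex on the old vertices with the cones over the complexes `L i` -/
def attachAll (L : Fin M → Finset (Finset (Fin N))) : Finset (Finset (Fin (N + M))) :=
  (Finset.univ : Finset (Finset (Fin N))).image (fun G => G.map (old N M)) ∪
    Finset.univ.biUnion (fun i => (L i).image (fun G => insert (new N i) (G.map (old N M))))

theorem mem_attachAll {L : Fin M → Finset (Finset (Fin N))} {F : Finset (Fin (N + M))} :
    F ∈ attachAll L ↔ (∃ G : Finset (Fin N), G.map (old N M) = F) ∨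
      ∃ i, ∃ G ∈ L i, insert (new N i) (G.map (old N M)) = F := by
  simp [attachAll]

theorem old_mem (L : Fin M → Finset (Finset (Fin N))) (G : Finset (Fin N)) :
    G.map (old N M) ∈ attachAll L := mem_attachAll.mpr (Or.inl ⟨G, rfl⟩)

theorem insert_new_inj {i i' : Fin M} {G G' : Finset (Fin N)}
    (h : insert (new N i) (G.map (old N M)) = insert (new N i') (G'.map (old N M))) :
    i = i' ∧ G = G' := by
  have h1 : i = i' := by
    have h2 : new N i ∈ insert (new N i') (G'.map (old N M)) := h ▸ Finset.mem_insert_self _ _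
    rw [Finset.mem_insert] at h2
    rcases h2 with h2 | h2
    · exact new_inj h2
    · exact absurd h2 (new_notMem i G')
  subst h1
  refine ⟨rfl, ?_⟩
  rw [← Finset.map_inj (f := old N M), ← Finset.erase_insert (new_notMem i G), h,
    Finset.erase_insert (new_notMem i G')]

theorem insert_new_mem {L : Fin M → Finset (Finset (Fin N))} {i : Fin M} {G : Finset (Fin N)} :
    insert (new N i) (G.map (old N M)) ∈ attachAll L ↔ G ∈ L i := by
  rw [mem_attachAll]
  constructor
  · rintro (⟨G', h⟩ | ⟨i', G', hG', h⟩)
    · exact absurd (h ▸ Finset.mem_insert_self _ _ : new N i ∈ G'.map (old N M)) (new_notMem i G')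
    · obtain ⟨rfl, rfl⟩ := insert_new_inj h
      exact hG'
  · intro h
    exact Or.inr ⟨i, G, h, rfl⟩

theorem isComplex_attachAll {L : Fin M → Finset (Finset (Fin N))} (hL : ∀ i, IsComplex (L i)) :
    IsComplex (attachAll L) := by
  refine ⟨mem_attachAll.mpr (Or.inl ⟨∅, by simp⟩), ?_⟩
  intro F hF G hG
  rcases mem_attachAll.mp hF with ⟨F', rfl⟩ | ⟨i, F', hF', rfl⟩
  · obtain ⟨G', _, rfl⟩ := Finset.subset_map_iff.mp hG
    exact old_mem L G'
  · by_cases hn : new N i ∈ G
    · have h1 : G.erase (new N i) ⊆ F'.map (old N M) := by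
        rw [← Finset.erase_insert (new_notMem i F')]
        exact Finset.erase_subset_erase _ hG
      obtain ⟨G', hG', h2⟩ := Finset.subset_map_iff.mp h1
      rw [← Finset.insert_erase hn, h2, insert_new_mem]
      exact (hL i).2 F' hF' G' hG'
    · have h1 : G ⊆ F'.map (old N M) := (Finset.subset_insert_iff_of_notMem hn).mp hG
      obtain ⟨G', _, rfl⟩ := Finset.subset_map_iff.mp h1
      exact old_mem L G'

theorem jexp_attachAll {L : Fin M → Finset (Finset (Fin N))} (hL : ∀ i, IsComplex (L i)) {j : ℕ}
    (hj : ∀ i, JExp j (L i)) (hN : j < N) : JExp j (attachAll L) := by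
  intro F hF hc
  -- images of the links in the attaching complexes
  have hexp : ∀ (i : Fin M) (G : Finset (Fin N)), G.card ≤ j →
      Exp ∅ {H : Finset (Fin (N + M)) | ∃ K : Finset (Fin N), K ∩ G = ∅ ∧ K ∪ G ∈ L i ∧
        H = K.map (old N M)} := by
    intro i G hG
    by_cases hGL : G ∈ L i
    · have h1 := Exp.map (old N M) (hj i G hGL hG) ∅
        (fun F hF => absurd hF (Set.notMem_empty F)) (fun F _ _ => Set.notMem_empty _)
      have e : ((∅ : Set (Finset (Fin (N + M)))) ∪
          {H | ∃ F ∈ (link (L i) G : Set (Finset (Fin N))), F.map (old N M) = H}) =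
          {H : Finset (Fin (N + M)) | ∃ K : Finset (Fin N), K ∩ G = ∅ ∧ K ∪ G ∈ L i ∧
            H = K.map (old N M)} := by
        ext H
        rw [Set.empty_union, Set.mem_ofPred_eq, Set.mem_ofPred_eq]
        constructor
        · rintro ⟨K, hK, rfl⟩
          rw [Finset.mem_coe, mem_link] at hK
          exact ⟨K, hK.2.1, hK.2.2, rfl⟩
        · rintro ⟨K, hK1, hK2, rfl⟩
          refine ⟨K, ?_, rfl⟩
          rw [Finset.mem_coe, mem_link]
          exact ⟨(hL i).2 _ hK2 _ Finset.subset_union_left, hK1, hK2⟩
      rwa [e] at h1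
    · have e : {H : Finset (Fin (N + M)) | ∃ K : Finset (Fin N), K ∩ G = ∅ ∧ K ∪ G ∈ L i ∧
          H = K.map (old N M)} = ∅ := by
        ext H
        rw [Set.mem_ofPred_eq]
        constructor
        · rintro ⟨K, _, hK2, _⟩
          exact absurd ((hL i).2 _ hK2 _ Finset.subset_union_right) hGL
        · intro h
          exact absurd h (Set.notMem_empty _)
      rw [e]
      exact Exp.refl _
  rcases mem_attachAll.mp hF with ⟨G, rfl⟩ | ⟨i, G, hG, rfl⟩
  · rw [Finset.card_map] at hc
    have key : ∀ s : Finset (Fin M), Exp ∅ ({H : Finset (Fin (N + M)) |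
        H ⊆ (Finset.univ \ G).map (old N M)} ∪ {H | ∃ i ∈ s, ∃ K : Finset (Fin N),
          K ∩ G = ∅ ∧ K ∪ G ∈ L i ∧ H = insert (new N i) (K.map (old N M))}) := by
      intro s
      induction s using Finset.induction_on with
      | empty =>
        have h1 := exp_simplex ((Finset.univ \ G).map (old N M)) (by
          rw [Finset.map_nonempty, ← Finset.card_pos, Finset.card_sdiff_of_subset
            (Finset.subset_univ G), Finset.card_univ, Fintype.card_fin]
          omega)
        have e : ({H : Finset (Fin (N + M)) | H ⊆ (Finset.univ \ G).map (old N M)} ∪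
            {H | ∃ i ∈ (∅ : Finset (Fin M)), ∃ K : Finset (Fin N),
              K ∩ G = ∅ ∧ K ∪ G ∈ L i ∧ H = insert (new N i) (K.map (old N M))}) =
            {H : Finset (Fin (N + M)) | H ⊆ (Finset.univ \ G).map (old N M)} := by
          ext H
          simp
        rw [e]
        exact h1
      | insert i s hi ih =>
        set E : Set (Finset (Fin (N + M))) := {H : Finset (Fin (N + M)) |
          H ⊆ (Finset.univ \ G).map (old N M)} ∪ {H | ∃ i ∈ s, ∃ K : Finset (Fin N),
            K ∩ G = ∅ ∧ K ∪ G ∈ L i ∧ H = insert (new N i) (K.map (old N M))} with hEdef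
        have h1 := exp_attach (new N i) (hexp i G hc) E (by
          rintro F (hF | ⟨i', hi', K, _, _, rfl⟩) hmem
          · exact new_notMem i _ (hF hmem)
          · rw [Finset.mem_insert] at hmem
            rcases hmem with h | h
            · exact hi (new_inj h ▸ hi')
            · exact new_notMem i _ h) (by
          rintro H ⟨K, hK1, hK2, rfl⟩
          left
          rw [Set.mem_ofPred_eq, Finset.map_subset_map]
          intro x hx
          rw [Finset.mem_sdiff]
          refine ⟨Finset.mem_univ _, fun hxG => ?_⟩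
          have : x ∈ K ∩ G := Finset.mem_inter.mpr ⟨hx, hxG⟩
          rw [hK1] at this
          exact Finset.notMem_empty _ this)
        have e1 : E ∪ {H | ∃ F ∈ (∅ : Set (Finset (Fin (N + M)))), H = insert (new N i) F} = E := by
          ext H
          simp
        rw [e1] at h1
        have h2 := Exp.trans ih h1
        have e2 : E ∪ {H | ∃ F ∈ {H : Finset (Fin (N + M)) | ∃ K : Finset (Fin N),
            K ∩ G = ∅ ∧ K ∪ G ∈ L i ∧ H = K.map (old N M)}, H = insert (new N i) F} =
            {H : Finset (Fin (N + M)) | H ⊆ (Finset.univ \ G).map (old N M)} ∪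
              {H | ∃ i' ∈ insert i s, ∃ K : Finset (Fin N),
                K ∩ G = ∅ ∧ K ∪ G ∈ L i' ∧ H = insert (new N i') (K.map (old N M))} := by
          ext H
          rw [hEdef]
          simp only [Set.mem_union, Set.mem_ofPred_eq, Finset.mem_insert]
          constructor
          · rintro ((h | ⟨i', hi', K, h3, h4, h5⟩) | ⟨F, ⟨K, h3, h4, rfl⟩, h5⟩)
            · exact Or.inl h
            · exact Or.inr ⟨i', Or.inr hi', K, h3, h4, h5⟩
            · exact Or.inr ⟨i, Or.inl rfl, K, h3, h4, h5⟩
          · rintro (h | ⟨i', (rfl | hi'), K, h3, h4, h5⟩)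
            · exact Or.inl (Or.inl h)
            · exact Or.inr ⟨_, ⟨K, h3, h4, rfl⟩, h5⟩
            · exact Or.inl (Or.inr ⟨i', hi', K, h3, h4, h5⟩)
        rwa [e2] at h2
    have h := key Finset.univ
    have e : ({H : Finset (Fin (N + M)) | H ⊆ (Finset.univ \ G).map (old N M)} ∪
        {H | ∃ i ∈ (Finset.univ : Finset (Fin M)), ∃ K : Finset (Fin N),
          K ∩ G = ∅ ∧ K ∪ G ∈ L i ∧ H = insert (new N i) (K.map (old N M))}) =
        (link (attachAll L) (G.map (old N M)) : Set _) := by
      ext H
      rw [Finset.mem_coe, mem_link]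
      constructor
      · rintro (h | ⟨i, _, K, h3, h4, rfl⟩)
        · rw [Set.mem_ofPred_eq] at h
          obtain ⟨K, hK, rfl⟩ := Finset.subset_map_iff.mp h
          refine ⟨old_mem L K, ?_, ?_⟩
          · rw [← Finset.map_inter, Finset.map_eq_empty]
            rw [← Finset.disjoint_iff_inter_eq_empty]
            exact (Finset.sdiff_disjoint).mono_left hK
          · rw [← Finset.map_union]
            exact old_mem L _
        · refine ⟨insert_new_mem.mpr ((hL i).2 _ h4 _ Finset.subset_union_left), ?_, ?_⟩
          · rw [Finset.insert_inter_of_notMem (new_notMem i G), ← Finset.map_inter, h3,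
              Finset.map_empty]
          · rw [Finset.insert_union, ← Finset.map_union]
            exact insert_new_mem.mpr h4
      · rintro ⟨g1, g2, g3⟩
        rcases mem_attachAll.mp g1 with ⟨K, rfl⟩ | ⟨i, K, hK, rfl⟩
        · left
          rw [← Finset.map_inter, Finset.map_eq_empty] at g2
          rw [Set.mem_ofPred_eq, Finset.map_subset_map]
          intro x hx
          rw [Finset.mem_sdiff]
          refine ⟨Finset.mem_univ _, fun hxG => ?_⟩
          have : x ∈ K ∩ G := Finset.mem_inter.mpr ⟨hx, hxG⟩
          rw [g2] at this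
          exact Finset.notMem_empty _ this
        · right
          rw [Finset.insert_inter_of_notMem (new_notMem i G), ← Finset.map_inter,
            Finset.map_eq_empty] at g2
          rw [Finset.insert_union, ← Finset.map_union, insert_new_mem] at g3
          exact ⟨i, Finset.mem_univ _, K, g2, g3, rfl⟩
    rwa [e] at h
  · rw [Finset.card_insert_of_notMem (new_notMem i G), Finset.card_map] at hc
    have h := hexp i G (by omega)
    have e : {H : Finset (Fin (N + M)) | ∃ K : Finset (Fin N), K ∩ G = ∅ ∧ K ∪ G ∈ L i ∧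
        H = K.map (old N M)} =
        (link (attachAll L) (insert (new N i) (G.map (old N M))) : Set _) := by
      ext H
      rw [Finset.mem_coe, mem_link, Set.mem_ofPred_eq]
      constructor
      · rintro ⟨K, h1, h2, rfl⟩
        refine ⟨old_mem L K, ?_, ?_⟩
        · rw [Finset.inter_insert_of_notMem (new_notMem i K), ← Finset.map_inter, h1,
            Finset.map_empty]
        · rw [Finset.union_insert, ← Finset.map_union]
          exact insert_new_mem.mpr h2
      · rintro ⟨g1, g2, g3⟩
        have hn : new N i ∉ H := by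
          intro hn
          have : new N i ∈ H ∩ insert (new N i) (G.map (old N M)) :=
            Finset.mem_inter.mpr ⟨hn, Finset.mem_insert_self _ _⟩
          rw [g2] at this
          exact Finset.notMem_empty _ this
        rcases mem_attachAll.mp g3 with ⟨K, hK⟩ | ⟨i', K, hK, hK'⟩
        · exfalso
          have : new N i ∈ K.map (old N M) := by
            rw [hK]
            exact Finset.mem_union_right _ (Finset.mem_insert_self _ _)
          exact new_notMem i K this
        · have hii : i = i' := by
            have : new N i ∈ insert (new N i') (K.map (old N M)) := by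
              rw [hK']
              exact Finset.mem_union_right _ (Finset.mem_insert_self _ _)
            rw [Finset.mem_insert] at this
            rcases this with h' | h'
            · exact new_inj h'
            · exact absurd h' (new_notMem i K)
          subst hii
          have hH : H ⊆ K.map (old N M) := by
            intro x hx
            have : x ∈ insert (new N i) (K.map (old N M)) := by
              rw [hK']
              exact Finset.mem_union_left _ hx
            rw [Finset.mem_insert] at this
            rcases this with h' | h'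
            · exact absurd (h' ▸ hx) hn
            · exact h'
          obtain ⟨K', hK'', rfl⟩ := Finset.subset_map_iff.mp hH
          rw [Finset.inter_insert_of_notMem hn, ← Finset.map_inter, Finset.map_eq_empty] at g2
          rw [Finset.union_insert, ← Finset.map_union, insert_new_mem] at g3
          exact ⟨K', g2, g3, rfl⟩
    rwa [e] at h

theorem union_simplex {r : ℕ} (hr : r ≤ N) :
    IsUnionOfIntervals r (Finset.univ : Finset (Finset (Fin N))) := by
  classical
  obtain ⟨R, _, hR⟩ := Finset.exists_subset_card_eq (s := (Finset.univ : Finset (Fin N))) (n := r)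
    (by simpa using hr)
  refine ⟨(Finset.univ : Finset (Finset (Fin N))).image (fun F => (F \ R, F ∪ R)), ?_, ?_⟩
  · intro p hp
    rw [Finset.mem_image] at hp
    obtain ⟨F, _, rfl⟩ := hp
    refine ⟨Finset.sdiff_subset.trans Finset.subset_union_left, Finset.mem_univ _, ?_⟩
    rw [← hR]
    congr 1
    ext x
    simp only [Finset.mem_sdiff, Finset.mem_union]
    tauto
  · intro H _
    refine ⟨(H \ R, H ∪ R), ⟨Finset.mem_image_of_mem _ (Finset.mem_univ H), Finset.sdiff_subset,
      Finset.subset_union_left⟩, ?_⟩
    rintro q ⟨hq, hq1, hq2⟩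
    rw [Finset.mem_image] at hq
    obtain ⟨F, _, rfl⟩ := hq
    simp only at hq1 hq2
    have h1 : F \ R = H \ R := by
      ext x
      simp only [Finset.mem_sdiff]
      constructor
      · rintro ⟨h2, h3⟩
        exact ⟨hq1 (Finset.mem_sdiff.mpr ⟨h2, h3⟩), h3⟩
      · rintro ⟨h2, h3⟩
        have := hq2 h2
        rw [Finset.mem_union] at this
        exact ⟨this.resolve_right h3, h3⟩
    have h2 : F ∪ R = H ∪ R := by
      rw [← Finset.sdiff_union_self_eq_union (s := F), ← Finset.sdiff_union_self_eq_union (s := H),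
        h1]
    rw [h1, h2]

theorem union_attachAll {L : Fin M → Finset (Finset (Fin N))} {r : ℕ} (hr : r ≤ N)
    (h : ∀ i, IsUnionOfIntervals r (L i)) : IsUnionOfIntervals r (attachAll L) := by
  classical
  obtain ⟨P, hP1, hP2⟩ := union_simplex (N := N) hr
  choose Q hQ1 hQ2 using h
  refine ⟨P.image (fun p => (p.1.map (old N M), p.2.map (old N M))) ∪
    Finset.univ.biUnion (fun i => (Q i).image (fun p =>
      (insert (new N i) (p.1.map (old N M)), insert (new N i) (p.2.map (old N M))))), ?_, ?_⟩
  · intro p hp
    rw [Finset.mem_union, Finset.mem_image, Finset.mem_biUnion] at hp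
    rcases hp with ⟨q, hq, rfl⟩ | ⟨i, _, hp⟩
    · obtain ⟨a1, a2, a3⟩ := hP1 q hq
      refine ⟨Finset.map_subset_map.mpr a1, old_mem L _, ?_⟩
      simp only
      rw [← Finset.map_sdiff, Finset.card_map, a3]
    · rw [Finset.mem_image] at hp
      obtain ⟨q, hq, rfl⟩ := hp
      obtain ⟨a1, a2, a3⟩ := hQ1 i q hq
      refine ⟨Finset.insert_subset_insert _ (Finset.map_subset_map.mpr a1),
        insert_new_mem.mpr a2, ?_⟩
      simp only
      have h1 : insert (new N i) (q.2.map (old N M)) \ insert (new N i) (q.1.map (old N M)) =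
          (q.2 \ q.1).map (old N M) := by
        rw [Finset.insert_sdiff_insert, Finset.sdiff_insert_of_notMem (new_notMem i _),
          Finset.map_sdiff]
      rw [h1, Finset.card_map, a3]
  · intro H hH
    rcases mem_attachAll.mp hH with ⟨G, rfl⟩ | ⟨i, G, hG, rfl⟩
    · obtain ⟨p, ⟨hp, hp1, hp2⟩, hpu⟩ := hP2 G (Finset.mem_univ G)
      refine ⟨(p.1.map (old N M), p.2.map (old N M)), ⟨Finset.mem_union_left _
        (Finset.mem_image_of_mem _ hp), Finset.map_subset_map.mpr hp1,
        Finset.map_subset_map.mpr hp2⟩, ?_⟩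
      rintro q ⟨hq, hq1, hq2⟩
      rw [Finset.mem_union, Finset.mem_image, Finset.mem_biUnion] at hq
      rcases hq with ⟨q', hq', rfl⟩ | ⟨i, _, hq⟩
      · rw [hpu q' ⟨hq', Finset.map_subset_map.mp hq1, Finset.map_subset_map.mp hq2⟩]
      · exfalso
        rw [Finset.mem_image] at hq
        obtain ⟨q', _, rfl⟩ := hq
        exact new_notMem i G (hq1 (Finset.mem_insert_self _ _))
    · obtain ⟨p, ⟨hp, hp1, hp2⟩, hpu⟩ := hQ2 i G hG
      refine ⟨(insert (new N i) (p.1.map (old N M)), insert (new N i) (p.2.map (old N M))),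
        ⟨Finset.mem_union_right _ (Finset.mem_biUnion.mpr ⟨i, Finset.mem_univ _,
          Finset.mem_image_of_mem _ hp⟩),
        Finset.insert_subset_insert _ (Finset.map_subset_map.mpr hp1),
        Finset.insert_subset_insert _ (Finset.map_subset_map.mpr hp2)⟩, ?_⟩
      rintro q ⟨hq, hq1, hq2⟩
      rw [Finset.mem_union, Finset.mem_image, Finset.mem_biUnion] at hq
      have hsub : ∀ A B : Finset (Fin N), insert (new N i) (A.map (old N M)) ⊆
          insert (new N i) (B.map (old N M)) → A ⊆ B := by
        intro A B hAB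
        rw [← Finset.map_subset_map (f := old N M), ← Finset.erase_insert (new_notMem i A),
          ← Finset.erase_insert (new_notMem i B)]
        exact Finset.erase_subset_erase _ hAB
      rcases hq with ⟨q', hq', rfl⟩ | ⟨i', _, hq⟩
      · exfalso
        exact new_notMem i _ (hq2 (Finset.mem_insert_self _ _))
      · rw [Finset.mem_image] at hq
        obtain ⟨q', hq', rfl⟩ := hq
        have hii : i = i' := by
          have := hq2 (Finset.mem_insert_self _ _)
          rw [Finset.mem_insert] at this
          rcases this with h' | h'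
          · exact new_inj h'
          · exact absurd h' (new_notMem i _)
        subst hii
        rw [hpu q' ⟨hq', hsub _ _ hq1, hsub _ _ hq2⟩]

end attach

end Pool.Agent.Lib.MP_af28a5_co
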