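import Pool.Agent.Lib.MP_af28a5_co.BallData

/-!
A shellable three-dimensional ball with nine vertices: its properties, and its iterated cones.
-/

set_option autoImplicit false

namespace Pool.Agent.Lib.MP_af28a5_co.Ball

open Finset

/-- the facets in the order of the shelling -/
def facets : List (Finset (Fin 9)) := tets.map dec

/-- the complex -/
def ball : Finset (Finset (Fin 9)) := (faceL.map dec).toFinset

theorem mem_ball {F : Finset (Fin 9)} : F ∈ ball ↔ F ∈ S faceL := by
  simp [ball, S, List.mem_toFinset]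

theorem faceL_lt : ∀ m ∈ faceL, m < 512 := by decide +kernel

theorem tets_lt : ∀ m ∈ tets, m < 512 := by decide +kernel

theorem dec_mem_ball {m : ℕ} (hm : m < 512) : dec m ∈ ball ↔ m ∈ faceL := by
  rw [mem_ball]
  constructor
  · rintro ⟨m', h, h'⟩
    exact dec_inj (faceL_lt m' h) hm h' ▸ h
  · intro h
    exact ⟨m, h, rfl⟩

theorem check_faces : ∀ m : Fin 512, (faceL.contains m.val) =
    (tets.any (fun t => sub m.val t)) := by decide +kernel

theorem mem_ball_iff (F : Finset (Fin 9)) : F ∈ ball ↔ ∃ T ∈ facets, F ⊆ T := by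
  obtain ⟨m, hm, rfl⟩ := dec_surj F
  rw [dec_mem_ball hm]
  have h := check_faces ⟨m, hm⟩
  simp only at h
  have h1 : (m ∈ faceL) ↔ faceL.contains m = true := by simp
  rw [h1, h, List.any_eq_true]
  constructor
  · rintro ⟨t, ht, hs⟩
    exact ⟨dec t, List.mem_map_of_mem ht, (sub_iff hm).mp hs⟩
  · rintro ⟨T, hT, hs⟩
    obtain ⟨t, ht, rfl⟩ := List.mem_map.mp hT
    exact ⟨t, ht, (sub_iff hm).mpr hs⟩

theorem isComplex_ball : IsComplex ball := by
  refine ⟨?_, ?_⟩
  · rw [← dec_zero, dec_mem_ball (by norm_num)]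
    decide +kernel
  · intro F hF G hG
    rw [mem_ball_iff] at hF ⊢
    obtain ⟨T, hT, hFT⟩ := hF
    exact ⟨T, hT, hG.trans hFT⟩

theorem check_shelling : ∀ i : Fin 18, ∀ s ∈ tets.take i.val, ∃ s' ∈ tets.take i.val,
    ∃ x : Fin 9, (tets.getD i.val 0).testBit x.val = true ∧
      s' &&& (tets.getD i.val 0) = (tets.getD i.val 0) ^^^ 2 ^ x.val ∧
      (s &&& (tets.getD i.val 0)) &&& ((tets.getD i.val 0) ^^^ 2 ^ x.val) =
        s &&& (tets.getD i.val 0) := by
  decide +kernel

theorem tets_length : tets.length = 18 := by decide +kernel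

theorem tets_nodup : tets.Nodup := by decide +kernel

theorem tets_pc : ∀ m ∈ tets, pc m = 4 := by decide +kernel

theorem shelling_ball : IsShelling 4 ball facets := by
  refine ⟨?_, ?_, mem_ball_iff, ?_⟩
  · refine List.Nodup.map_on ?_ tets_nodup
    intro a ha b hb h
    exact dec_inj (tets_lt a ha) (tets_lt b hb) h
  · intro T hT
    obtain ⟨t, ht, rfl⟩ := List.mem_map.mp hT
    rw [card_dec ⟨t, tets_lt t ht⟩]
    exact tets_pc t ht
  · intro A T B hAB S hS
    obtain ⟨A', R', hL, rfl, hR'⟩ := List.map_eq_append_iff.mp hAB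
    obtain ⟨t, B', rfl, rfl, rfl⟩ := List.map_eq_cons_iff.mp hR'
    obtain ⟨s, hs, rfl⟩ := List.mem_map.mp hS
    have hlen : A'.length < 18 := by
      have h1 := congrArg List.length hL
      rw [tets_length, List.length_append, List.length_cons] at h1
      omega
    have h2 : tets.take A'.length = A' := by rw [hL]; simp
    have h3 : tets.getD A'.length 0 = t := by rw [hL]; simp
    have h := check_shelling ⟨A'.length, hlen⟩
    simp only [h2, h3] at h
    obtain ⟨s', hs', x, e1, e2, e3⟩ := h s hs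
    refine ⟨dec s', List.mem_map_of_mem hs', x, mem_dec.mpr e1, ?_, ?_⟩
    · rw [← dec_and, e2, dec_erase e1]
    · rw [← dec_erase e1, ← dec_and]
      exact dec_subset e3

theorem check_ridge : ∀ m : Fin 512, pc m.val = 3 →
    (tets.filter (fun t => sub m.val t)).length ≤ 2 := by decide +kernel

theorem ridge_ball : ∀ F : Finset (Fin 9), F.card + 1 = 4 →
    (facets.filter (fun T => F ⊆ T)).length ≤ 2 := by
  intro F hF
  obtain ⟨m, hm, rfl⟩ := dec_surj F
  rw [card_dec ⟨m, hm⟩] at hF
  have h := check_ridge ⟨m, hm⟩ (by simp only at hF ⊢; omega)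
  unfold facets
  rw [List.filter_map, List.length_map]
  refine le_trans (le_of_eq ?_) h
  congr 1
  apply List.filter_congr
  intro t ht
  simp only [Function.comp_apply]
  rw [Bool.eq_iff_iff, decide_eq_true_iff, sub_iff hm]

theorem S_nil : S [] = ∅ := by
  ext F
  simp [S]

theorem check_D : expTo [] faceL seqD = true := by decide +kernel

theorem check_L : ∀ w : Fin 9, expTo [] (linkL faceL w.val) (seqL.getD w.val []) = true := by
  decide +kernel

theorem jexp_ball : JExp 1 ball := by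
  intro F hF hc
  rcases Nat.lt_or_ge F.card 1 with h0 | h0
  · have hF0 : F = ∅ := by
      rw [← Finset.card_eq_zero]; omega
    subst hF0
    have h1 := expTo_sound check_D
    rw [S_nil] at h1
    have h2 : (link ball ∅ : Set (Finset (Fin 9))) = S faceL := by
      ext G
      rw [Finset.mem_coe, mem_link, Finset.inter_empty, Finset.union_empty, mem_ball]
      simp
    rw [h2]
    exact h1
  · obtain ⟨w, rfl⟩ := Finset.card_eq_one.mp (le_antisymm hc h0)
    have h1 := expTo_sound (check_L w)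
    rw [S_nil] at h1
    have h2 : (link ball {w} : Set (Finset (Fin 9))) = S (linkL faceL w.val) := by
      ext G
      rw [Finset.mem_coe, mem_link, mem_S_linkL, ← mem_ball]
      constructor
      · rintro ⟨_, h3, h4⟩
        refine ⟨?_, ?_⟩
        · intro hw
          have : w ∈ G ∩ {w} := Finset.mem_inter.mpr ⟨hw, Finset.mem_singleton_self w⟩
          rw [h3] at this
          exact Finset.notMem_empty _ this
        · rw [Finset.insert_eq, Finset.union_comm]
          exact h4
      · rintro ⟨h3, h4⟩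
        refine ⟨isComplex_ball.2 _ h4 _ (Finset.subset_insert _ _), ?_, ?_⟩
        · rw [Finset.inter_singleton_of_notMem h3]
        · rw [Finset.union_comm, ← Finset.insert_eq]
          exact h4
    rw [h2]
    exact h1

theorem check_pairs : ∀ p ∈ pairL, p.1 < 512 ∧ p.2 ∈ faceL ∧ sub p.1 p.2 = true ∧
    pc (p.2 ^^^ p.1) = 2 ∧ p.2 ^^^ p.1 < 512 := by decide +kernel

theorem check_cover : ∀ m ∈ faceL,
    (pairL.filter (fun p => sub p.1 m && sub m p.2)).length = 1 := by decide +kernel

theorem dec_xor {b t : ℕ} (h : dec b ⊆ dec t) : dec (t ^^^ b) = dec t \ dec b := by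
  ext i
  rw [mem_dec, Nat.testBit_xor, Finset.mem_sdiff, mem_dec, mem_dec]
  have h1 : b.testBit i.val = true → t.testBit i.val = true := by
    intro h2
    exact mem_dec.mp (h (mem_dec.mpr h2))
  rcases h2 : b.testBit i.val with _ | _ <;> rcases h3 : t.testBit i.val with _ | _ <;> simp_all

theorem union_ball : IsUnionOfIntervals 2 ball := by
  refine ⟨(pairL.map (fun p => (dec p.1, dec p.2))).toFinset, ?_, ?_⟩
  · intro p hp
    rw [List.mem_toFinset, List.mem_map] at hp
    obtain ⟨q, hq, rfl⟩ := hp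
    obtain ⟨a1, a2, a3, a4, a5⟩ := check_pairs q hq
    have h1 := (sub_iff a1).mp a3
    refine ⟨h1, (dec_mem_ball (faceL_lt _ a2)).mpr a2, ?_⟩
    simp only
    rw [← dec_xor h1, card_dec ⟨_, a5⟩]
    exact a4
  · intro H hH
    obtain ⟨m, hm, rfl⟩ := dec_surj H
    rw [dec_mem_ball hm] at hH
    obtain ⟨p, hp⟩ := List.length_eq_one_iff.mp (check_cover m hH)
    have hmem : ∀ q, (q ∈ pairL ∧ dec q.1 ⊆ dec m ∧ dec m ⊆ dec q.2) ↔ q = p := by
      intro q
      have h1 : q ∈ pairL.filter (fun p => sub p.1 m && sub m p.2) ↔ q = p := by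
        rw [hp, List.mem_singleton]
      rw [← h1, List.mem_filter, Bool.and_eq_true]
      constructor
      · rintro ⟨h2, h3, h4⟩
        exact ⟨h2, (sub_iff (check_pairs q h2).1).mpr h3, (sub_iff hm).mpr h4⟩
      · rintro ⟨h2, h3, h4⟩
        exact ⟨h2, (sub_iff (check_pairs q h2).1).mp h3, (sub_iff hm).mp h4⟩
    obtain ⟨b1, b2, b3⟩ := (hmem p).mpr rfl
    refine ⟨(dec p.1, dec p.2), ⟨?_, b2, b3⟩, ?_⟩
    · rw [List.mem_toFinset, List.mem_map]
      exact ⟨p, b1, rfl⟩
    · rintro q ⟨hq, hq1, hq2⟩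
      rw [List.mem_toFinset, List.mem_map] at hq
      obtain ⟨q', hq', rfl⟩ := hq
      rw [(hmem q').mp ⟨hq', hq1, hq2⟩]

theorem check_viol : ∀ m ∈ faceL, pc m = 2 → ∃ v : Fin 9, m.testBit v.val = false ∧
    2 ^ v.val ∈ faceL ∧ (∀ x : Fin 9, m.testBit x.val = true → (2 ^ x.val ||| 2 ^ v.val) ∈ faceL) ∧
      (m ||| 2 ^ v.val) ∉ faceL ∧ (m ||| 2 ^ v.val) < 512 := by decide +kernel

theorem dec_two_pow (v : Fin 9) : dec (2 ^ v.val) = {v} := by
  have h := dec_insert 0 v
  rw [Nat.zero_or, dec_zero] at h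
  rw [h]
  rfl

theorem viol_ball : Viol 1 ball := by
  intro F hF hc
  obtain ⟨m, hm, rfl⟩ := dec_surj F
  rw [dec_mem_ball hm] at hF
  rw [card_dec ⟨m, hm⟩] at hc
  obtain ⟨v, h1, h2, h3, h4, h5⟩ := check_viol m hF hc
  refine ⟨v, ?_, ?_, ?_⟩
  · rw [mem_dec, h1]
    simp
  · rw [← dec_two_pow, dec_mem_ball (faceL_lt _ h2)]
    exact h2
  · have h6 : (dec m).filter (fun x => ({x, v} : Finset (Fin 9)) ∈ ball) = dec m := by
      rw [Finset.filter_eq_self]
      intro x hx
      have h7 := h3 x (mem_dec.mp hx)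
      have h8 : ({x, v} : Finset (Fin 9)) = dec (2 ^ x.val ||| 2 ^ v.val) := by
        rw [dec_insert, dec_two_pow, Finset.pair_comm]
      rw [h8, dec_mem_ball (faceL_lt _ h7)]
      exact h7
    rw [h6, ← dec_insert, dec_mem_ball h5]
    exact h4

/-- the iterated cones over the ball -/
theorem exists_ball (i : ℕ) : ∃ (Δ : Finset (Finset (Fin (9 + i))))
    (L : List (Finset (Fin (9 + i)))), IsComplex Δ ∧ IsShelling (4 + i) Δ L ∧
      (∀ F : Finset (Fin (9 + i)), F.card + 1 = 4 + i →
        (L.filter (fun T => F ⊆ T)).length ≤ 2) ∧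
      JExp (1 + i) Δ ∧ IsUnionOfIntervals (2 + i) Δ ∧ Viol (1 + i) Δ := by
  induction i with
  | zero => exact ⟨ball, facets, isComplex_ball, shelling_ball, ridge_ball, jexp_ball, union_ball,
      viol_ball⟩
  | succ i ih =>
    obtain ⟨Δ, L, h1, h2, h3, h4, h5, h6⟩ := ih
    exact ⟨cone Δ, L.map coneTop, isComplex_cone h1, shelling_cone h2,
      ridge_cone h2.2.1 h2.1 h3, jexp_cone h1 h4, union_cone h5, viol_cone h1 h6⟩

end Pool.Agent.Lib.MP_af28a5_co.Ball
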