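import Pool.Agent.Lib.MP_af28a5_co.Viol

/-!
A shellable three-dimensional ball with nine vertices, and checks on coded faces.
-/

set_option autoImplicit false

namespace Pool.Agent.Lib.MP_af28a5_co.Ball

open Finset

/-- the codes of the facets, in the order of the shelling -/
def tets : List ℕ := [15, 30, 39, 43, 77, 105, 58, 92, 86, 198, 197, 210, 402, 166, 418, 209, 420,
  293]

/-- the codes of all faces -/
def faceL : List ℕ := [0, 1, 2, 3, 4, 5, 6, 7, 8, 9, 10, 11, 12, 13, 14, 15, 16, 17, 18, 20, 22,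
  24, 26, 28, 30, 32, 33, 34, 35, 36, 37, 38, 39, 40, 41, 42, 43, 48, 50, 56, 58, 64, 65, 66, 68,
  69, 70, 72, 73, 76, 77, 80, 81, 82, 84, 86, 88, 92, 96, 97, 104, 105, 128, 129, 130, 132, 133,
  134, 144, 145, 146, 160, 162, 164, 166, 192, 193, 194, 196, 197, 198, 208, 209, 210, 256, 257,
  258, 260, 261, 272, 274, 288, 289, 290, 292, 293, 384, 386, 388, 400, 402, 416, 418, 420]

/-- a partition into intervals of length two -/
def pairL : List (ℕ × ℕ) := [(0, 12), (1, 13), (2, 14), (3, 15), (16, 28), (18, 30), (32, 38),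
  (33, 39), (40, 43), (64, 76), (65, 77), (96, 105), (48, 58), (80, 92), (66, 86), (128, 196),
  (130, 198), (129, 197), (144, 210), (256, 400), (258, 402), (160, 166), (288, 418), (17, 209),
  (260, 420), (257, 293)]

/-- expansions for the complex -/
def seqD : List (ℕ × ℕ) := [(0, 0), (128, 0), (256, 7), (8, 0), (64, 3), (16, 3), (2, 0), (4, 1),
  (32, 3), (10, 0), (12, 1), (20, 3), (65, 3), (18, 2), (192, 0), (96, 3), (48, 3), (68, 3), (33,
  6), (5, 1), (66, 2), (80, 1), (34, 4), (130, 6), (132, 6), (260, 7), (17, 6), (258, 7), (257,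
  2), (36, 0), (288, 2), (160, 1), (272, 1), (144, 6), (41, 6), (26, 2), (42, 4), (13, 1), (69,
  3), (35, 3), (133, 6), (146, 6), (289, 2), (84, 1), (134, 6), (400, 1), (145, 6), (88, 2), (38,
  0), (164, 1), (416, 2), (290, 7)]

/-- expansions for the vertex links -/
def seqL : List (List (ℕ × ℕ)) := [[(0, 3), (4, 3), (256, 2), (64, 3), (128, 6), (32, 3), (2, 2),
  (16, 7), (10, 2), (34, 3), (36, 1), (96, 3), (68, 3), (132, 6), (80, 7), (288, 2)], [(0, 2),
  (32, 2), (128, 2), (1, 2), (16, 2), (8, 0), (64, 2), (256, 4), (80, 2), (192, 2), (12, 0), (33,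
  2), (144, 6), (24, 2), (40, 0), (160, 2), (384, 4), (48, 3), (288, 7)], [(0, 1), (32, 1), (8,
  1), (1, 1), (16, 1), (128, 1), (64, 4), (256, 0), (24, 1), (66, 4), (192, 1), (9, 1), (33, 1),
  (160, 1), (72, 4), (65, 3), (129, 6), (288, 0), (384, 5)], [(0, 2), (2, 2), (1, 1), (64, 2),
  (32, 0), (16, 1), (5, 1), (20, 1), (34, 0), (80, 2), (65, 2), (48, 1), (96, 0)], [(0, 7), (2,
  7), (1, 7), (256, 1), (8, 1), (4, 3), (32, 3), (64, 7), (384, 1), (66, 7), (6, 3), (65, 7), (68,
  1), (34, 3), (72, 2)], [(0, 7), (2, 7), (8, 1), (256, 7), (1, 1), (64, 3), (4, 1), (16, 1), (5,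
  1), (132, 1), (258, 7), (260, 7), (257, 2), (9, 1), (65, 3), (24, 1)], [(0, 1), (4, 1), (128,
  1), (1, 2), (16, 2), (8, 2), (32, 0), (9, 2), (24, 2), (18, 2), (144, 1), (132, 1), (129, 2),
  (17, 7), (40, 0)], [(0, 1), (64, 1), (4, 1), (1, 6), (16, 6), (256, 2), (32, 2), (288, 2), (34,
  2), (258, 5), (18, 6), (68, 1), (5, 6), (17, 6), (272, 1)], [(0, 0), (4, 0), (32, 2), (128, 2),
  (2, 5), (16, 7), (160, 2), (130, 5), (33, 2), (18, 7)]]

/-- the face with code `m` -/
def dec (m : ℕ) : Finset (Fin 9) := Finset.univ.filter (fun i => m.testBit i.val = true)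

theorem mem_dec {m : ℕ} {i : Fin 9} : i ∈ dec m ↔ m.testBit i.val = true := by
  simp [dec]

theorem testBit_big {m i : ℕ} (hm : m < 512) (hi : 9 ≤ i) : m.testBit i = false := by
  apply Nat.testBit_lt_two_pow
  calc m < 512 := hm
    _ = 2 ^ 9 := by norm_num
    _ ≤ 2 ^ i := Nat.pow_le_pow_right (by norm_num) hi

theorem dec_inj {a b : ℕ} (ha : a < 512) (hb : b < 512) (h : dec a = dec b) : a = b := by
  apply Nat.eq_of_testBit_eq
  intro i
  by_cases hi : i < 9
  · have h1 : ((⟨i, hi⟩ : Fin 9) ∈ dec a) ↔ ((⟨i, hi⟩ : Fin 9) ∈ dec b) := by rw [h]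
    rw [mem_dec, mem_dec] at h1
    simp only at h1
    rcases h2 : a.testBit i with _ | _ <;> rcases h3 : b.testBit i with _ | _ <;> simp_all
  · rw [testBit_big ha (by omega), testBit_big hb (by omega)]

theorem dec_or (a b : ℕ) : dec (a ||| b) = dec a ∪ dec b := by
  ext i
  simp [mem_dec, Nat.testBit_or]

theorem dec_and (a b : ℕ) : dec (a &&& b) = dec a ∩ dec b := by
  ext i
  simp [mem_dec, Nat.testBit_and]

theorem dec_subset {a b : ℕ} (h : a &&& b = a) : dec a ⊆ dec b := by
  have := dec_and a b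
  rw [h] at this
  rw [this]
  exact Finset.inter_subset_right

theorem subset_dec {a b : ℕ} (ha : a < 512) (h : dec a ⊆ dec b) :
    a &&& b = a := by
  apply dec_inj (lt_of_le_of_lt Nat.and_le_left ha) ha
  rw [dec_and]
  exact Finset.inter_eq_left.mpr h

theorem dec_insert (s : ℕ) (a : Fin 9) : dec (s ||| 2 ^ a.val) = insert a (dec s) := by
  ext i
  rw [mem_dec, Nat.testBit_or, Nat.testBit_two_pow, Finset.mem_insert, mem_dec]
  simp only [Bool.or_eq_true, decide_eq_true_eq]
  constructor
  · rintro (h | h)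
    · exact Or.inr h
    · exact Or.inl (Fin.ext h.symm)
  · rintro (h | h)
    · exact Or.inr (by rw [h])
    · exact Or.inl h

theorem dec_erase {t : ℕ} {x : Fin 9} (hx : t.testBit x.val = true) :
    dec (t ^^^ 2 ^ x.val) = (dec t).erase x := by
  ext i
  rw [mem_dec, Nat.testBit_xor, Nat.testBit_two_pow, Finset.mem_erase, mem_dec]
  by_cases hi : i = x
  · subst hi
    simp [hx]
  · have : ¬ (x.val = i.val) := fun h => hi (Fin.ext h.symm)
    simp [this, hi]

/-- the family of faces coded by a list -/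
def S (l : List ℕ) : Set (Finset (Fin 9)) := {F | ∃ m ∈ l, dec m = F}

/-- one elementary expansion -/
def expStep (E : List ℕ) (p : ℕ × ℕ) : Option (List ℕ) :=
  if p.1 < 512 ∧ p.2 < 9 ∧ p.1.testBit p.2 = false ∧ E.contains p.1 = false ∧
      ((List.range 9).all fun x => !p.1.testBit x ||
        E.contains ((p.1 ||| 2 ^ p.2) ^^^ 2 ^ x)) = true
  then some (p.1 :: (p.1 ||| 2 ^ p.2) :: E) else none

/-- a sequence of elementary expansions -/
def expRun : List ℕ → List (ℕ × ℕ) → Option (List ℕ)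
  | E, [] => some E
  | E, p :: ps => match expStep E p with
    | none => none
    | some E' => expRun E' ps

/-- a sequence of elementary expansions with given start and end -/
def expTo (A B : List ℕ) (ps : List (ℕ × ℕ)) : Bool :=
  A.all (fun m => decide (m < 512)) && match expRun A ps with
    | none => false
    | some E => E.all (fun m => B.contains m) && B.all (fun m => E.contains m)

theorem expStep_sound {E E' : List ℕ} {p : ℕ × ℕ} (h : expStep E p = some E')
    (hE : ∀ m ∈ E, m < 512) : (∀ m ∈ E', m < 512) ∧ ∀ D, Exp D (S E) → Exp D (S E') := by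
  unfold expStep at h
  split_ifs at h with hc
  obtain ⟨h1, h2, h3, h4, h5⟩ := hc
  rw [Option.some.injEq] at h
  subst h
  have hlt : p.1 ||| 2 ^ p.2 < 512 := by
    have h6 : (2 : ℕ) ^ p.2 < 2 ^ 9 := Nat.pow_lt_pow_right (by norm_num) h2
    have h7 : p.1 < 2 ^ 9 := by norm_num; exact h1
    have := Nat.or_lt_two_pow h7 h6
    norm_num at this
    exact this
  refine ⟨?_, ?_⟩
  · intro m hm
    rw [List.mem_cons, List.mem_cons] at hm
    rcases hm with rfl | rfl | hm
    · exact h1
    · exact hlt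
    · exact hE m hm
  · intro D hD
    set a : Fin 9 := ⟨p.2, h2⟩ with ha
    have h6 : dec p.1 ∉ S E := by
      rintro ⟨m, hm, hme⟩
      have := dec_inj (hE m hm) h1 hme
      subst this
      rw [List.contains_eq_mem] at h4
      simp [hm] at h4
    have h7 : a ∉ dec p.1 := by
      rw [mem_dec]
      simp only [ha]
      rw [h3]
      simp
    have h8 := Exp.step (dec p.1) a hD h6 h7 (by
      intro x hx
      rw [mem_dec] at hx
      rw [List.all_eq_true] at h5
      have h9 := h5 x.val (List.mem_range.mpr x.isLt)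
      rw [hx] at h9
      simp only [Bool.not_true, Bool.false_or, List.contains_eq_mem, decide_eq_true_eq] at h9
      refine ⟨_, h9, ?_⟩
      have h10 : (p.1 ||| 2 ^ p.2).testBit x.val = true := by
        rw [Nat.testBit_or, hx]; rfl
      rw [dec_erase h10]
      congr 1
      exact dec_insert p.1 a)
    have h9 : (insert (dec p.1) (insert (insert a (dec p.1)) (S E)) : Set (Finset (Fin 9))) =
        S (p.1 :: (p.1 ||| 2 ^ p.2) :: E) := by
      ext F
      simp only [S, Set.mem_insert_iff, Set.mem_ofPred_eq, List.mem_cons]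
      have h10 : dec (p.1 ||| 2 ^ p.2) = insert a (dec p.1) := dec_insert p.1 a
      constructor
      · rintro (rfl | rfl | ⟨m, hm, rfl⟩)
        · exact ⟨_, Or.inl rfl, rfl⟩
        · exact ⟨_, Or.inr (Or.inl rfl), h10⟩
        · exact ⟨m, Or.inr (Or.inr hm), rfl⟩
      · rintro ⟨m, (rfl | rfl | hm), rfl⟩
        · exact Or.inl rfl
        · exact Or.inr (Or.inl h10)
        · exact Or.inr (Or.inr ⟨m, hm, rfl⟩)
    rw [← h9]
    exact h8

theorem expRun_sound : ∀ (ps : List (ℕ × ℕ)) {E E' : List ℕ}, expRun E ps = some E' →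
    (∀ m ∈ E, m < 512) → Exp (S E) (S E')
  | [], E, E', h, _ => by
    unfold expRun at h
    rw [Option.some.injEq] at h
    subst h
    exact Exp.refl _
  | p :: ps, E, E', h, hE => by
    unfold expRun at h
    rcases hs : expStep E p with _ | E1
    · rw [hs] at h
      simp at h
    · rw [hs] at h
      simp only at h
      obtain ⟨h1, h2⟩ := expStep_sound hs hE
      exact Exp.trans (h2 _ (Exp.refl _)) (expRun_sound ps h h1)

theorem expTo_sound {A B : List ℕ} {ps : List (ℕ × ℕ)} (h : expTo A B ps = true) :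
    Exp (S A) (S B) := by
  unfold expTo at h
  rw [Bool.and_eq_true, List.all_eq_true] at h
  obtain ⟨h1, h2⟩ := h
  have h1' : ∀ m ∈ A, m < 512 := fun m hm => by simpa using h1 m hm
  rcases hr : expRun A ps with _ | E
  · rw [hr] at h2
    simp at h2
  · rw [hr] at h2
    simp only [Bool.and_eq_true, List.all_eq_true, List.contains_eq_mem, decide_eq_true_eq] at h2
    have h3 := expRun_sound ps hr h1'
    have h4 : S E = S B := by
      ext F
      constructor
      · rintro ⟨m, hm, rfl⟩
        exact ⟨m, h2.1 m hm, rfl⟩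
      · rintro ⟨m, hm, rfl⟩
        exact ⟨m, h2.2 m hm, rfl⟩
    rw [← h4]
    exact h3

/-- codes of the link of the vertex `w` -/
def linkL (l : List ℕ) (w : ℕ) : List ℕ :=
  (l.filter (fun m => m.testBit w)).map (fun m => m ^^^ 2 ^ w)

theorem mem_S_linkL {l : List ℕ} {w : Fin 9} {F : Finset (Fin 9)} :
    F ∈ S (linkL l w.val) ↔ w ∉ F ∧ insert w F ∈ S l := by
  unfold linkL S
  simp only [Set.mem_ofPred_eq, List.mem_map, List.mem_filter]
  constructor
  · rintro ⟨m, ⟨m', ⟨h1, h2⟩, rfl⟩, rfl⟩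
    rw [dec_erase h2]
    refine ⟨Finset.notMem_erase _ _, m', h1, ?_⟩
    rw [Finset.insert_erase]
    rw [mem_dec]
    exact h2
  · rintro ⟨h1, m, h2, h3⟩
    have h4 : m.testBit w.val = true := by
      rw [← mem_dec, h3]
      exact Finset.mem_insert_self _ _
    refine ⟨m ^^^ 2 ^ w.val, ⟨m, ⟨h2, h4⟩, rfl⟩, ?_⟩
    rw [dec_erase h4, h3, Finset.erase_insert h1]


/-- number of elements of a coded face -/
def pc (m : ℕ) : ℕ := ((List.range 9).filter (fun i => m.testBit i)).length

theorem card_dec : ∀ m : Fin 512, (dec m.val).card = pc m.val := by decide +kernel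

theorem dec_zero : dec 0 = ∅ := by
  ext i
  simp [mem_dec]

/-- every set of vertices has a code -/
theorem dec_surj (F : Finset (Fin 9)) : ∃ m : ℕ, m < 512 ∧ dec m = F := by
  have h1 : Function.Injective (fun m : Fin 512 => dec m.val) := by
    intro a b h
    exact Fin.ext (dec_inj a.isLt b.isLt h)
  have h2 : Function.Bijective (fun m : Fin 512 => dec m.val) := by
    rw [Fintype.bijective_iff_injective_and_card]
    refine ⟨h1, ?_⟩
    simp
  obtain ⟨m, hm⟩ := h2.2 F
  exact ⟨m.val, m.isLt, hm⟩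

/-- containment of coded faces -/
def sub (a b : ℕ) : Bool := (a &&& b) == a

theorem sub_iff {a b : ℕ} (ha : a < 512) : sub a b = true ↔ dec a ⊆ dec b := by
  unfold sub
  rw [beq_iff_eq]
  exact ⟨dec_subset, subset_dec ha⟩

end Pool.Agent.Lib.MP_af28a5_co.Ball
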