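import Pool.Agent.Lib.MP_af28a5_co.Glue
import Pool.Agent.Lib.MP_af28a5_co.Data

/-!
Checkers on coded faces and their soundness.
-/

namespace Pool.Agent.Lib.MP_af28a5_co

open Finset

/-- the face with code `m` -/
def dec (m : ℕ) : Finset (Fin 13) := Finset.univ.filter (fun i => m.testBit i.val = true)

theorem mem_dec {m : ℕ} {i : Fin 13} : i ∈ dec m ↔ m.testBit i.val = true := by
  simp [dec]

theorem testBit_big {m i : ℕ} (hm : m < 8192) (hi : 13 ≤ i) : m.testBit i = false := by
  apply Nat.testBit_lt_two_pow
  calc m < 8192 := hm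
    _ = 2 ^ 13 := by norm_num
    _ ≤ 2 ^ i := Nat.pow_le_pow_right (by norm_num) hi

theorem dec_inj {a b : ℕ} (ha : a < 8192) (hb : b < 8192) (h : dec a = dec b) : a = b := by
  apply Nat.eq_of_testBit_eq
  intro i
  by_cases hi : i < 13
  · have h1 : ((⟨i, hi⟩ : Fin 13) ∈ dec a) ↔ ((⟨i, hi⟩ : Fin 13) ∈ dec b) := by rw [h]
    rw [mem_dec, mem_dec] at h1
    simp only at h1
    rcases h2 : a.testBit i with _ | _ <;> rcases h3 : b.testBit i with _ | _ <;> simp_all
  · rw [testBit_big ha (by omega), testBit_big hb (by omega)]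

theorem dec_or (a b : ℕ) : dec (a ||| b) = dec a ∪ dec b := by
  ext i
  simp [mem_dec, Nat.testBit_or]

theorem dec_and (a b : ℕ) : dec (a &&& b) = dec a ∩ dec b := by
  ext i
  simp [mem_dec, Nat.testBit_and]

theorem dec_subset {a b : ℕ} (h : a &&& b = a) : dec a ⊆ dec b := by
  have := dec_and a b
  rw [h] at this
  rw [this]
  exact Finset.inter_subset_right

theorem subset_dec {a b : ℕ} (ha : a < 8192) (h : dec a ⊆ dec b) :
    a &&& b = a := by
  apply dec_inj (lt_of_le_of_lt Nat.and_le_left ha) ha
  rw [dec_and]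
  exact Finset.inter_eq_left.mpr h

theorem dec_insert (s : ℕ) (a : Fin 13) : dec (s ||| 2 ^ a.val) = insert a (dec s) := by
  ext i
  rw [mem_dec, Nat.testBit_or, Nat.testBit_two_pow, Finset.mem_insert, mem_dec]
  simp only [Bool.or_eq_true, decide_eq_true_eq]
  constructor
  · rintro (h | h)
    · exact Or.inr h
    · exact Or.inl (Fin.ext h.symm)
  · rintro (h | h)
    · exact Or.inr (by rw [h])
    · exact Or.inl h

theorem dec_erase {t : ℕ} {x : Fin 13} (hx : t.testBit x.val = true) :
    dec (t ^^^ 2 ^ x.val) = (dec t).erase x := by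
  ext i
  rw [mem_dec, Nat.testBit_xor, Nat.testBit_two_pow, Finset.mem_erase, mem_dec]
  by_cases hi : i = x
  · subst hi
    simp [hx]
  · have : ¬ (x.val = i.val) := fun h => hi (Fin.ext h.symm)
    simp [this, hi]

/-- the family of faces coded by a list -/
def S (l : List ℕ) : Set (Finset (Fin 13)) := {F | ∃ m ∈ l, dec m = F}

/-- one elementary expansion -/
def expStep (E : List ℕ) (p : ℕ × ℕ) : Option (List ℕ) :=
  if p.1 < 8192 ∧ p.2 < 13 ∧ p.1.testBit p.2 = false ∧ E.contains p.1 = false ∧
      ((List.range 13).all fun x => !p.1.testBit x ||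
        E.contains ((p.1 ||| 2 ^ p.2) ^^^ 2 ^ x)) = true
  then some (p.1 :: (p.1 ||| 2 ^ p.2) :: E) else none

/-- a sequence of elementary expansions -/
def expRun : List ℕ → List (ℕ × ℕ) → Option (List ℕ)
  | E, [] => some E
  | E, p :: ps => match expStep E p with
    | none => none
    | some E' => expRun E' ps

/-- a sequence of elementary expansions with given start and end -/
def expTo (A B : List ℕ) (ps : List (ℕ × ℕ)) : Bool :=
  A.all (fun m => decide (m < 8192)) && match expRun A ps with
    | none => false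
    | some E => E.all (fun m => B.contains m) && B.all (fun m => E.contains m)

theorem expStep_sound {E E' : List ℕ} {p : ℕ × ℕ} (h : expStep E p = some E')
    (hE : ∀ m ∈ E, m < 8192) : (∀ m ∈ E', m < 8192) ∧ ∀ D, Exp D (S E) → Exp D (S E') := by
  unfold expStep at h
  split_ifs at h with hc
  obtain ⟨h1, h2, h3, h4, h5⟩ := hc
  rw [Option.some.injEq] at h
  subst h
  have hlt : p.1 ||| 2 ^ p.2 < 8192 := by
    have h6 : (2 : ℕ) ^ p.2 < 2 ^ 13 := Nat.pow_lt_pow_right (by norm_num) h2
    have h7 : p.1 < 2 ^ 13 := by norm_num; exact h1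
    have := Nat.or_lt_two_pow h7 h6
    norm_num at this
    exact this
  refine ⟨?_, ?_⟩
  · intro m hm
    rw [List.mem_cons, List.mem_cons] at hm
    rcases hm with rfl | rfl | hm
    · exact h1
    · exact hlt
    · exact hE m hm
  · intro D hD
    set a : Fin 13 := ⟨p.2, h2⟩ with ha
    have h6 : dec p.1 ∉ S E := by
      rintro ⟨m, hm, hme⟩
      have := dec_inj (hE m hm) h1 hme
      subst this
      rw [List.contains_eq_mem] at h4
      simp [hm] at h4
    have h7 : a ∉ dec p.1 := by
      rw [mem_dec]
      simp only [ha]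
      rw [h3]
      simp
    have h8 := Exp.step (dec p.1) a hD h6 h7 (by
      intro x hx
      rw [mem_dec] at hx
      rw [List.all_eq_true] at h5
      have h9 := h5 x.val (List.mem_range.mpr x.isLt)
      rw [hx] at h9
      simp only [Bool.not_true, Bool.false_or, List.contains_eq_mem, decide_eq_true_eq] at h9
      refine ⟨_, h9, ?_⟩
      have h10 : (p.1 ||| 2 ^ p.2).testBit x.val = true := by
        rw [Nat.testBit_or, hx]; rfl
      rw [dec_erase h10]
      congr 1
      exact dec_insert p.1 a)
    have h9 : (insert (dec p.1) (insert (insert a (dec p.1)) (S E)) : Set (Finset (Fin 13))) =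
        S (p.1 :: (p.1 ||| 2 ^ p.2) :: E) := by
      ext F
      simp only [S, Set.mem_insert_iff, Set.mem_ofPred_eq, List.mem_cons]
      have h10 : dec (p.1 ||| 2 ^ p.2) = insert a (dec p.1) := dec_insert p.1 a
      constructor
      · rintro (rfl | rfl | ⟨m, hm, rfl⟩)
        · exact ⟨_, Or.inl rfl, rfl⟩
        · exact ⟨_, Or.inr (Or.inl rfl), h10⟩
        · exact ⟨m, Or.inr (Or.inr hm), rfl⟩
      · rintro ⟨m, (rfl | rfl | hm), rfl⟩
        · exact Or.inl rfl
        · exact Or.inr (Or.inl h10)
        · exact Or.inr (Or.inr ⟨m, hm, rfl⟩)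
    rw [← h9]
    exact h8

theorem expRun_sound : ∀ (ps : List (ℕ × ℕ)) {E E' : List ℕ}, expRun E ps = some E' →
    (∀ m ∈ E, m < 8192) → Exp (S E) (S E')
  | [], E, E', h, _ => by
    unfold expRun at h
    rw [Option.some.injEq] at h
    subst h
    exact Exp.refl _
  | p :: ps, E, E', h, hE => by
    unfold expRun at h
    rcases hs : expStep E p with _ | E1
    · rw [hs] at h
      simp at h
    · rw [hs] at h
      simp only at h
      obtain ⟨h1, h2⟩ := expStep_sound hs hE
      exact Exp.trans (h2 _ (Exp.refl _)) (expRun_sound ps h h1)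

theorem expTo_sound {A B : List ℕ} {ps : List (ℕ × ℕ)} (h : expTo A B ps = true) :
    Exp (S A) (S B) := by
  unfold expTo at h
  rw [Bool.and_eq_true, List.all_eq_true] at h
  obtain ⟨h1, h2⟩ := h
  have h1' : ∀ m ∈ A, m < 8192 := fun m hm => by simpa using h1 m hm
  rcases hr : expRun A ps with _ | E
  · rw [hr] at h2
    simp at h2
  · rw [hr] at h2
    simp only [Bool.and_eq_true, List.all_eq_true, List.contains_eq_mem, decide_eq_true_eq] at h2
    have h3 := expRun_sound ps hr h1'
    have h4 : S E = S B := by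
      ext F
      constructor
      · rintro ⟨m, hm, rfl⟩
        exact ⟨m, h2.1 m hm, rfl⟩
      · rintro ⟨m, hm, rfl⟩
        exact ⟨m, h2.2 m hm, rfl⟩
    rw [← h4]
    exact h3

/-- codes of the link of the vertex `w` -/
def linkL (l : List ℕ) (w : ℕ) : List ℕ :=
  (l.filter (fun m => m.testBit w)).map (fun m => m ^^^ 2 ^ w)

theorem mem_S_linkL {l : List ℕ} {w : Fin 13} {F : Finset (Fin 13)} :
    F ∈ S (linkL l w.val) ↔ w ∉ F ∧ insert w F ∈ S l := by
  unfold linkL S
  simp only [Set.mem_ofPred_eq, List.mem_map, List.mem_filter]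
  constructor
  · rintro ⟨m, ⟨m', ⟨h1, h2⟩, rfl⟩, rfl⟩
    rw [dec_erase h2]
    refine ⟨Finset.notMem_erase _ _, m', h1, ?_⟩
    rw [Finset.insert_erase]
    rw [mem_dec]
    exact h2
  · rintro ⟨h1, m, h2, h3⟩
    have h4 : m.testBit w.val = true := by
      rw [← mem_dec, h3]
      exact Finset.mem_insert_self _ _
    refine ⟨m ^^^ 2 ^ w.val, ⟨m, ⟨h2, h4⟩, rfl⟩, ?_⟩
    rw [dec_erase h4, h3, Finset.erase_insert h1]

/-! ### The refutation checker -/

/-- the intervals containing the face `f` -/
def cands (f : ℕ) : List (ℕ × ℕ) :=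
  iList.filter (fun p => (p.1 &&& f == p.1) && (f &&& p.2 == f))

/-- two different intervals with a common face -/
def conflict (p q : ℕ × ℕ) : Bool :=
  (p.1 != q.1 || p.2 != q.2) && ((p.1 ||| q.1) &&& (p.2 &&& q.2) == (p.1 ||| q.1))

/-- search for a contradiction, branching on the faces of the given list -/
def refute : ℕ → List ℕ → List (ℕ × ℕ) → Option (List ℕ)
  | 0, _, _ => none
  | _ + 1, [], _ => none
  | n + 1, f :: rest, T =>
    if pList.contains f then
      (cands f).foldl (fun acc p => match acc with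
        | none => none
        | some r => if T.any (conflict p) then some r else refute n r (p :: T)) (some rest)
    else none

/-- `g` assigns the interval `p` to all faces in `p` -/
def Has (g : Finset (Fin 13) → Finset (Fin 13) × Finset (Fin 13)) (p : ℕ × ℕ) : Prop :=
  p.1 < 8192 ∧ p.2 < 8192 ∧
    ∀ H, dec p.1 ⊆ H → H ⊆ dec p.2 → g H = (dec p.1, dec p.2)

theorem conflict_sound {g : Finset (Fin 13) → Finset (Fin 13) × Finset (Fin 13)} {p q : ℕ × ℕ}
    (hp : Has g p) (hq : Has g q) (h : conflict p q = true) : False := by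
  unfold conflict at h
  rw [Bool.and_eq_true, Bool.or_eq_true, bne_iff_ne, bne_iff_ne, beq_iff_eq] at h
  obtain ⟨h1, h2⟩ := h
  have h3 := dec_subset h2
  rw [dec_or, dec_and] at h3
  have h4 := hp.2.2 (dec p.1 ∪ dec q.1) Finset.subset_union_left
    (h3.trans Finset.inter_subset_left)
  have h5 := hq.2.2 (dec p.1 ∪ dec q.1) Finset.subset_union_right
    (h3.trans Finset.inter_subset_right)
  rw [h4, Prod.mk.injEq] at h5
  rcases h1 with h1 | h1
  · exact h1 (dec_inj hp.1 hq.1 h5.1)
  · exact h1 (dec_inj hp.2.1 hq.2.1 h5.2)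

theorem refute_sound {g : Finset (Fin 13) → Finset (Fin 13) × Finset (Fin 13)}
    (hg : ∀ f ∈ pList, ∃ p ∈ cands f, Has g p) :
    ∀ (n : ℕ) (l : List ℕ) (T : List (ℕ × ℕ)) (r : List ℕ), refute n l T = some r →
      (∀ p ∈ T, Has g p) → False
  | 0, l, T, r, h, _ => by simp [refute] at h
  | n + 1, [], T, r, h, _ => by simp [refute] at h
  | n + 1, f :: rest, T, r, h, hT => by
    unfold refute at h
    split_ifs at h with hf
    rw [List.contains_eq_mem, decide_eq_true_eq] at hf
    obtain ⟨p, hp, hpg⟩ := hg f hf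
    -- the fold
    have key : ∀ (L : List (ℕ × ℕ)) (acc : Option (List ℕ)) (r : List ℕ),
        L.foldl (fun acc p => match acc with
          | none => none
          | some r => if T.any (conflict p) then some r else refute n r (p :: T)) acc = some r →
        (∃ a, acc = some a) ∧ ∀ p ∈ L, T.any (conflict p) = true ∨
          ∃ l r', refute n l (p :: T) = some r' := by
      intro L
      induction L with
      | nil =>
        intro acc r h
        exact ⟨⟨r, by simpa using h⟩, fun p hp => absurd hp List.not_mem_nil⟩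
      | cons q L ih =>
        intro acc r h
        rw [List.foldl_cons] at h
        obtain ⟨⟨a, ha⟩, h2⟩ := ih _ _ h
        rcases acc with _ | b
        · simp at ha
        · simp only at ha
          refine ⟨⟨b, rfl⟩, ?_⟩
          intro p hp
          rw [List.mem_cons] at hp
          rcases hp with rfl | hp
          · split_ifs at ha with hc
            · exact Or.inl hc
            · exact Or.inr ⟨b, a, ha⟩
          · exact h2 p hp
    obtain ⟨_, h2⟩ := key _ _ _ h
    rcases h2 p hp with h3 | ⟨l', r', h3⟩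
    · rw [List.any_eq_true] at h3
      obtain ⟨q, hq, hc⟩ := h3
      exact conflict_sound hpg (hT q hq) hc
    · refine refute_sound hg n l' (p :: T) r' h3 ?_
      intro q hq
      rw [List.mem_cons] at hq
      rcases hq with rfl | hq
      · exact hpg
      · exact hT q hq

/-! ### Evaluations -/

theorem check_A : expTo [] aList seqA = true := by decide +kernel
theorem check_K : expTo aList kList seqK = true := by decide +kernel
theorem check_LA : ∀ w : Fin 10, expTo [] (linkL aList w.val) (seqLA.getD w.val []) = true := by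
  decide +kernel
theorem check_LK : ∀ w : Fin 10, expTo (linkL aList w.val) (linkL kList w.val)
    (seqLK.getD w.val []) = true := by
  decide +kernel
theorem check_N : ∀ w : Fin 3, expTo [] (linkL kList (w.val + 10)) (seqN.getD w.val []) = true := by
  decide +kernel
theorem check_refute : (refute 50 rList []).isSome = true := by decide +kernel

end Pool.Agent.Lib.MP_af28a5_co
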