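import Pool.Agent.Lib.MP_af28a5_co.Defs

/-!
Further definitions: clique complexes, perfect elimination orderings, partitions with
subcomplex bottoms.
-/

set_option autoImplicit false

namespace Pool.Agent.Lib.MP_af28a5_co

/-- The clique complex of a graph: all sets of pairwise adjacent vertices. -/
noncomputable def cliqueComplex {n : ℕ} (G : SimpleGraph (Fin n)) : Finset (Finset (Fin n)) := by
  classical exact Finset.univ.filter (fun F => G.IsClique (F : Set (Fin n)))

/-- The numbering of the vertices of `G` is a perfect elimination ordering: the smaller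
neighbours of every vertex are pairwise adjacent. -/
def IsPerfectElimination {n : ℕ} (G : SimpleGraph (Fin n)) : Prop :=
  ∀ v x y : Fin n, x < v → y < v → x ≠ y → G.Adj v x → G.Adj v y → G.Adj x y

/-- `Δ` is a disjoint union of intervals `[F, F']` of length `r` of its face poset whose bottom
faces `F` form a subcomplex (are closed under taking subsets). -/
def IsUnionWithComplexBottoms (r : ℕ) {n : ℕ} (Δ : Finset (Finset (Fin n))) : Prop :=
  ∃ P : Finset (Finset (Fin n) × Finset (Fin n)),
    (∀ p ∈ P, p.1 ⊆ p.2 ∧ p.2 ∈ Δ ∧ (p.2 \ p.1).card = r) ∧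
    (∀ H ∈ Δ, ∃! p, p ∈ P ∧ p.1 ⊆ H ∧ H ⊆ p.2) ∧
    ∀ p ∈ P, ∀ G, G ⊆ p.1 → ∃ q ∈ P, q.1 = G

end Pool.Agent.Lib.MP_af28a5_co
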