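import Pool.Agent.Lib.MP_af28a5_co.Dim
import Pool.Agent.Lib.MP_af28a5_co.Defs2

/-!
Clique complexes of chordal graphs.
-/

set_option autoImplicit false

namespace Pool.Agent.Lib.MP_af28a5_co

open Finset

section

variable {k : Type*} [Field k] {n : ℕ}

theorem mem_cliqueComplex {G : SimpleGraph (Fin n)} {F : Finset (Fin n)} :
    F ∈ cliqueComplex G ↔ ∀ x ∈ F, ∀ y ∈ F, x ≠ y → G.Adj x y := by
  classical
  simp only [cliqueComplex, Finset.mem_filter, Finset.mem_univ, true_and,
    SimpleGraph.isClique_iff, Set.Pairwise, Finset.mem_coe]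

theorem isComplex_cliqueComplex (G : SimpleGraph (Fin n)) : IsComplex (cliqueComplex G) := by
  refine ⟨mem_cliqueComplex.mpr (by simp), fun F hF H hH => ?_⟩
  rw [mem_cliqueComplex] at hF ⊢
  exact fun x hx y hy => hF x (hH hx) y (hH hy)

theorem insert_mem_clique {G : SimpleGraph (Fin n)} {F : Finset (Fin n)} {v : Fin n}
    (hF : F ∈ cliqueComplex G) (hv : ∀ x ∈ F, G.Adj v x) : insert v F ∈ cliqueComplex G := by
  rw [mem_cliqueComplex] at hF ⊢
  intro x hx y hy hxy
  rw [Finset.mem_insert] at hx hy
  rcases hx with rfl | hx <;> rcases hy with rfl | hy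
  · exact absurd rfl hxy
  · exact hv y hy
  · exact (hv x hx).symm
  · exact hF x hx y hy hxy

/-- connectivity of the common neighbourhood of a face among the first `m` vertices -/
theorem nbhd_connected {G : SimpleGraph (Fin n)} (hG : IsPerfectElimination G)
    {F : Finset (Fin n)} (hF : F ∈ cliqueComplex G) (hA : Acyclic k (link (cliqueComplex G) F))
    (d : ℕ) : ∀ m : ℕ, m + d = n →
    ∀ s : Fin n → Prop,
      (∀ x y : Fin n, x ∉ F → (∀ z ∈ F, G.Adj x z) → y ∉ F → (∀ z ∈ F, G.Adj y z) →
        x.val < m → y.val < m → G.Adj x y → s x → s y) →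
      ∀ x y : Fin n, x ∉ F → (∀ z ∈ F, G.Adj x z) → y ∉ F → (∀ z ∈ F, G.Adj y z) →
        x.val < m → y.val < m → s x → s y := by
  have hC := isComplex_cliqueComplex G
  induction d with
  | zero =>
    intro m hm s hs x y hx hx' hy hy' _ _ hsx
    have hmn : m = n := hm
    subst hmn
    refine vertex_connected hA s ?_ x y ((singleton_mem_link hC).2 ⟨hx, insert_mem_clique hF hx'⟩)
      ((singleton_mem_link hC).2 ⟨hy, insert_mem_clique hF hy'⟩) hsx
    intro v w hvw hL
    obtain ⟨h1, h2, h3⟩ := pair_mem_link hL
    rw [mem_cliqueComplex] at h3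
    have mv : v ∈ insert v (insert w F) := Finset.mem_insert_self _ _
    have mw : w ∈ insert v (insert w F) := Finset.mem_insert_of_mem (Finset.mem_insert_self _ _)
    have mz : ∀ z ∈ F, z ∈ insert v (insert w F) := fun z hz =>
      Finset.mem_insert_of_mem (Finset.mem_insert_of_mem hz)
    exact hs v w h1 (fun z hz => h3 v mv z (mz z hz) (fun e => h1 (e ▸ hz))) h2
      (fun z hz => h3 w mw z (mz z hz) (fun e => h2 (e ▸ hz))) v.isLt w.isLt
      (h3 v mv w mw hvw)
  | succ d ih =>
    intro m hm s hs x y hx hx' hy hy' hxm hym hsx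
    have key := ih (m + 1) (by omega) (fun z => if z.val = m then
      ∃ u : Fin n, u ∉ F ∧ (∀ w ∈ F, G.Adj u w) ∧ u.val < m ∧ G.Adj z u ∧ s u else s z) ?_ x y
      hx hx' hy hy' (by omega) (by omega) (by
        rw [if_neg (by omega)]
        exact hsx)
    · rwa [if_neg (by omega)] at key
    · intro a b ha ha' hb hb' ham hbm hab hsa
      by_cases h1 : a.val = m
      · by_cases h2 : b.val = m
        · exact absurd (Fin.ext (h1.trans h2.symm)) hab.ne
        · rw [if_pos h1] at hsa
          rw [if_neg h2]
          obtain ⟨u, hu, hu', hum, hau, hsu⟩ := hsa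
          by_cases hub : u = b
          · exact hub ▸ hsu
          · have hadj : G.Adj u b := hG a u b (Fin.lt_def.mpr (by omega))
              (Fin.lt_def.mpr (by omega)) hub hau hab
            exact hs u b hu hu' hb hb' hum (by omega) hadj hsu
      · by_cases h2 : b.val = m
        · rw [if_neg h1] at hsa
          rw [if_pos h2]
          exact ⟨a, ha, ha', by omega, hab.symm, hsa⟩
        · rw [if_neg h1] at hsa
          rw [if_neg h2]
          exact hs a b ha ha' hb hb' (by omega) (by omega) hab hsa

/-- the smaller neighbours -/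
noncomputable def low (G : SimpleGraph (Fin n)) (v : Fin n) : Finset (Fin n) := by
  classical exact Finset.univ.filter (fun w => w < v ∧ G.Adj v w)

theorem mem_low {G : SimpleGraph (Fin n)} {v w : Fin n} :
    w ∈ low G v ↔ w < v ∧ G.Adj v w := by
  classical
  simp [low]

theorem low_mem {G : SimpleGraph (Fin n)} (hG : IsPerfectElimination G) (v : Fin n) :
    low G v ∈ cliqueComplex G := by
  rw [mem_cliqueComplex]
  intro x hx y hy hxy
  rw [mem_low] at hx hy
  exact hG v x y hx.1 hy.1 hxy hx.2 hy.2

theorem card_low_ge {G : SimpleGraph (Fin n)} (hG : IsPerfectElimination G) {j : ℕ}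
    (hJ : IsJAcyclic k j (cliqueComplex G)) :
    ∀ m : ℕ, ∀ v : Fin n, v.val = m → min m (j + 1) ≤ (low G v).card := by
  intro m
  induction m using Nat.strong_induction_on with
  | _ m ih =>
    intro v hv
    by_contra hcon
    rw [not_le, lt_min_iff] at hcon
    obtain ⟨hc1, hc2⟩ := hcon
    set F := low G v with hF
    have hFΔ : F ∈ cliqueComplex G := low_mem hG v
    -- no further common neighbour below `v`
    have claim : ∀ u : Fin n, u < v → u ∉ F → ¬ ∀ x ∈ F, G.Adj u x := by
      intro u huv huF huadj
      have hlt : u.val < v.val := Fin.lt_def.mp huv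
      have h := nbhd_connected hG hFΔ (hJ F hFΔ (by omega)) (n - (v.val + 1)) (v.val + 1)
        (by have := v.isLt; omega) (fun z => z = v)
        (by
          intro x y _ _ hy _ _ hym hxy hx
          subst hx
          exfalso
          apply hy
          rw [hF, mem_low]
          refine ⟨lt_of_le_of_ne (Fin.le_def.mpr (by omega)) (fun e => hxy.ne e.symm), hxy⟩)
        v u (fun h => by rw [hF, mem_low] at h; exact lt_irrefl _ h.1)
        (fun z hz => by rw [hF, mem_low] at hz; exact hz.2) huF huadj (by omega) (by omega) rfl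
      exact huv.ne h
    rcases Finset.eq_empty_or_nonempty F with hE | hE
    · -- the empty case
      have hpos : 0 < m := by omega
      have := claim ⟨0, by omega⟩ (Fin.lt_def.mpr (by simp; omega)) (by rw [hE]; simp)
      rw [hE] at this
      exact this (by simp)
    · set w := F.max' hE with hw
      have hwF : w ∈ F := Finset.max'_mem F hE
      have hwv : w < v := by rw [hF, mem_low] at hwF; exact hwF.1
      have hwv' : w.val < v.val := Fin.lt_def.mp hwv
      -- all smaller neighbours of `w` are in `F`
      have hsub : low G w ⊆ F := by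
        intro u hu
        by_contra huF
        rw [mem_low] at hu
        apply claim u (hu.1.trans hwv) huF
        intro x hx
        by_cases hxw : x = w
        · rw [hxw]; exact hu.2.symm
        · have hxlt : x < w := lt_of_le_of_ne (Finset.le_max' F x hx) hxw
          rw [mem_cliqueComplex] at hFΔ
          exact hG w u x hu.1 hxlt (fun e => huF (e ▸ hx)) hu.2 (hFΔ w hwF x hx (Ne.symm hxw))
      have hwlow : w ∉ low G w := fun h => by rw [mem_low] at h; exact lt_irrefl _ h.1
      have hcard : (low G w).card + 1 ≤ F.card := by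
        rw [← Finset.card_insert_of_notMem hwlow]
        exact Finset.card_le_card (Finset.insert_subset hwF hsub)
      have h1 := ih w.val (by omega) w rfl
      have hwj : w.val ≤ j := by
        by_contra hc
        have : min w.val (j + 1) = j + 1 := min_eq_right (by omega)
        omega
      have h2 : min w.val (j + 1) = w.val := min_eq_left (by omega)
      -- the next vertex
      have hu : w.val + 1 < n := by have := v.isLt; omega
      have hulow := ih (w.val + 1) (by omega) ⟨w.val + 1, hu⟩ rfl
      have h3 : min (w.val + 1) (j + 1) = w.val + 1 := min_eq_left (by omega)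
      rw [h3] at hulow
      set u : Fin n := ⟨w.val + 1, hu⟩ with hudef
      have hall : low G u = Finset.univ.filter (fun x => x < u) := by
        apply Finset.eq_of_subset_of_card_le
        · intro x hx
          rw [mem_low] at hx
          exact Finset.mem_filter.mpr ⟨Finset.mem_univ _, hx.1⟩
        · have : (Finset.univ.filter (fun x : Fin n => x < u)).card = w.val + 1 := by
            have e : Finset.univ.filter (fun x : Fin n => x < u) = Finset.Iio u := by
              ext x; simp
            rw [e, Fin.card_Iio]
          rw [this]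
          exact hulow
      apply claim u (Fin.lt_def.mpr (by simp only [hudef]; omega))
      · intro h
        have := Finset.le_max' F u h
        rw [← hw, Fin.le_def] at this
        simp only [hudef] at this
        omega
      · intro x hx
        have hxw : x ≤ w := Finset.le_max' F x hx
        have hxlow : x ∈ low G u := by
          rw [hall, Finset.mem_filter]
          refine ⟨Finset.mem_univ _, Fin.lt_def.mpr ?_⟩
          have := Fin.le_def.mp hxw
          simp only [hudef]
          omega
        rw [mem_low] at hxlow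
        exact hxlow.2

theorem low_eq_of_le {G : SimpleGraph (Fin n)} {j : ℕ}
    (hlow : ∀ v : Fin n, min v.val (j + 1) ≤ (low G v).card) {x y : Fin n} (hxy : x < y)
    (hy : y.val ≤ j + 1) : G.Adj y x := by
  have h1 := hlow y
  rw [min_eq_left hy] at h1
  have hall : low G y = Finset.Iio y := by
    apply Finset.eq_of_subset_of_card_le
    · intro z hz
      rw [mem_low] at hz
      exact Finset.mem_Iio.mpr hz.1
    · rw [Fin.card_Iio]
      exact h1
  have hx : x ∈ low G y := by rw [hall]; exact Finset.mem_Iio.mpr hxy
  rw [mem_low] at hx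
  exact hx.2

theorem chordal_aux {G : SimpleGraph (Fin n)} (hG : IsPerfectElimination G) {j : ℕ}
    (hlow : ∀ v : Fin n, min v.val (j + 1) ≤ (low G v).card) (d : ℕ) : j + 1 + d ≤ n →
    ∃ P : Finset (Finset (Fin n) × Finset (Fin n)),
      (∀ p ∈ P, p.1 ⊆ p.2 ∧ p.2 ∈ cliqueComplex G ∧ (∀ x ∈ p.2, x.val < j + 1 + d) ∧
        (p.2 \ p.1).card = j + 1) ∧
      (∀ H ∈ cliqueComplex G, (∀ x ∈ H, x.val < j + 1 + d) →
        ∃! p, p ∈ P ∧ p.1 ⊆ H ∧ H ⊆ p.2) ∧
      ∀ p ∈ P, ∀ B, B ⊆ p.1 → ∃ q ∈ P, q.1 = B := by
  classical
  have hC := isComplex_cliqueComplex G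
  induction d with
  | zero =>
    intro hn
    rw [add_zero] at hn
    set e₀ : Finset (Fin n) := Finset.univ.map (Fin.castLEEmb hn) with he₀
    have hmem : ∀ x : Fin n, x ∈ e₀ ↔ x.val < j + 1 := by
      intro x
      rw [he₀, Finset.mem_map]
      constructor
      · rintro ⟨y, _, rfl⟩
        exact y.isLt
      · intro h
        exact ⟨⟨x.val, h⟩, Finset.mem_univ _, Fin.ext rfl⟩
    refine ⟨{(∅, e₀)}, ?_, ?_, ?_⟩
    · intro p hp
      rw [Finset.mem_singleton] at hp
      subst hp
      refine ⟨Finset.empty_subset _, ?_, fun x hx => (hmem x).1 hx, ?_⟩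
      · rw [mem_cliqueComplex]
        intro x hx y hy hxy
        rw [hmem] at hx hy
        rcases lt_or_gt_of_ne hxy with h | h
        · exact (low_eq_of_le hlow h (by omega)).symm
        · exact low_eq_of_le hlow h (by omega)
      · dsimp only
        rw [Finset.sdiff_empty, he₀, Finset.card_map, Finset.card_fin]
    · intro H _ hH'
      refine ⟨(∅, e₀), ⟨Finset.mem_singleton_self _, Finset.empty_subset _,
        fun x hx => (hmem x).2 (hH' x hx)⟩, fun q hq => Finset.mem_singleton.mp hq.1⟩
    · intro p hp B hB
      rw [Finset.mem_singleton] at hp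
      subst hp
      exact ⟨(∅, e₀), Finset.mem_singleton_self _, (Finset.subset_empty.mp hB).symm⟩
  | succ d ih =>
    intro hn
    obtain ⟨P, hP1, hP2, hP3⟩ := ih (by omega)
    set v : Fin n := ⟨j + 1 + d, by omega⟩ with hv
    have hvv : v.val = j + 1 + d := rfl
    have hNc : j + 1 ≤ (low G v).card := by
      have := hlow v
      rwa [min_eq_right (by omega)] at this
    have hNlt : ∀ x ∈ low G v, x.val < j + 1 + d := by
      intro x hx
      rw [mem_low] at hx
      exact Fin.lt_def.mp hx.1
    obtain ⟨⟨G0, F0⟩, ⟨hp0, hG0, hF0⟩, _⟩ := hP2 (low G v) (low_mem hG v) hNlt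
    dsimp only at hG0 hF0
    have hFG : (F0 \ G0).card = j + 1 := (hP1 _ hp0).2.2.2
    have hNG : (low G v \ G0).card ≤ j + 1 := by
      rw [← hFG]
      exact Finset.card_le_card (Finset.sdiff_subset_sdiff hF0 subset_rfl)
    have hNG' : (low G v \ G0).card = (low G v).card - G0.card :=
      Finset.card_sdiff_of_subset hG0
    obtain ⟨G1, hG1, hG1c⟩ := Finset.exists_subset_card_eq
      (show (low G v).card - (j + 1) ≤ G0.card by omega)
    have hG1N : G1 ⊆ low G v := hG1.trans hG0
    set S := low G v \ G1 with hS
    have hSc : S.card = j + 1 := by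
      rw [hS, Finset.card_sdiff_of_subset hG1N, hG1c]
      omega
    have hSN : S ⊆ low G v := Finset.sdiff_subset
    have hvN : v ∉ low G v := fun h => by rw [mem_low] at h; exact lt_irrefl _ h.1
    set P' := P ∪ G1.powerset.image (fun A => (insert v A, insert v (A ∪ S))) with hP'
    have hnew : ∀ A ⊆ G1, (insert v A, insert v (A ∪ S)) ∈ P' := by
      intro A hA
      rw [hP', Finset.mem_union, Finset.mem_image]
      exact Or.inr ⟨A, Finset.mem_powerset.mpr hA, rfl⟩
    refine ⟨P', ?_, ?_, ?_⟩
    · intro p hp
      rw [hP', Finset.mem_union, Finset.mem_image] at hp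
      rcases hp with hp | ⟨A, hA, rfl⟩
      · obtain ⟨h1, h2, h3, h4⟩ := hP1 p hp
        exact ⟨h1, h2, fun x hx => by have := h3 x hx; omega, h4⟩
      · rw [Finset.mem_powerset] at hA
        have hAS : A ∪ S ⊆ low G v := Finset.union_subset (hA.trans hG1N) hSN
        refine ⟨Finset.insert_subset_insert _ Finset.subset_union_left, ?_, ?_, ?_⟩
        · apply insert_mem_clique (hC.2 _ (low_mem hG v) _ hAS)
          intro x hx
          have := hAS hx
          rw [mem_low] at this
          exact this.2
        · intro x hx
          rw [Finset.mem_insert] at hx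
          rcases hx with rfl | hx
          · omega
          · have := hNlt x (hAS hx)
            omega
        · have e : insert v (A ∪ S) \ insert v A = S := by
            ext x
            simp only [Finset.mem_sdiff, Finset.mem_insert, Finset.mem_union, not_or]
            constructor
            · rintro ⟨h1, h2, h3⟩
              tauto
            · intro hx
              refine ⟨Or.inr (Or.inr hx), fun h => hvN (h ▸ hSN hx), fun h => ?_⟩
              rw [hS, Finset.mem_sdiff] at hx
              exact hx.2 (hA h)
          dsimp only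
          rw [e, hSc]
    · intro H hH hH'
      by_cases hvH : v ∈ H
      · have hHN : H.erase v ⊆ low G v := by
          intro x hx
          rw [Finset.mem_erase] at hx
          rw [mem_low]
          rw [mem_cliqueComplex] at hH
          refine ⟨lt_of_le_of_ne (Fin.le_def.mpr ?_) hx.1, hH v hvH x hx.2 (Ne.symm hx.1)⟩
          have := hH' x hx.2
          omega
        refine ⟨(insert v (H.erase v ∩ G1), insert v ((H.erase v ∩ G1) ∪ S)),
          ⟨hnew _ Finset.inter_subset_right, ?_, ?_⟩, ?_⟩
        · apply Finset.insert_subset hvH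
          exact Finset.inter_subset_left.trans (Finset.erase_subset _ _)
        · intro x hx
          dsimp only
          by_cases hxv : x = v
          · rw [hxv]; exact Finset.mem_insert_self _ _
          · have hxe : x ∈ H.erase v := Finset.mem_erase.mpr ⟨hxv, hx⟩
            apply Finset.mem_insert_of_mem
            by_cases hxG : x ∈ G1
            · exact Finset.mem_union_left _ (Finset.mem_inter.mpr ⟨hxe, hxG⟩)
            · exact Finset.mem_union_right _ (Finset.mem_sdiff.mpr ⟨hHN hxe, hxG⟩)
        · rintro p ⟨hp, hp1, hp2⟩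
          rw [hP', Finset.mem_union, Finset.mem_image] at hp
          rcases hp with hp | ⟨A, hA, rfl⟩
          · exfalso
            have := (hP1 p hp).2.2.1 v (hp2 hvH)
            omega
          · rw [Finset.mem_powerset] at hA
            dsimp only at hp1 hp2
            have hA' : A = H.erase v ∩ G1 := by
              ext x
              rw [Finset.mem_inter, Finset.mem_erase]
              constructor
              · intro hx
                exact ⟨⟨fun h => hvN (h ▸ hG1N (hA hx)), hp1 (Finset.mem_insert_of_mem hx)⟩,
                  hA hx⟩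
              · rintro ⟨⟨h1, h2⟩, h3⟩
                have h4 := hp2 h2
                rw [Finset.mem_insert, Finset.mem_union] at h4
                rcases h4 with h4 | h4 | h4
                · exact absurd h4 h1
                · exact h4
                · rw [hS, Finset.mem_sdiff] at h4
                  exact absurd h3 h4.2
            rw [← hA']
      · have hlt : ∀ x ∈ H, x.val < j + 1 + d := by
          intro x hx
          have h1 := hH' x hx
          have h2 : x.val ≠ j + 1 + d := fun h => hvH ((Fin.ext h : x = v) ▸ hx)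
          omega
        obtain ⟨p, ⟨hp, hp1, hp2⟩, hpu⟩ := hP2 H hH hlt
        refine ⟨p, ⟨Finset.mem_union_left _ hp, hp1, hp2⟩, ?_⟩
        rintro q ⟨hq, hq1, hq2⟩
        rw [hP', Finset.mem_union, Finset.mem_image] at hq
        rcases hq with hq | ⟨A, hA, rfl⟩
        · exact hpu q ⟨hq, hq1, hq2⟩
        · exact absurd (hq1 (Finset.mem_insert_self _ _)) hvH
    · intro p hp B hB
      rw [hP', Finset.mem_union, Finset.mem_image] at hp
      rcases hp with hp | ⟨A, hA, rfl⟩
      · obtain ⟨q, hq, hq'⟩ := hP3 p hp B hB
        exact ⟨q, Finset.mem_union_left _ hq, hq'⟩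
      · rw [Finset.mem_powerset] at hA
        dsimp only at hB
        by_cases hvB : v ∈ B
        · refine ⟨_, hnew (B.erase v) ?_, Finset.insert_erase hvB⟩
          intro x hx
          rw [Finset.mem_erase] at hx
          exact hA ((Finset.mem_insert.mp (hB hx.2)).resolve_left hx.1)
        · have hBA : B ⊆ G1 := by
            intro x hx
            refine hA ((Finset.mem_insert.mp (hB hx)).resolve_left (fun h => hvB (h ▸ hx)))
          obtain ⟨q, hq, hq'⟩ := hP3 _ hp0 B (hBA.trans hG1)
          exact ⟨q, Finset.mem_union_left _ hq, hq'⟩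

/-- clique complexes of chordal graphs -/
theorem chordal_partition {G : SimpleGraph (Fin n)} (hG : IsPerfectElimination G) {j : ℕ}
    (hlow : ∀ v : Fin n, min v.val (j + 1) ≤ (low G v).card) (hn : j + 1 ≤ n) :
    IsUnionWithComplexBottoms (j + 1) (cliqueComplex G) := by
  obtain ⟨P, h1, h2, h3⟩ := chordal_aux hG hlow (n - (j + 1)) (by omega)
  refine ⟨P, fun p hp => ⟨(h1 p hp).1, (h1 p hp).2.1, (h1 p hp).2.2.2⟩, fun H hH => ?_, h3⟩
  exact h2 H hH (fun x _ => by have := x.isLt; omega)

theorem le_card_of_jAcyclic {Δ : Finset (Finset (Fin n))} (hC : IsComplex Δ) {j : ℕ}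
    (hJ : IsJAcyclic k j Δ) : j + 1 ≤ n := by
  obtain ⟨E, _, _, hEc⟩ := exists_ridge hC hJ (j + 1) ∅ hC.1 (by simp)
  rw [← hEc]
  simpa using Finset.card_le_univ E

end

end Pool.Agent.Lib.MP_af28a5_co
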