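import Pool.Agent.Lib.MP_af28a5_co.Chordal

/-!
Highly connected chordal graphs have `j`-acyclic clique complexes.
-/

set_option autoImplicit false

namespace Pool.Agent.Lib.MP_af28a5_co

open Finset

section gen

variable {V : Type*} [DecidableEq V]

theorem exp_simplex (M : Finset V) (hM : M.Nonempty) : Exp ∅ {H : Finset V | H ⊆ M} := by
  obtain ⟨a, ha⟩ := hM
  have h := Exp.cone a _ (M.erase a).powerset rfl
    (fun F hF G hG => by
      rw [Finset.mem_powerset] at hF ⊢
      exact hG.trans hF)
    (fun F hF h => by
      rw [Finset.mem_powerset] at hF
      exact Finset.notMem_erase a M (hF h))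
  have e : ({G | G ∈ (M.erase a).powerset ∨ ∃ F ∈ (M.erase a).powerset, insert a F = G} :
      Set (Finset V)) = {H : Finset V | H ⊆ M} := by
    ext H
    simp only [Set.mem_ofPred_eq, Finset.mem_powerset]
    constructor
    · rintro (h | ⟨F, hF, rfl⟩)
      · exact h.trans (Finset.erase_subset _ _)
      · exact Finset.insert_subset ha (hF.trans (Finset.erase_subset _ _))
    · intro h
      by_cases haH : a ∈ H
      · exact Or.inr ⟨H.erase a, Finset.erase_subset_erase _ h, Finset.insert_erase haH⟩
      · exact Or.inl (Finset.subset_erase.mpr ⟨h, haH⟩)
  rwa [e] at h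

theorem exp_addv (v a : V) (hva : a ≠ v) : ∀ (m : ℕ) (Γ : Finset (Finset V)), Γ.card = m →
    (∀ F ∈ Γ, ∀ G, G ⊆ F → G ∈ Γ) → (∀ F ∈ Γ, a ∉ F ∧ v ∉ F) → ∀ E : Set (Finset V),
    (∀ F ∈ Γ, insert a F ∈ E) → (∀ F ∈ Γ, insert v F ∉ E) →
    Exp E (E ∪ {H | ∃ F ∈ Γ, H = insert v F ∨ H = insert v (insert a F)}) := by
  intro m
  induction m with
  | zero =>
    intro Γ h0 _ _ E _ _
    rw [Finset.card_eq_zero] at h0
    subst h0
    have e : E ∪ {H | ∃ F ∈ (∅ : Finset (Finset V)), H = insert v F ∨ H = insert v (insert a F)}
        = E := by
      ext H; simp
    rw [e]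
    exact Exp.refl _
  | succ m ih =>
    intro Γ hm hcl hav E hE1 hE2
    have hne : Γ.Nonempty := Finset.card_pos.mp (by omega)
    obtain ⟨G₀, hG₀, hmax⟩ := Finset.exists_max_image Γ Finset.card hne
    have hcl' : ∀ F ∈ Γ.erase G₀, ∀ G, G ⊆ F → G ∈ Γ.erase G₀ := by
      intro F hF G hG
      rw [Finset.mem_erase] at hF ⊢
      refine ⟨fun e => hF.1 ?_, hcl F hF.2 G hG⟩
      subst e
      exact (Finset.eq_of_subset_of_card_le hG (hmax F hF.2)).symm
    have h := ih (Γ.erase G₀) (by rw [Finset.card_erase_of_mem hG₀]; omega) hcl'
      (fun F hF => hav F (Finset.mem_of_mem_erase hF)) E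
      (fun F hF => hE1 F (Finset.mem_of_mem_erase hF))
      (fun F hF => hE2 F (Finset.mem_of_mem_erase hF))
    have haG := (hav G₀ hG₀).1
    have hvG := (hav G₀ hG₀).2
    have h2 := Exp.step (insert v G₀) a h ?_ ?_ ?_
    · have e : insert (insert v G₀) (insert (insert a (insert v G₀))
          (E ∪ {H | ∃ F ∈ Γ.erase G₀, H = insert v F ∨ H = insert v (insert a F)})) =
          E ∪ {H | ∃ F ∈ Γ, H = insert v F ∨ H = insert v (insert a F)} := by
        ext H
        simp only [Set.mem_insert_iff, Set.mem_union, Set.mem_ofPred_eq, Finset.mem_erase]
        constructor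
        · rintro (h | h | h | ⟨F, hF, h⟩)
          · exact Or.inr ⟨G₀, hG₀, Or.inl h⟩
          · exact Or.inr ⟨G₀, hG₀, Or.inr (by rw [h, Finset.insert_comm])⟩
          · exact Or.inl h
          · exact Or.inr ⟨F, hF.2, h⟩
        · rintro (h' | ⟨F, hF, h'⟩)
          · exact Or.inr (Or.inr (Or.inl h'))
          · by_cases hFG : F = G₀
            · rw [hFG] at h'
              rcases h' with h' | h'
              · exact Or.inl h'
              · exact Or.inr (Or.inl (by rw [h', Finset.insert_comm]))
            · exact Or.inr (Or.inr (Or.inr ⟨F, ⟨hFG, hF⟩, h'⟩))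
      rwa [e] at h2
    · rintro (h3 | ⟨F, hF, h3 | h3⟩)
      · exact hE2 G₀ hG₀ h3
      · rw [Finset.mem_erase] at hF
        apply hF.1
        have h4 : (insert v G₀).erase v = (insert v F).erase v := by rw [h3]
        rw [Finset.erase_insert hvG, Finset.erase_insert (hav F hF.2).2] at h4
        exact h4.symm
      · have h4 : a ∈ insert v G₀ := by
          rw [h3]; exact Finset.mem_insert_of_mem (Finset.mem_insert_self _ _)
        rcases Finset.mem_insert.mp h4 with h5 | h5
        · exact hva h5
        · exact haG h5
    · intro h4
      rcases Finset.mem_insert.mp h4 with h5 | h5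
      · exact hva h5
      · exact haG h5
    · intro x hx
      rcases Finset.mem_insert.mp hx with rfl | hx
      · left
        have e : (insert a (insert x G₀)).erase x = insert a G₀ := by
          rw [Finset.insert_comm, Finset.erase_insert]
          intro h5
          rcases Finset.mem_insert.mp h5 with h6 | h6
          · exact hva h6.symm
          · exact hvG h6
        rw [e]
        exact hE1 G₀ hG₀
      · right
        refine ⟨G₀.erase x, ?_, Or.inr ?_⟩
        · rw [Finset.mem_erase]
          refine ⟨fun e => ?_, hcl G₀ hG₀ _ (Finset.erase_subset _ _)⟩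
          exact Finset.notMem_erase x G₀ (by rw [e]; exact hx)
        · have hxa : a ≠ x := fun e => haG (e ▸ hx)
          have hxv : v ≠ x := fun e => hvG (e ▸ hx)
          rw [Finset.erase_insert_of_ne hxa, Finset.erase_insert_of_ne hxv, Finset.insert_comm]

end gen

section

variable {n : ℕ}

theorem adj_of_lt {G : SimpleGraph (Fin n)} {j : ℕ}
    (hlow : ∀ v : Fin n, min v.val (j + 1) ≤ (low G v).card) {x y : Fin n} (hne : x ≠ y)
    (hx : x.val ≤ j + 1) (hy : y.val ≤ j + 1) : G.Adj x y := by
  rcases lt_or_gt_of_ne hne with h | h
  · exact (low_eq_of_le hlow h hy).symm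
  · exact low_eq_of_le hlow h hx

/-- the faces of the link of `F` with all vertices below `m` -/
def linkBelow (G : SimpleGraph (Fin n)) (F : Finset (Fin n)) (m : ℕ) : Set (Finset (Fin n)) :=
  {H | H ∩ F = ∅ ∧ H ∪ F ∈ cliqueComplex G ∧ ∀ x ∈ H, x.val < m}

theorem exp_linkBelow {G : SimpleGraph (Fin n)} (hG : IsPerfectElimination G) {j : ℕ}
    (hlow : ∀ v : Fin n, min v.val (j + 1) ≤ (low G v).card) (d : ℕ) : j + 1 + d ≤ n →
    ∀ F ∈ cliqueComplex G, (∀ x ∈ F, x.val < j + 1 + d) → F.card ≤ j →
      Exp ∅ (linkBelow G F (j + 1 + d)) := by
  classical
  have hC := isComplex_cliqueComplex G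
  induction d with
  | zero =>
    intro hn F hF hlt hFc
    rw [add_zero] at hn hlt ⊢
    set e₀ : Finset (Fin n) := Finset.univ.map (Fin.castLEEmb hn) with he₀
    have hmem : ∀ x : Fin n, x ∈ e₀ ↔ x.val < j + 1 := by
      intro x
      rw [he₀, Finset.mem_map]
      constructor
      · rintro ⟨y, _, rfl⟩
        exact y.isLt
      · intro h
        exact ⟨⟨x.val, h⟩, Finset.mem_univ _, Fin.ext rfl⟩
    have hec : e₀.card = j + 1 := by rw [he₀, Finset.card_map, Finset.card_fin]
    have hne : (e₀ \ F).Nonempty := by
      rw [← Finset.card_pos]
      have := Finset.le_card_sdiff F e₀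
      omega
    have e : linkBelow G F (j + 1) = {H : Finset (Fin n) | H ⊆ e₀ \ F} := by
      ext H
      simp only [linkBelow, Set.mem_ofPred_eq]
      constructor
      · rintro ⟨h1, _, h3⟩ x hx
        rw [Finset.mem_sdiff, hmem]
        refine ⟨h3 x hx, fun hxF => ?_⟩
        have : x ∈ H ∩ F := Finset.mem_inter.mpr ⟨hx, hxF⟩
        rw [h1] at this
        exact Finset.notMem_empty _ this
      · intro h
        have h' : ∀ x ∈ H, x.val < j + 1 ∧ x ∉ F := by
          intro x hx
          have := h hx
          rwa [Finset.mem_sdiff, hmem] at this
        refine ⟨?_, ?_, fun x hx => (h' x hx).1⟩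
        · apply Finset.eq_empty_of_forall_notMem
          intro x hx
          rw [Finset.mem_inter] at hx
          exact (h' x hx.1).2 hx.2
        · rw [mem_cliqueComplex]
          intro x hx y hy hxy
          have hx' : x.val < j + 1 := by
            rcases Finset.mem_union.mp hx with h | h
            · exact (h' x h).1
            · exact hlt x h
          have hy' : y.val < j + 1 := by
            rcases Finset.mem_union.mp hy with h | h
            · exact (h' y h).1
            · exact hlt y h
          exact adj_of_lt hlow hxy (by omega) (by omega)
    rw [e]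
    exact exp_simplex _ hne
  | succ d ih =>
    intro hn F hF hlt hFc
    set v : Fin n := ⟨j + 1 + d, by omega⟩ with hv
    have hvv : v.val = j + 1 + d := rfl
    have hNc : j + 1 ≤ (low G v).card := by
      have := hlow v
      rwa [min_eq_right (by omega)] at this
    have hNlt : ∀ x ∈ low G v, x.val < j + 1 + d := by
      intro x hx
      rw [mem_low] at hx
      exact Fin.lt_def.mp hx.1
    have hvN : v ∉ low G v := fun h => by rw [mem_low] at h; exact lt_irrefl _ h.1
    have hNv : ∀ H : Finset (Fin n), (∀ x ∈ H, x.val < j + 1 + (d + 1)) → v ∉ H →
        (∀ x ∈ H, G.Adj v x) → H ⊆ low G v := by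
      intro H h1 h2 h3 x hx
      rw [mem_low]
      refine ⟨Fin.lt_def.mpr ?_, h3 x hx⟩
      have h4 := h1 x hx
      have h5 : x.val ≠ j + 1 + d := fun h => h2 ((Fin.ext h : x = v) ▸ hx)
      omega
    by_cases hvF : v ∈ F
    · -- the link below is a simplex
      have hF' : F.erase v ⊆ low G v := by
        apply hNv
        · intro x hx
          exact hlt x (Finset.mem_of_mem_erase hx)
        · exact Finset.notMem_erase _ _
        · intro x hx
          rw [Finset.mem_erase] at hx
          rw [mem_cliqueComplex] at hF
          exact hF v hvF x hx.2 (Ne.symm hx.1)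
      have hFc' : (F.erase v).card < F.card := Finset.card_erase_lt_of_mem hvF
      have hne : (low G v \ F.erase v).Nonempty := by
        rw [← Finset.card_pos]
        have := Finset.le_card_sdiff (F.erase v) (low G v)
        omega
      have e : linkBelow G F (j + 1 + (d + 1)) =
          {H : Finset (Fin n) | H ⊆ low G v \ F.erase v} := by
        ext H
        simp only [linkBelow, Set.mem_ofPred_eq]
        constructor
        · rintro ⟨h1, h2, h3⟩
          have hHF : ∀ x ∈ H, x ∉ F := by
            intro x hx hxF
            have : x ∈ H ∩ F := Finset.mem_inter.mpr ⟨hx, hxF⟩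
            rw [h1] at this
            exact Finset.notMem_empty _ this
          have hvH : v ∉ H := fun h => hHF v h hvF
          have h4 : H ⊆ low G v := by
            apply hNv H h3 hvH
            intro x hx
            rw [mem_cliqueComplex] at h2
            exact h2 v (Finset.mem_union_right _ hvF) x (Finset.mem_union_left _ hx)
              (fun e => hvH (e ▸ hx))
          intro x hx
          rw [Finset.mem_sdiff, Finset.mem_erase]
          exact ⟨h4 hx, fun h => hHF x hx h.2⟩
        · intro h
          have h' : ∀ x ∈ H, x ∈ low G v ∧ x ∉ F.erase v := fun x hx =>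
            Finset.mem_sdiff.mp (h hx)
          have hvH : v ∉ H := fun h => hvN (h' v h).1
          refine ⟨?_, ?_, ?_⟩
          · apply Finset.eq_empty_of_forall_notMem
            intro x hx
            rw [Finset.mem_inter] at hx
            refine (h' x hx.1).2 (Finset.mem_erase.mpr ⟨fun e => hvH (e ▸ hx.1), hx.2⟩)
          · have h5 : H ∪ F = insert v (H ∪ F.erase v) := by
              ext x
              simp only [Finset.mem_union, Finset.mem_insert, Finset.mem_erase]
              constructor
              · rintro (h | h)
                · exact Or.inr (Or.inl h)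
                · by_cases hxv : x = v
                  · exact Or.inl hxv
                  · exact Or.inr (Or.inr ⟨hxv, h⟩)
              · rintro (rfl | h | h)
                · exact Or.inr hvF
                · exact Or.inl h
                · exact Or.inr h.2
            have h6 : H ∪ F.erase v ⊆ low G v :=
              Finset.union_subset (fun x hx => (h' x hx).1) hF'
            rw [h5]
            refine hC.2 _ (insert_mem_clique (low_mem hG v) (fun x hx => ?_)) _
              (Finset.insert_subset_insert _ h6)
            rw [mem_low] at hx
            exact hx.2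
          · intro x hx
            have := hNlt x (h' x hx).1
            omega
      rw [e]
      exact exp_simplex _ hne
    · -- `v` is not in `F`
      have hlt' : ∀ x ∈ F, x.val < j + 1 + d := by
        intro x hx
        have h4 := hlt x hx
        have h5 : x.val ≠ j + 1 + d := fun h => hvF ((Fin.ext h : x = v) ▸ hx)
        omega
      have h0 := ih (by omega) F hF hlt' hFc
      by_cases hFN : F ⊆ low G v
      · have hne : (low G v \ F).Nonempty := by
          rw [← Finset.card_pos]
          have := Finset.le_card_sdiff F (low G v)
          omega
        obtain ⟨a, ha⟩ := hne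
        rw [Finset.mem_sdiff] at ha
        have hav : a ≠ v := fun e => hvN (e ▸ ha.1)
        have hM : ∀ H : Finset (Fin n), H ⊆ low G v \ F → H ∈ linkBelow G F (j + 1 + d) := by
          intro H hH
          have h' : ∀ x ∈ H, x ∈ low G v ∧ x ∉ F := fun x hx => Finset.mem_sdiff.mp (hH hx)
          refine ⟨?_, ?_, fun x hx => hNlt x (h' x hx).1⟩
          · apply Finset.eq_empty_of_forall_notMem
            intro x hx
            rw [Finset.mem_inter] at hx
            exact (h' x hx.1).2 hx.2
          · exact hC.2 _ (low_mem hG v) _
              (Finset.union_subset (fun x hx => (h' x hx).1) hFN)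
        have h1 := exp_addv v a hav _ ((low G v \ F).erase a).powerset rfl
          (fun A hA B hB => by
            rw [Finset.mem_powerset] at hA ⊢
            exact hB.trans hA)
          (fun A hA => by
            rw [Finset.mem_powerset] at hA
            refine ⟨fun h => Finset.notMem_erase _ _ (hA h), fun h => ?_⟩
            have h2 := hA h
            rw [Finset.mem_erase, Finset.mem_sdiff] at h2
            exact hvN h2.2.1)
          (linkBelow G F (j + 1 + d))
          (fun A hA => by
            rw [Finset.mem_powerset] at hA
            apply hM
            apply Finset.insert_subset (Finset.mem_sdiff.mpr ha)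
            exact hA.trans (Finset.erase_subset _ _))
          (fun A _ h => by
            have := h.2.2 v (Finset.mem_insert_self _ _)
            omega)
        have h2 := h0.trans h1
        have e : linkBelow G F (j + 1 + d) ∪
            {H | ∃ A ∈ ((low G v \ F).erase a).powerset, H = insert v A ∨
              H = insert v (insert a A)} = linkBelow G F (j + 1 + (d + 1)) := by
          ext H
          constructor
          · rintro (⟨h1, h2, h3⟩ | ⟨A, hA, h⟩)
            · exact ⟨h1, h2, fun x hx => by have := h3 x hx; omega⟩
            · rw [Finset.mem_powerset] at hA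
              -- both cases: `H = insert v B` with `B ⊆ low G v \ F`
              obtain ⟨B, hB, rfl⟩ : ∃ B ⊆ low G v \ F, H = insert v B := by
                rcases h with h | h
                · exact ⟨A, hA.trans (Finset.erase_subset _ _), h⟩
                · exact ⟨insert a A, Finset.insert_subset (Finset.mem_sdiff.mpr ha)
                    (hA.trans (Finset.erase_subset _ _)), h⟩
              have h' : ∀ x ∈ B, x ∈ low G v ∧ x ∉ F := fun x hx => Finset.mem_sdiff.mp (hB hx)
              refine ⟨?_, ?_, ?_⟩
              · apply Finset.eq_empty_of_forall_notMem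
                intro x hx
                rw [Finset.mem_inter, Finset.mem_insert] at hx
                rcases hx.1 with rfl | hx1
                · exact hvF hx.2
                · exact (h' x hx1).2 hx.2
              · rw [Finset.insert_union]
                refine hC.2 _ (insert_mem_clique (low_mem hG v) (fun x hx => ?_)) _
                  (Finset.insert_subset_insert _
                    (Finset.union_subset (fun x hx => (h' x hx).1) hFN))
                rw [mem_low] at hx
                exact hx.2
              · intro x hx
                rw [Finset.mem_insert] at hx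
                rcases hx with rfl | hx
                · omega
                · have := hNlt x (h' x hx).1
                  omega
          · rintro ⟨h1, h2, h3⟩
            have hHF : ∀ x ∈ H, x ∉ F := by
              intro x hx hxF
              have : x ∈ H ∩ F := Finset.mem_inter.mpr ⟨hx, hxF⟩
              rw [h1] at this
              exact Finset.notMem_empty _ this
            by_cases hvH : v ∈ H
            · right
              have h4 : H.erase v ⊆ low G v \ F := by
                have h5 : H.erase v ⊆ low G v := by
                  apply hNv
                  · exact fun x hx => h3 x (Finset.mem_of_mem_erase hx)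
                  · exact Finset.notMem_erase _ _
                  · intro x hx
                    rw [Finset.mem_erase] at hx
                    rw [mem_cliqueComplex] at h2
                    exact h2 v (Finset.mem_union_left _ hvH) x (Finset.mem_union_left _ hx.2)
                      (Ne.symm hx.1)
                intro x hx
                exact Finset.mem_sdiff.mpr ⟨h5 hx, hHF x (Finset.mem_of_mem_erase hx)⟩
              refine ⟨(H.erase v).erase a, ?_, ?_⟩
              · rw [Finset.mem_powerset]
                exact Finset.erase_subset_erase _ h4
              · by_cases haH : a ∈ H.erase v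
                · right
                  rw [Finset.insert_erase haH, Finset.insert_erase hvH]
                · left
                  rw [Finset.erase_eq_of_notMem haH, Finset.insert_erase hvH]
            · left
              refine ⟨h1, h2, fun x hx => ?_⟩
              have h4 := h3 x hx
              have h5 : x.val ≠ j + 1 + d := fun h => hvH ((Fin.ext h : x = v) ▸ hx)
              omega
        rwa [e] at h2
      · have e : linkBelow G F (j + 1 + (d + 1)) = linkBelow G F (j + 1 + d) := by
          ext H
          constructor
          · rintro ⟨h1, h2, h3⟩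
            have hvH : v ∉ H := by
              intro hvH
              apply hFN
              apply hNv F hlt hvF
              intro x hx
              rw [mem_cliqueComplex] at h2
              exact h2 v (Finset.mem_union_left _ hvH) x (Finset.mem_union_right _ hx)
                (fun e => hvF (e ▸ hx))
            refine ⟨h1, h2, fun x hx => ?_⟩
            have h4 := h3 x hx
            have h5 : x.val ≠ j + 1 + d := fun h => hvH ((Fin.ext h : x = v) ▸ hx)
            omega
          · rintro ⟨h1, h2, h3⟩
            exact ⟨h1, h2, fun x hx => by have := h3 x hx; omega⟩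
        rw [e]
        exact h0

theorem jAcyclic_of_low (k : Type*) [Field k] {G : SimpleGraph (Fin n)}
    (hG : IsPerfectElimination G) {j : ℕ}
    (hlow : ∀ v : Fin n, min v.val (j + 1) ≤ (low G v).card) (hn : j + 1 ≤ n) :
    IsJAcyclic k j (cliqueComplex G) := by
  have hC := isComplex_cliqueComplex G
  intro F hF hFc
  apply acyclic_of_exp
  have h := exp_linkBelow hG hlow (n - (j + 1)) (by omega) F hF
    (fun x _ => by have := x.isLt; omega) hFc
  have e : linkBelow G F (j + 1 + (n - (j + 1))) =
      ((link (cliqueComplex G) F : Finset (Finset (Fin n))) : Set (Finset (Fin n))) := by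
    ext H
    rw [Finset.mem_coe, mem_link']
    constructor
    · rintro ⟨h1, h2, _⟩
      exact ⟨hC.2 _ h2 _ Finset.subset_union_left, h1, h2⟩
    · rintro ⟨_, h1, h2⟩
      exact ⟨h1, h2, fun x _ => by have := x.isLt; omega⟩
  rwa [e] at h

end

end Pool.Agent.Lib.MP_af28a5_co
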