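import Pool.Agent.Lib.MP_af28a5_co.Thresh

/-!
`j`-acyclic complexes which are partitionable with tops of one size.
-/

set_option autoImplicit false

namespace Pool.Agent.Lib.MP_af28a5_co

open Finset

section

variable {k : Type*} [Field k] {n : ℕ}

/-- alternating sum over a boolean interval -/
theorem sum_Icc_sign (R F : Finset (Fin n)) (hRF : R ⊂ F) :
    ∑ H ∈ Finset.Icc R F, (-1 : ℤ) ^ H.card = 0 := by
  classical
  obtain ⟨hsub, hne⟩ := Finset.ssubset_iff_subset_ne.mp hRF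
  obtain ⟨x, hx, hxR⟩ := Finset.exists_of_ssubset hRF
  refine Finset.sum_involution (fun H _ => if x ∈ H then H.erase x else insert x H) ?_ ?_ ?_ ?_
  · intro H _
    split_ifs with h
    · have : H.card = (H.erase x).card + 1 := by
        rw [Finset.card_erase_of_mem h]
        have := Finset.card_pos.mpr ⟨x, h⟩
        omega
      rw [this, pow_succ]
      ring
    · rw [Finset.card_insert_of_notMem h, pow_succ]
      ring
  · intro H _ _ h
    split_ifs at h with h'
    · exact (Finset.notMem_erase x H) (by rw [h]; exact h')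
    · exact h' (by rw [← h]; exact Finset.mem_insert_self _ _)
  · intro H hH
    rw [Finset.mem_Icc] at hH
    split_ifs with h
    · rw [Finset.mem_Icc]
      exact ⟨Finset.subset_erase.mpr ⟨hH.1, hxR⟩, (Finset.erase_subset _ _).trans hH.2⟩
    · rw [Finset.mem_Icc]
      exact ⟨hH.1.trans (Finset.subset_insert _ _), Finset.insert_subset hx hH.2⟩
  · intro H _
    by_cases h : x ∈ H
    · simp [h, Finset.insert_erase h]
    · simp [h, Finset.erase_insert h]

theorem interval_phi (R F : Finset (Fin n)) (hRF : R ⊆ F) (m : ℕ) :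
    ∑ H ∈ Finset.Icc R F, (-1 : ℤ) ^ (H.card + m) * (H.card.choose m : ℤ) =
      (-1 : ℤ) ^ (F.card + m) * (((F.powersetCard m).filter (fun E => F \ R ⊆ E)).card : ℤ) := by
  classical
  have e1 : ∀ H ∈ Finset.Icc R F, (-1 : ℤ) ^ (H.card + m) * (H.card.choose m : ℤ) =
      ∑ _E ∈ H.powersetCard m, (-1 : ℤ) ^ (H.card + m) := by
    intro H _
    rw [Finset.sum_const, Finset.card_powersetCard, nsmul_eq_mul, mul_comm]
  rw [Finset.sum_congr rfl e1]
  rw [Finset.sum_comm' (t' := F.powersetCard m) (s' := fun E => Finset.Icc (R ∪ E) F)]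
  · rw [Finset.card_filter, Nat.cast_sum, Finset.mul_sum]
    apply Finset.sum_congr rfl
    intro E hE
    rw [Finset.mem_powersetCard] at hE
    simp only [pow_add, ← Finset.sum_mul]
    by_cases h : F \ R ⊆ E
    · have hu : R ∪ E = F := by
        apply le_antisymm (Finset.union_subset hRF hE.1)
        intro x hx
        by_cases hxR : x ∈ R
        · exact Finset.mem_union_left _ hxR
        · exact Finset.mem_union_right _ (h (Finset.mem_sdiff.mpr ⟨hx, hxR⟩))
      rw [hu, if_pos h, Finset.Icc_self, Finset.sum_singleton]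
      simp
    · have hu : R ∪ E ⊂ F := by
        refine Finset.ssubset_iff_subset_ne.mpr ⟨Finset.union_subset hRF hE.1, fun e => h ?_⟩
        intro x hx
        rw [Finset.mem_sdiff] at hx
        have hx1 : x ∈ R ∪ E := by rw [e]; exact hx.1
        exact (Finset.mem_union.mp hx1).resolve_left hx.2
      rw [if_neg h, sum_Icc_sign _ _ hu]
      simp
  · intro H E
    simp only [Finset.mem_powersetCard, Finset.mem_Icc, Finset.union_subset_iff]
    constructor
    · rintro ⟨⟨h1, h2⟩, h3, h4⟩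
      exact ⟨⟨⟨h1, h3⟩, h2⟩, h3.trans h2, h4⟩
    · rintro ⟨⟨⟨h1, h3⟩, h2⟩, _, h4⟩
      exact ⟨⟨h1, h2⟩, h3, h4⟩

/-- sums over `Δ` split along a partition into intervals -/
theorem sum_partition {Δ : Finset (Finset (Fin n))} (hC : IsComplex Δ)
    (Q : Finset (Finset (Fin n) × Finset (Fin n)))
    (hQ : ∀ q ∈ Q, q.1 ⊆ q.2 ∧ q.2 ∈ Δ) (hQ' : ∀ H ∈ Δ, ∃! q, q ∈ Q ∧ q.1 ⊆ H ∧ H ⊆ q.2)
    (f : Finset (Fin n) → ℤ) :
    ∑ H ∈ Δ, f H = ∑ q ∈ Q, ∑ H ∈ Finset.Icc q.1 q.2, f H := by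
  classical
  have e : Δ = Q.biUnion (fun q => Finset.Icc q.1 q.2) := by
    ext H
    rw [Finset.mem_biUnion]
    constructor
    · intro hH
      obtain ⟨q, hq, _⟩ := hQ' H hH
      exact ⟨q, hq.1, Finset.mem_Icc.mpr hq.2⟩
    · rintro ⟨q, hq, hH⟩
      exact hC.2 _ (hQ q hq).2 _ (Finset.mem_Icc.mp hH).2
  conv_lhs => rw [e]
  apply Finset.sum_biUnion
  intro p hp q hq hne
  apply Finset.disjoint_left.mpr
  intro H h1 h2
  rw [Finset.mem_Icc] at h1 h2
  have hH : H ∈ Δ := hC.2 _ (hQ p hp).2 _ h1.2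
  exact hne ((hQ' H hH).unique ⟨hp, h1⟩ ⟨hq, h2⟩)

/-- in a partition of a `j`-acyclic complex into intervals with tops of one size, all intervals
have length at least `j + 1` -/
theorem length_ge {Δ : Finset (Finset (Fin n))} (hC : IsComplex Δ) {j : ℕ}
    (hJ : IsJAcyclic k j Δ) (d : ℕ) (Q : Finset (Finset (Fin n) × Finset (Fin n)))
    (hQ : ∀ q ∈ Q, q.1 ⊆ q.2 ∧ q.2 ∈ Δ ∧ q.2.card = d)
    (hQ' : ∀ H ∈ Δ, ∃! q, q ∈ Q ∧ q.1 ⊆ H ∧ H ⊆ q.2) :
    ∀ q ∈ Q, j + 1 ≤ (q.2 \ q.1).card := by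
  classical
  have h0 := phi_zero hC hJ (le_refl j)
  rw [sum_partition hC Q (fun q hq => ⟨(hQ q hq).1, (hQ q hq).2.1⟩) hQ'] at h0
  have h1 : ∑ q ∈ Q, ∑ H ∈ Finset.Icc q.1 q.2, (-1 : ℤ) ^ (H.card + j) * (H.card.choose j : ℤ) =
      (-1 : ℤ) ^ (d + j) *
        ∑ q ∈ Q, (((q.2.powersetCard j).filter (fun E => q.2 \ q.1 ⊆ E)).card : ℤ) := by
    rw [Finset.mul_sum]
    apply Finset.sum_congr rfl
    intro q hq
    rw [interval_phi _ _ (hQ q hq).1, (hQ q hq).2.2]
  rw [h1] at h0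
  have h2 : ∑ q ∈ Q, (((q.2.powersetCard j).filter (fun E => q.2 \ q.1 ⊆ E)).card : ℤ) = 0 := by
    rcases mul_eq_zero.mp h0 with h | h
    · exact absurd h (pow_ne_zero _ (by norm_num))
    · exact h
  have h3 : ∀ q ∈ Q, (((q.2.powersetCard j).filter (fun E => q.2 \ q.1 ⊆ E)).card : ℤ) = 0 :=
    (Finset.sum_eq_zero_iff_of_nonneg (fun _ _ => Int.natCast_nonneg _)).mp h2
  -- the size `d` is at least `j + 1`
  obtain ⟨E, hE, _, hEc⟩ := exists_ridge hC hJ (j + 1) ∅ hC.1 (by simp)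
  obtain ⟨p, hp, _⟩ := hQ' E hE
  have hd : j + 1 ≤ d := by
    rw [← hEc, ← (hQ p hp.1).2.2]
    exact Finset.card_le_card hp.2.2
  intro q hq
  by_contra hcon
  have h4 := h3 q hq
  rw [Nat.cast_eq_zero, Finset.card_eq_zero, Finset.filter_eq_empty_iff] at h4
  obtain ⟨E, h5, h6, h7⟩ := Finset.exists_subsuperset_card_eq (s := q.2 \ q.1) (t := q.2) (n := j)
    Finset.sdiff_subset (by omega) (by have := (hQ q hq).2.2; omega)
  exact h4 (Finset.mem_powersetCard.mpr ⟨h6, h7⟩) h5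

/-- subdividing intervals -/
theorem subdivide {Δ : Finset (Finset (Fin n))} (hC : IsComplex Δ) (r : ℕ)
    (Q : Finset (Finset (Fin n) × Finset (Fin n)))
    (hQ : ∀ q ∈ Q, q.1 ⊆ q.2 ∧ q.2 ∈ Δ ∧ r ≤ (q.2 \ q.1).card)
    (hQ' : ∀ H ∈ Δ, ∃! q, q ∈ Q ∧ q.1 ⊆ H ∧ H ⊆ q.2) : IsUnionOfIntervals r Δ := by
  classical
  have hS : ∀ q : Finset (Fin n) × Finset (Fin n), q ∈ Q → ∃ S ⊆ q.2 \ q.1, S.card = r :=
    fun q hq => Finset.exists_subset_card_eq (hQ q hq).2.2
  choose! S hS1 hS2 using hS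
  have hdis : ∀ q ∈ Q, Disjoint (S q) q.1 := by
    intro q hq
    exact Finset.disjoint_of_subset_left (hS1 q hq) Finset.sdiff_disjoint
  refine ⟨Q.biUnion (fun q => ((q.2 \ q.1) \ S q).powerset.image
    (fun G => (q.1 ∪ G, q.1 ∪ G ∪ S q))), ?_, ?_⟩
  · intro p hp
    rw [Finset.mem_biUnion] at hp
    obtain ⟨q, hq, hp⟩ := hp
    rw [Finset.mem_image] at hp
    obtain ⟨G, hG, rfl⟩ := hp
    rw [Finset.mem_powerset] at hG
    refine ⟨Finset.subset_union_left, ?_, ?_⟩
    · apply hC.2 _ (hQ q hq).2.1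
      apply Finset.union_subset (Finset.union_subset (hQ q hq).1 _) _
      · exact hG.trans (Finset.sdiff_subset.trans Finset.sdiff_subset)
      · exact (hS1 q hq).trans Finset.sdiff_subset
    · dsimp only
      rw [Finset.union_sdiff_left, Finset.sdiff_eq_self_of_disjoint, hS2 q hq]
      rw [Finset.disjoint_union_right]
      refine ⟨hdis q hq, ?_⟩
      exact (Finset.disjoint_of_subset_left hG Finset.sdiff_disjoint).symm
  · intro H hH
    obtain ⟨q, ⟨hq, hq1, hq2⟩, hqu⟩ := hQ' H hH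
    refine ⟨(q.1 ∪ ((H \ q.1) \ S q), q.1 ∪ ((H \ q.1) \ S q) ∪ S q), ⟨?_, ?_, ?_⟩, ?_⟩
    · rw [Finset.mem_biUnion]
      refine ⟨q, hq, Finset.mem_image.mpr ⟨(H \ q.1) \ S q, ?_, rfl⟩⟩
      rw [Finset.mem_powerset]
      exact Finset.sdiff_subset_sdiff (Finset.sdiff_subset_sdiff hq2 subset_rfl) subset_rfl
    · exact Finset.union_subset hq1 (Finset.sdiff_subset.trans Finset.sdiff_subset)
    · intro x hx
      simp only [Finset.mem_union, Finset.mem_sdiff]
      tauto
    · rintro p ⟨hp, hp1, hp2⟩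
      rw [Finset.mem_biUnion] at hp
      obtain ⟨q', hq', hp⟩ := hp
      rw [Finset.mem_image] at hp
      obtain ⟨G, hG, rfl⟩ := hp
      rw [Finset.mem_powerset] at hG
      dsimp only at hp1 hp2
      have hqq : q' = q := by
        apply hqu q'
        refine ⟨hq', Finset.subset_union_left.trans hp1, hp2.trans ?_⟩
        apply Finset.union_subset (Finset.union_subset (hQ q' hq').1 _) _
        · exact hG.trans (Finset.sdiff_subset.trans Finset.sdiff_subset)
        · exact (hS1 q' hq').trans Finset.sdiff_subset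
      subst hqq
      have hGe : G = (H \ q'.1) \ S q' := by
        ext x
        constructor
        · intro hx
          have h1 := hG hx
          rw [Finset.mem_sdiff, Finset.mem_sdiff] at h1
          rw [Finset.mem_sdiff, Finset.mem_sdiff]
          exact ⟨⟨hp1 (Finset.mem_union_right _ hx), h1.1.2⟩, h1.2⟩
        · intro hx
          rw [Finset.mem_sdiff, Finset.mem_sdiff] at hx
          have h1 := hp2 hx.1.1
          rw [Finset.mem_union, Finset.mem_union] at h1
          tauto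
      rw [← hGe]

end

end Pool.Agent.Lib.MP_af28a5_co
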