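import Pool.Agent.Lib.MP_af28a5_co.Chordal
import Pool.Agent.Lib.MP_af28a5_co.Partble

/-!
Converse statements for clique complexes of chordal graphs.
-/

set_option autoImplicit false

namespace Pool.Agent.Lib.MP_af28a5_co

open Finset

section

variable {n : ℕ}

theorem phi_zero_of_union {Δ : Finset (Finset (Fin n))} (hC : IsComplex Δ) {j : ℕ}
    (hU : IsUnionOfIntervals (j + 1) Δ) {i : ℕ} (hi : i ≤ j) :
    ∑ H ∈ Δ, (-1 : ℤ) ^ (H.card + i) * (H.card.choose i : ℤ) = 0 := by
  classical
  obtain ⟨P, hP, hP'⟩ := hU
  rw [sum_partition hC P (fun q hq => ⟨(hP q hq).1, (hP q hq).2.1⟩) hP']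
  apply Finset.sum_eq_zero
  intro q hq
  rw [interval_phi _ _ (hP q hq).1, Finset.filter_eq_empty_iff.mpr, Finset.card_empty]
  · simp
  · intro E hE h
    rw [Finset.mem_powersetCard] at hE
    have := Finset.card_le_card h
    rw [(hP q hq).2.2] at this
    omega

theorem sum_by_max (G : SimpleGraph (Fin n)) (hG : IsPerfectElimination G)
    (f : Finset (Fin n) → ℤ) :
    ∑ H ∈ cliqueComplex G, f H =
      f ∅ + ∑ v : Fin n, ∑ H ∈ Finset.Icc {v} (insert v (low G v)), f H := by
  classical
  have hC := isComplex_cliqueComplex G
  rw [← Finset.add_sum_erase _ _ hC.1]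
  congr 1
  rw [← Finset.sum_biUnion]
  · apply Finset.sum_congr _ (fun _ _ => rfl)
    ext H
    rw [Finset.mem_erase, Finset.mem_biUnion]
    constructor
    · rintro ⟨hne, hH⟩
      have hne' : H.Nonempty := Finset.nonempty_iff_ne_empty.mpr hne
      refine ⟨H.max' hne', Finset.mem_univ _, Finset.mem_Icc.mpr ⟨?_, ?_⟩⟩
      · exact Finset.singleton_subset_iff.mpr (Finset.max'_mem H hne')
      · intro x hx
        by_cases hxm : x = H.max' hne'
        · rw [hxm]; exact Finset.mem_insert_self _ _
        · apply Finset.mem_insert_of_mem
          rw [mem_low]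
          rw [mem_cliqueComplex] at hH
          exact ⟨lt_of_le_of_ne (Finset.le_max' H x hx) hxm,
            hH _ (Finset.max'_mem H hne') x hx (Ne.symm hxm)⟩
    · rintro ⟨v, _, hv⟩
      rw [Finset.mem_Icc] at hv
      refine ⟨fun e => ?_, ?_⟩
      · rw [e] at hv
        exact Finset.notMem_empty v (hv.1 (Finset.mem_singleton_self v))
      · refine hC.2 _ (insert_mem_clique (low_mem hG v) fun x hx => ?_) _ hv.2
        rw [mem_low] at hx
        exact hx.2
  · intro v _ w _ hvw
    apply Finset.disjoint_left.mpr
    intro H h1 h2
    rw [Finset.mem_Icc] at h1 h2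
    have hv : v ∈ H := h1.1 (Finset.mem_singleton_self v)
    have hw : w ∈ H := h2.1 (Finset.mem_singleton_self w)
    have a1 := (Finset.mem_insert.mp (h2.2 hv)).resolve_left hvw
    have a2 := (Finset.mem_insert.mp (h1.2 hw)).resolve_left (Ne.symm hvw)
    rw [mem_low] at a1 a2
    exact lt_asymm a1.1 a2.1

theorem count_supersets (v : Fin n) (N : Finset (Fin n)) (hv : v ∉ N) (i : ℕ) :
    (((insert v N).powersetCard i).filter (fun E => insert v N \ {v} ⊆ E)).card =
      (if N.card = i then 1 else 0) + (if N.card + 1 = i then 1 else 0) := by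
  classical
  have e0 : insert v N \ {v} = N := by
    ext x
    rw [Finset.mem_sdiff, Finset.mem_insert, Finset.mem_singleton]
    constructor
    · rintro ⟨h1 | h1, h2⟩
      · exact absurd h1 h2
      · exact h1
    · intro h
      exact ⟨Or.inr h, fun e => hv (e ▸ h)⟩
  rw [e0]
  have key : ((insert v N).powersetCard i).filter (fun E => N ⊆ E) =
      (if N.card = i then {N} else ∅) ∪ (if N.card + 1 = i then {insert v N} else ∅) := by
    ext E
    simp only [Finset.mem_filter, Finset.mem_powersetCard, Finset.mem_union]
    constructor
    · rintro ⟨⟨h1, h2⟩, h3⟩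
      by_cases hvE : v ∈ E
      · right
        have : E = insert v N := le_antisymm h1 (Finset.insert_subset hvE h3)
        have hc : N.card + 1 = i := by
          rw [← h2, this, Finset.card_insert_of_notMem hv]
        rw [if_pos hc, this]
        exact Finset.mem_singleton_self _
      · left
        have : E = N := by
          apply le_antisymm _ h3
          intro x hx
          exact (Finset.mem_insert.mp (h1 hx)).resolve_left (fun e => hvE (e ▸ hx))
        rw [if_pos (by rw [← h2, this]), this]
        exact Finset.mem_singleton_self _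
    · rintro (h | h)
      · split_ifs at h with hc
        · rw [Finset.mem_singleton] at h
          rw [h]
          exact ⟨⟨Finset.subset_insert _ _, hc⟩, subset_rfl⟩
        · exact absurd h (Finset.notMem_empty _)
      · split_ifs at h with hc
        · rw [Finset.mem_singleton] at h
          rw [h]
          exact ⟨⟨subset_rfl, by rw [Finset.card_insert_of_notMem hv, hc]⟩,
            Finset.subset_insert _ _⟩
        · exact absurd h (Finset.notMem_empty _)
  rw [key]
  by_cases h1 : N.card = i
  · simp [h1]
  · by_cases h2 : N.card + 1 = i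
    · simp [h1, h2]
    · simp [h1, h2]

theorem phi_clique (G : SimpleGraph (Fin n)) (hG : IsPerfectElimination G) (i : ℕ) :
    ∑ H ∈ cliqueComplex G, (-1 : ℤ) ^ (H.card + i) * (H.card.choose i : ℤ) =
      (if i = 0 then 1 else 0) -
        ((Finset.univ.filter (fun v : Fin n => (low G v).card = i)).card : ℤ) +
        ((Finset.univ.filter (fun v : Fin n => (low G v).card + 1 = i)).card : ℤ) := by
  classical
  rw [sum_by_max G hG]
  have h0 : (-1 : ℤ) ^ ((∅ : Finset (Fin n)).card + i) * (((∅ : Finset (Fin n)).card).choose i : ℤ)
      = if i = 0 then 1 else 0 := by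
    rw [Finset.card_empty]
    by_cases hi : i = 0
    · subst hi; simp
    · rw [if_neg hi, Nat.choose_eq_zero_of_lt (by omega)]
      simp
  rw [h0]
  have h1 : ∀ v : Fin n, ∑ H ∈ Finset.Icc {v} (insert v (low G v)),
      (-1 : ℤ) ^ (H.card + i) * (H.card.choose i : ℤ) =
      -(if (low G v).card = i then 1 else 0) + (if (low G v).card + 1 = i then 1 else 0) := by
    intro v
    have hv : v ∉ low G v := fun h => by rw [mem_low] at h; exact lt_irrefl _ h.1
    rw [interval_phi _ _ (by simp), count_supersets v _ hv, Finset.card_insert_of_notMem hv]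
    by_cases h1 : (low G v).card = i
    · have h2 : ¬ (low G v).card + 1 = i := by omega
      rw [if_pos h1, if_neg h2, if_pos h1, if_neg h2, h1]
      have : i + 1 + i = 2 * i + 1 := by ring
      rw [this, pow_succ, pow_mul]
      simp
    · by_cases h2 : (low G v).card + 1 = i
      · rw [if_neg h1, if_pos h2, if_neg h1, if_pos h2, h2, ← two_mul, pow_mul]
        simp
      · rw [if_neg h1, if_neg h2, if_neg h1, if_neg h2]
        simp
  rw [Finset.sum_congr rfl (fun v _ => h1 v), Finset.sum_add_distrib, Finset.sum_neg_distrib,
    Finset.card_filter, Finset.card_filter]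
  push_cast
  ring

theorem low_of_union (G : SimpleGraph (Fin n)) (hG : IsPerfectElimination G) {j : ℕ}
    (hU : IsUnionOfIntervals (j + 1) (cliqueComplex G)) :
    j + 1 ≤ n ∧ ∀ v : Fin n, min v.val (j + 1) ≤ (low G v).card := by
  classical
  have hC := isComplex_cliqueComplex G
  have hone : ∀ i : ℕ, i ≤ j →
      (Finset.univ.filter (fun v : Fin n => (low G v).card = i)).card = 1 := by
    intro i
    induction i with
    | zero =>
      intro _
      have h := phi_zero_of_union hC hU (Nat.zero_le j)
      rw [phi_clique G hG] at h
      have e : Finset.univ.filter (fun v : Fin n => (low G v).card + 1 = 0) = ∅ := by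
        apply Finset.filter_eq_empty_iff.mpr
        intro v _
        omega
      rw [e, if_pos rfl, Finset.card_empty] at h
      push_cast at h
      omega
    | succ i ih =>
      intro hi
      have h := phi_zero_of_union hC hU hi
      rw [phi_clique G hG] at h
      have e : Finset.univ.filter (fun v : Fin n => (low G v).card + 1 = i + 1) =
          Finset.univ.filter (fun v : Fin n => (low G v).card = i) := by
        apply Finset.filter_congr
        intro v _
        omega
      rw [e, if_neg (by omega), ih (by omega)] at h
      push_cast at h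
      omega
  have huniq : ∀ v w : Fin n, (low G v).card ≤ j → (low G v).card = (low G w).card → v = w := by
    intro v w hv hvw
    obtain ⟨x, hx⟩ := Finset.card_eq_one.mp (hone _ hv)
    have h1 : v ∈ ({x} : Finset (Fin n)) := by
      rw [← hx]; exact Finset.mem_filter.mpr ⟨Finset.mem_univ _, rfl⟩
    have h2 : w ∈ ({x} : Finset (Fin n)) := by
      rw [← hx]; exact Finset.mem_filter.mpr ⟨Finset.mem_univ _, hvw.symm⟩
    rw [Finset.mem_singleton] at h1 h2
    rw [h1, h2]
  have hle : ∀ v : Fin n, (low G v).card ≤ v.val := by
    intro v
    have : low G v ⊆ Finset.Iio v := fun x hx => by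
      rw [mem_low] at hx
      exact Finset.mem_Iio.mpr hx.1
    have h := Finset.card_le_card this
    rwa [Fin.card_Iio] at h
  have hsmall : ∀ m : ℕ, ∀ v : Fin n, v.val = m → m ≤ j → (low G v).card = m := by
    intro m
    induction m using Nat.strong_induction_on with
    | _ m ih =>
      intro v hv hm
      by_contra hne
      have h1 := hle v
      have h2 : (low G v).card < m := by omega
      have hn' : (low G v).card < n := by have := v.isLt; omega
      have h3 := ih _ h2 ⟨(low G v).card, hn'⟩ rfl (by omega)
      have h4 := huniq v ⟨(low G v).card, hn'⟩ (by omega) h3.symm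
      have h5 := congrArg Fin.val h4
      simp only at h5
      omega
  refine ⟨?_, ?_⟩
  · obtain ⟨x, hx⟩ := Finset.card_eq_one.mp (hone j le_rfl)
    have h1 : x ∈ Finset.univ.filter (fun v : Fin n => (low G v).card = j) := by
      rw [hx]; exact Finset.mem_singleton_self _
    have h2 := (Finset.mem_filter.mp h1).2
    have h3 := hle x
    have := x.isLt
    omega
  · intro v
    rcases le_or_gt v.val j with h | h
    · rw [hsmall v.val v rfl h]
      exact min_le_left _ _
    · refine (min_le_right _ _).trans ?_
      by_contra hcon
      have h2 : (low G v).card ≤ j := by omega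
      have hn' : (low G v).card < n := by have := v.isLt; omega
      have h3 := hsmall (low G v).card ⟨(low G v).card, hn'⟩ rfl h2
      have h4 := huniq v ⟨(low G v).card, hn'⟩ h2 h3.symm
      have h5 := congrArg Fin.val h4
      simp only at h5
      omega

end

end Pool.Agent.Lib.MP_af28a5_co
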