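import Pool.Agent.Lib.MP_af28a5_co.Glue

/-!
Cones: from a `j`-acyclic complex without a partition into intervals of length `j + 1`
to a `(j + 1)`-acyclic complex without a partition into intervals of length `j + 2`.
-/

namespace Pool.Agent.Lib.MP_af28a5_co

open Finset

variable {n : ℕ}

/-- the inclusion of `Fin n` in `Fin (n + 1)` -/
def inc : Fin n ↪ Fin (n + 1) := ⟨Fin.castSucc, Fin.castSucc_injective n⟩

theorem last_notMem (F : Finset (Fin n)) : Fin.last n ∉ F.map inc := by
  intro h
  rw [Finset.mem_map] at h
  obtain ⟨v, _, hv⟩ := h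
  exact (Fin.castSucc_lt_last v).ne hv

/-- the cone over `Δ` with apex the last vertex -/
def cone (Δ : Finset (Finset (Fin n))) : Finset (Finset (Fin (n + 1))) :=
  Δ.image (fun F => F.map inc) ∪ Δ.image (fun F => insert (Fin.last n) (F.map inc))

theorem mem_cone {Δ : Finset (Finset (Fin n))} {F : Finset (Fin (n + 1))} :
    F ∈ cone Δ ↔ (∃ G ∈ Δ, G.map inc = F) ∨ ∃ G ∈ Δ, insert (Fin.last n) (G.map inc) = F := by
  simp [cone]

theorem map_mem_cone {Δ : Finset (Finset (Fin n))} {F : Finset (Fin n)} :
    F.map inc ∈ cone Δ ↔ F ∈ Δ := by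
  rw [mem_cone]
  constructor
  · rintro (⟨G, hG, h⟩ | ⟨G, hG, h⟩)
    · rw [Finset.map_inj] at h
      exact h ▸ hG
    · exact absurd (h ▸ Finset.mem_insert_self _ _) (last_notMem F)
  · intro h
    exact Or.inl ⟨F, h, rfl⟩

theorem insert_map_mem_cone {Δ : Finset (Finset (Fin n))} {F : Finset (Fin n)} :
    insert (Fin.last n) (F.map inc) ∈ cone Δ ↔ F ∈ Δ := by
  rw [mem_cone]
  constructor
  · rintro (⟨G, hG, h⟩ | ⟨G, hG, h⟩)
    · exact absurd (h.symm ▸ Finset.mem_insert_self _ _) (last_notMem G)
    · have h1 : G.map inc = F.map inc := by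
        rw [← Finset.erase_insert (last_notMem G), ← Finset.erase_insert (last_notMem F), h]
      rw [Finset.map_inj] at h1
      exact h1 ▸ hG
  · intro h
    exact Or.inr ⟨F, h, rfl⟩

/-- every set is of one of the two forms -/
theorem form (F : Finset (Fin (n + 1))) :
    (∃ G : Finset (Fin n), G.map inc = F) ∨
      ∃ G : Finset (Fin n), insert (Fin.last n) (G.map inc) = F := by
  have key : ∀ F : Finset (Fin (n + 1)), Fin.last n ∉ F →
      ∃ G : Finset (Fin n), G.map inc = F := by
    intro F hF
    refine ⟨Finset.univ.filter (fun v => Fin.castSucc v ∈ F), ?_⟩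
    ext v
    simp only [Finset.mem_map, Finset.mem_filter, Finset.mem_univ, true_and]
    constructor
    · rintro ⟨u, hu, rfl⟩
      exact hu
    · intro hv
      have hne : v ≠ Fin.last n := fun h => hF (h ▸ hv)
      obtain ⟨u, rfl⟩ := Fin.exists_castSucc_eq.mpr hne
      exact ⟨u, hv, rfl⟩
  by_cases h : Fin.last n ∈ F
  · obtain ⟨G, hG⟩ := key (F.erase (Fin.last n)) (Finset.notMem_erase _ _)
    exact Or.inr ⟨G, by rw [hG, Finset.insert_erase h]⟩
  · exact Or.inl (key F h)

theorem isComplex_cone {Δ : Finset (Finset (Fin n))} (h : IsComplex Δ) :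
    IsComplex (cone Δ) := by
  obtain ⟨h0, h1⟩ := h
  refine ⟨mem_cone.mpr (Or.inl ⟨∅, h0, by simp⟩), ?_⟩
  intro F hF G hGF
  have key : ∀ F' ∈ Δ, G ⊆ insert (Fin.last n) (F'.map inc) → G ∈ cone Δ := by
    intro F' hF' hG
    rcases form G with ⟨G', rfl⟩ | ⟨G', rfl⟩
    · rw [map_mem_cone]
      refine h1 F' hF' G' ?_
      rw [← Finset.map_subset_map (f := inc)]
      intro v hv
      have := hG hv
      rw [Finset.mem_insert] at this
      rcases this with h | h
      · exact absurd (h ▸ hv) (last_notMem G')
      · exact h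
    · rw [insert_map_mem_cone]
      refine h1 F' hF' G' ?_
      rw [← Finset.map_subset_map (f := inc)]
      intro v hv
      have := hG (Finset.mem_insert_of_mem hv)
      rw [Finset.mem_insert] at this
      rcases this with h | h
      · exact absurd (h ▸ hv) (last_notMem G')
      · exact h
  rcases mem_cone.mp hF with ⟨F', hF', rfl⟩ | ⟨F', hF', rfl⟩
  · exact key F' hF' (hGF.trans (Finset.subset_insert _ _))
  · exact key F' hF' hGF

theorem card_cone {Δ : Finset (Finset (Fin n))} {m : ℕ} (h : ∀ F ∈ Δ, F.card ≤ m) :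
    ∀ F ∈ cone Δ, F.card ≤ m + 1 := by
  intro F hF
  rcases mem_cone.mp hF with ⟨F', hF', rfl⟩ | ⟨F', hF', rfl⟩
  · rw [Finset.card_map]
    exact (h F' hF').trans (Nat.le_succ m)
  · rw [Finset.card_insert_of_notMem (last_notMem F'), Finset.card_map]
    exact Nat.succ_le_succ (h F' hF')

/-- links of small faces are obtained by elementary expansions -/
def JExp (j : ℕ) (Δ : Finset (Finset (Fin n))) : Prop :=
  ∀ F ∈ Δ, F.card ≤ j → Exp ∅ (link Δ F : Set (Finset (Fin n)))

theorem mem_link {Δ : Finset (Finset (Fin n))} {F G : Finset (Fin n)} :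
    G ∈ link Δ F ↔ G ∈ Δ ∧ G ∩ F = ∅ ∧ G ∪ F ∈ Δ := by
  simp [link]

theorem inter_map (G F : Finset (Fin n)) : G.map inc ∩ F.map inc = ∅ ↔ G ∩ F = ∅ := by
  rw [← Finset.map_inter, Finset.map_eq_empty]

theorem insert_inter_map (G F : Finset (Fin n)) :
    insert (Fin.last n) (G.map inc) ∩ F.map inc = ∅ ↔ G ∩ F = ∅ := by
  rw [Finset.insert_inter_of_notMem (last_notMem F), inter_map]

theorem jexp_cone {Δ : Finset (Finset (Fin n))} (h : IsComplex Δ) {j : ℕ} (hj : JExp j Δ) :
    JExp (j + 1) (cone Δ) := by
  intro F hF hc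
  rcases mem_cone.mp hF with ⟨F', hF', rfl⟩ | ⟨F', hF', rfl⟩
  · -- the link is a cone
    have h1 := Exp.cone (Fin.last n) _ ((link Δ F').image (fun F => F.map inc)) rfl
      (by
        intro A hA B hB
        rw [Finset.mem_image] at hA ⊢
        obtain ⟨A', hA', rfl⟩ := hA
        obtain ⟨B', hB', rfl⟩ := Finset.subset_map_iff.mp hB
        refine ⟨B', ?_, rfl⟩
        rw [mem_link] at hA' ⊢
        refine ⟨h.2 _ hA'.1 _ hB', ?_, h.2 _ hA'.2.2 _ (Finset.union_subset_union_left hB')⟩
        rw [← Finset.subset_empty, ← hA'.2.1]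
        exact Finset.inter_subset_inter_right hB')
      (by
        intro A hA
        rw [Finset.mem_image] at hA
        obtain ⟨A', hA', rfl⟩ := hA
        exact last_notMem A')
    have h2 : ({G | G ∈ (link Δ F').image (fun F => F.map inc) ∨
        ∃ F ∈ (link Δ F').image (fun F => F.map inc), insert (Fin.last n) F = G} :
          Set (Finset (Fin (n + 1)))) = (link (cone Δ) (F'.map inc) : Set _) := by
      ext G
      rw [Set.mem_ofPred_eq, Finset.mem_coe, mem_link]
      constructor
      · rintro (hG | ⟨A, hA, rfl⟩)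
        · rw [Finset.mem_image] at hG
          obtain ⟨G', hG', rfl⟩ := hG
          rw [mem_link] at hG'
          refine ⟨map_mem_cone.mpr hG'.1, (inter_map _ _).mpr hG'.2.1, ?_⟩
          rw [← Finset.map_union]
          exact map_mem_cone.mpr hG'.2.2
        · rw [Finset.mem_image] at hA
          obtain ⟨G', hG', rfl⟩ := hA
          rw [mem_link] at hG'
          refine ⟨insert_map_mem_cone.mpr hG'.1, (insert_inter_map _ _).mpr hG'.2.1, ?_⟩
          rw [Finset.insert_union, ← Finset.map_union]
          exact insert_map_mem_cone.mpr hG'.2.2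
      · rintro ⟨g1, g2, g3⟩
        rcases form G with ⟨G', rfl⟩ | ⟨G', rfl⟩
        · refine Or.inl (Finset.mem_image.mpr ⟨G', ?_, rfl⟩)
          rw [mem_link]
          refine ⟨map_mem_cone.mp g1, (inter_map _ _).mp g2, ?_⟩
          rw [← Finset.map_union] at g3
          exact map_mem_cone.mp g3
        · refine Or.inr ⟨G'.map inc, Finset.mem_image.mpr ⟨G', ?_, rfl⟩, rfl⟩
          rw [mem_link]
          refine ⟨insert_map_mem_cone.mp g1, (insert_inter_map _ _).mp g2, ?_⟩
          rw [Finset.insert_union, ← Finset.map_union] at g3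
          exact insert_map_mem_cone.mp g3
    rw [← h2]
    exact h1
  · have h0 : F'.card ≤ j := by
      rw [Finset.card_insert_of_notMem (last_notMem F'), Finset.card_map] at hc
      omega
    have h1 := Exp.map inc (hj F' hF' h0) ∅ (fun F hF => absurd hF (Set.notMem_empty F))
        (fun F _ _ => Set.notMem_empty _)
    have h2 : ((∅ : Set (Finset (Fin (n + 1)))) ∪
        {G | ∃ F ∈ (link Δ F' : Set (Finset (Fin n))), F.map inc = G}) =
        (link (cone Δ) (insert (Fin.last n) (F'.map inc)) : Set _) := by
      ext G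
      rw [Set.empty_union, Set.mem_ofPred_eq, Finset.mem_coe, mem_link]
      constructor
      · rintro ⟨G', hG', rfl⟩
        rw [Finset.mem_coe, mem_link] at hG'
        refine ⟨map_mem_cone.mpr hG'.1, ?_, ?_⟩
        · rw [Finset.inter_comm, insert_inter_map, Finset.inter_comm]
          exact hG'.2.1
        · rw [Finset.union_insert, ← Finset.map_union]
          exact insert_map_mem_cone.mpr hG'.2.2
      · rintro ⟨g1, g2, g3⟩
        rcases form G with ⟨G', rfl⟩ | ⟨G', rfl⟩
        · refine ⟨G', ?_, rfl⟩
          rw [Finset.mem_coe, mem_link]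
          refine ⟨map_mem_cone.mp g1, ?_, ?_⟩
          · rw [Finset.inter_comm, insert_inter_map, Finset.inter_comm] at g2
            exact g2
          · rw [Finset.union_insert, ← Finset.map_union] at g3
            exact insert_map_mem_cone.mp g3
        · exfalso
          have : Fin.last n ∈ insert (Fin.last n) (G'.map inc) ∩
              insert (Fin.last n) (F'.map inc) :=
            Finset.mem_inter.mpr ⟨Finset.mem_insert_self _ _, Finset.mem_insert_self _ _⟩
          rw [g2] at this
          exact Finset.notMem_empty _ this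
    rw [← h2]
    exact h1

theorem assign_of_cone {Δ : Finset (Finset (Fin n))} (hΔ : IsComplex Δ) {r : ℕ}
    (h : ∃ g, IsAssign (r + 1) (cone Δ) g) : ∃ g, IsAssign r Δ g := by
  classical
  obtain ⟨g, hg⟩ := h
  let pull : Finset (Fin (n + 1)) → Finset (Fin n) :=
    fun S => Finset.univ.filter (fun v => inc v ∈ S)
  have hpull : ∀ F : Finset (Fin n), pull (F.map inc) = F := by
    intro F
    ext v
    simp [pull]
  have hpull' : ∀ F : Finset (Fin n), pull (insert (Fin.last n) (F.map inc)) = F := by
    intro F
    ext v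
    have : inc v ≠ Fin.last n := (Fin.castSucc_lt_last v).ne
    simp [pull, this]
  let G : Finset (Fin n) → Finset (Fin n) × Finset (Fin n) := fun H =>
    if Fin.last n ∈ (g (H.map inc)).2 then
      (pull (g (H.map inc)).1, pull (g (H.map inc)).2)
    else if hne : (pull (g (H.map inc)).2 \ pull (g (H.map inc)).1).Nonempty then
      (if hne.choose ∈ H then (insert hne.choose (pull (g (H.map inc)).1), pull (g (H.map inc)).2)
        else (pull (g (H.map inc)).1, (pull (g (H.map inc)).2).erase hne.choose))
    else (∅, ∅)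
  refine ⟨G, fun H hH => ?_⟩
  obtain ⟨a1, a2, a3, a4, a5⟩ := hg _ (map_mem_cone.mpr hH)
  obtain ⟨B, hB, hB'⟩ := Finset.subset_map_iff.mp a1
  rcases mem_cone.mp a3 with ⟨T, hT, hTe⟩ | ⟨T, hT, hTe⟩
  · -- the apex is not in the interval
    have hlast : Fin.last n ∉ (g (H.map inc)).2 := by
      rw [← hTe]; exact last_notMem T
    have hcard : (T \ B).card = r + 1 := by
      rw [← hTe, hB', ← Finset.map_sdiff, Finset.card_map] at a4
      exact a4
    have hHT : H ⊆ T := by
      rw [← hTe] at a2
      exact Finset.map_subset_map.mp a2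
    have hp : g (H.map inc) = (B.map inc, T.map inc) := by
      rw [hTe, ← hB']
    have hne : (T \ B).Nonempty := by
      rw [← Finset.card_pos]; omega
    have hGen : ∀ H' : Finset (Fin n), g (H'.map inc) = (B.map inc, T.map inc) →
        G H' = if hne.choose ∈ H' then (insert hne.choose B, T)
          else (B, T.erase hne.choose) := by
      intro H' hH'
      simp only [G]
      simp only [hH', hpull, last_notMem T, if_false]
      rw [dif_pos hne]
    have hx : hne.choose ∈ T \ B := hne.choose_spec
    set x := hne.choose with hxdef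
    rw [Finset.mem_sdiff] at hx
    have hin : ∀ H', B ⊆ H' → H' ⊆ T → g (H'.map inc) = (B.map inc, T.map inc) := by
      intro H' h7 h8
      rw [hp] at a5
      exact a5 (H'.map inc) (Finset.map_subset_map.mpr h7) (Finset.map_subset_map.mpr h8)
    rw [hGen H hp]
    by_cases hxH : x ∈ H
    · rw [if_pos hxH]
      refine ⟨Finset.insert_subset hxH hB, hHT, hT, ?_, ?_⟩
      · have : T \ insert x B = (T \ B).erase x := by
          rw [Finset.sdiff_insert]
        rw [this, Finset.card_erase_of_mem (Finset.mem_sdiff.mpr hx), hcard]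
        rfl
      · intro H' h7 h8
        rw [hGen H' (hin H' ((Finset.subset_insert _ _).trans h7) h8),
          if_pos (h7 (Finset.mem_insert_self _ _))]
    · rw [if_neg hxH]
      refine ⟨hB, ?_, ?_, ?_, ?_⟩
      · intro v hv
        exact Finset.mem_erase.mpr ⟨fun h => hxH (h ▸ hv), hHT hv⟩
      · exact hΔ.2 T hT _ (Finset.erase_subset _ _)
      · have : T.erase x \ B = (T \ B).erase x := by
          rw [Finset.erase_sdiff_comm]
        rw [this, Finset.card_erase_of_mem (Finset.mem_sdiff.mpr hx), hcard]
        rfl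
      · intro H' h7 h8
        rw [hGen H' (hin H' h7 (h8.trans (Finset.erase_subset _ _))),
          if_neg (fun h => Finset.notMem_erase x T (h8 h))]
  · -- the apex is in the top of the interval
    have hcard : (T \ B).card = r := by
      rw [← hTe, hB', Finset.insert_sdiff_of_notMem _ (last_notMem B), ← Finset.map_sdiff,
        Finset.card_insert_of_notMem (last_notMem _), Finset.card_map] at a4
      omega
    have hHT : H ⊆ T := by
      rw [← hTe] at a2
      rw [← Finset.map_subset_map (f := inc)]
      intro v hv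
      have := a2 hv
      rw [Finset.mem_insert] at this
      rcases this with h | h
      · exact absurd (h ▸ hv) (last_notMem H)
      · exact h
    have hp : g (H.map inc) = (B.map inc, insert (Fin.last n) (T.map inc)) := by
      rw [hTe, ← hB']
    have hGen : ∀ H' : Finset (Fin n),
        g (H'.map inc) = (B.map inc, insert (Fin.last n) (T.map inc)) → G H' = (B, T) := by
      intro H' hH'
      simp only [G]
      simp only [hH', hpull, hpull', Finset.mem_insert_self, if_true]
    rw [hGen H hp]
    refine ⟨hB, hHT, hT, hcard, ?_⟩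
    intro H' h7 h8
    rw [hp] at a5
    exact hGen H' (a5 (H'.map inc) (Finset.map_subset_map.mpr h7)
      ((Finset.map_subset_map.mpr h8).trans (Finset.subset_insert _ _)))

end Pool.Agent.Lib.MP_af28a5_co
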