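import Mathlib

/-!
Definitions for the problem on partitioning `j`-acyclic simplicial complexes into
boolean intervals.
-/

namespace Pool.Agent.Lib.MP_af28a5_co

/-- `Δ` is a (finite, nonvoid) simplicial complex with vertices in `Fin n`: it contains the
empty face and is closed under taking subsets. -/
def IsComplex {n : ℕ} (Δ : Finset (Finset (Fin n))) : Prop :=
  ∅ ∈ Δ ∧ ∀ F ∈ Δ, ∀ G, G ⊆ F → G ∈ Δ

/-- The simplicial boundary of a chain `c` (a function on all subsets of the vertex set), in the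
augmented chain complex: the coefficient at `G` is the signed sum of the coefficients of `c` at
all faces `insert v G`, the sign being `(-1)` to the number of elements of `G` below `v`. -/
def boundary {k : Type*} [Field k] {n : ℕ} (c : Finset (Fin n) → k) (G : Finset (Fin n)) : k :=
  ∑ v ∈ Gᶜ, (-1 : k) ^ (G.filter (fun w => w < v)).card * c (insert v G)

/-- `Δ` is acyclic over `k`: every cycle supported on `Δ` is the boundary of a chain
supported on `Δ` (in all degrees, including degree `-1`). -/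
def Acyclic (k : Type*) [Field k] {n : ℕ} (Δ : Finset (Finset (Fin n))) : Prop :=
  ∀ c : Finset (Fin n) → k, (∀ F, F ∉ Δ → c F = 0) → (∀ G, boundary c G = 0) →
    ∃ d : Finset (Fin n) → k, (∀ F, F ∉ Δ → d F = 0) ∧ ∀ G, c G = boundary d G

/-- The link of `F` in `Δ`. -/
def link {n : ℕ} (Δ : Finset (Finset (Fin n))) (F : Finset (Fin n)) : Finset (Finset (Fin n)) :=
  Δ.filter (fun G => G ∩ F = ∅ ∧ G ∪ F ∈ Δ)

/-- `Δ` is `j`-acyclic over `k`: the link of every face with at most `j` elements is acyclic. -/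
def IsJAcyclic (k : Type*) [Field k] (j : ℕ) {n : ℕ} (Δ : Finset (Finset (Fin n))) : Prop :=
  ∀ F ∈ Δ, F.card ≤ j → Acyclic k (link Δ F)

/-- `Δ` is a disjoint union of intervals `[F, F']` of length `r` of its face poset: there is a
finite set `P` of pairs `(F, F')` with `F ⊆ F' ∈ Δ` and `|F' \ F| = r` such that every face `H`
of `Δ` lies in exactly one of the intervals. -/
def IsUnionOfIntervals (r : ℕ) {n : ℕ} (Δ : Finset (Finset (Fin n))) : Prop :=
  ∃ P : Finset (Finset (Fin n) × Finset (Fin n)),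
    (∀ p ∈ P, p.1 ⊆ p.2 ∧ p.2 ∈ Δ ∧ (p.2 \ p.1).card = r) ∧
    ∀ H ∈ Δ, ∃! p, p ∈ P ∧ p.1 ⊆ H ∧ H ⊆ p.2

/-- `P` is a family of pairwise disjoint intervals `[F, F']` of `Δ`, each of length at
least `r`: `F ⊆ F' ∈ Δ` and `r ≤ |F' \ F|` for all pairs `(F, F')` in `P`, and no set lies
in two of the intervals. -/
def IsPacking (r : ℕ) {n : ℕ} (Δ : Finset (Finset (Fin n)))
    (P : Finset (Finset (Fin n) × Finset (Fin n))) : Prop :=
  (∀ p ∈ P, p.1 ⊆ p.2 ∧ p.2 ∈ Δ ∧ r ≤ (p.2 \ p.1).card) ∧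
    ∀ p ∈ P, ∀ q ∈ P, ∀ H, p.1 ⊆ H → H ⊆ p.2 → q.1 ⊆ H → H ⊆ q.2 → p = q

/-- The faces of `Δ` that lie in no interval `[F, F']` with `(F, F') ∈ P`. -/
def uncovered {n : ℕ} (Δ : Finset (Finset (Fin n)))
    (P : Finset (Finset (Fin n) × Finset (Fin n))) : Finset (Finset (Fin n)) :=
  Δ.filter (fun H => ∀ p ∈ P, ¬ (p.1 ⊆ H ∧ H ⊆ p.2))

end Pool.Agent.Lib.MP_af28a5_co
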