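import Pool.Agent.Lib.MP_af28a5_co.Homol

/-!
`j`-acyclic complexes of dimension at most `j + 1` can be partitioned into intervals of
length `j + 1` whose bottoms form a subcomplex.
-/

set_option autoImplicit false

namespace Pool.Agent.Lib.MP_af28a5_co

open Finset

section

variable {k : Type*} [Field k] {n : ℕ}

theorem mem_link' {Δ : Finset (Finset (Fin n))} {F G : Finset (Fin n)} :
    G ∈ link Δ F ↔ G ∈ Δ ∧ G ∩ F = ∅ ∧ G ∪ F ∈ Δ := by
  simp [link]

theorem link_closed {Δ : Finset (Finset (Fin n))} (hC : IsComplex Δ) (F : Finset (Fin n)) :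
    ∀ G ∈ link Δ F, ∀ H, H ⊆ G → H ∈ link Δ F := by
  intro G hG H hH
  rw [mem_link'] at hG ⊢
  refine ⟨hC.2 _ hG.1 _ hH, ?_, hC.2 _ hG.2.2 _ (Finset.union_subset_union_left hH)⟩
  exact Finset.subset_empty.mp (hG.2.1 ▸ Finset.inter_subset_inter_right hH)

theorem empty_mem_link {Δ : Finset (Finset (Fin n))} (hC : IsComplex Δ) {F : Finset (Fin n)}
    (hF : F ∈ Δ) : ∅ ∈ link Δ F := by
  rw [mem_link']
  exact ⟨hC.1, Finset.empty_inter _, by rwa [Finset.empty_union]⟩

theorem singleton_mem_link {Δ : Finset (Finset (Fin n))} (hC : IsComplex Δ)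
    {F : Finset (Fin n)} {v : Fin n} :
    {v} ∈ link Δ F ↔ v ∉ F ∧ insert v F ∈ Δ := by
  rw [mem_link', Finset.insert_eq v F]
  constructor
  · rintro ⟨_, h2, h3⟩
    refine ⟨fun h => ?_, h3⟩
    have : v ∈ ({v} : Finset (Fin n)) ∩ F := by simp [h]
    rw [h2] at this
    exact Finset.notMem_empty _ this
  · rintro ⟨h1, h2⟩
    exact ⟨hC.2 _ h2 _ Finset.subset_union_left, Finset.singleton_inter_of_notMem h1, h2⟩

theorem pair_mem_link {Δ : Finset (Finset (Fin n))}
    {F : Finset (Fin n)} {v w : Fin n} (h : {v, w} ∈ link Δ F) :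
    v ∉ F ∧ w ∉ F ∧ insert v (insert w F) ∈ Δ := by
  rw [mem_link'] at h
  obtain ⟨_, h2, h3⟩ := h
  refine ⟨fun h => ?_, fun h => ?_, ?_⟩
  · have : v ∈ ({v, w} : Finset (Fin n)) ∩ F := by simp [h]
    rw [h2] at this
    exact Finset.notMem_empty _ this
  · have : w ∈ ({v, w} : Finset (Fin n)) ∩ F := by simp [h]
    rw [h2] at this
    exact Finset.notMem_empty _ this
  · have e : ({v, w} : Finset (Fin n)) ∪ F = insert v (insert w F) := by
      ext x; simp
    rwa [e] at h3

/-- faces of size at most `j + 1` extend to faces of size `j + 1` -/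
theorem exists_ridge {Δ : Finset (Finset (Fin n))} (hC : IsComplex Δ) {j : ℕ}
    (hJ : IsJAcyclic k j Δ) : ∀ i : ℕ, ∀ F ∈ Δ, F.card + i = j + 1 →
      ∃ E ∈ Δ, F ⊆ E ∧ E.card = j + 1 := by
  intro i
  induction i with
  | zero => exact fun F hF h => ⟨F, hF, subset_rfl, h⟩
  | succ i ih =>
    intro F hF h
    obtain ⟨v, hv⟩ := exists_vertex (empty_mem_link hC hF) (hJ F hF (by omega))
    rw [singleton_mem_link hC] at hv
    obtain ⟨E, hE, hFE, hEc⟩ := ih (insert v F) hv.2
      (by rw [Finset.card_insert_of_notMem hv.1]; omega)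
    exact ⟨E, hE, (Finset.subset_insert _ _).trans hFE, hEc⟩

/-- any two ridges are connected through facets -/
theorem ridge_connected {Δ : Finset (Finset (Fin n))} (hC : IsComplex Δ) {j : ℕ}
    (hJ : IsJAcyclic k j Δ) (s : Finset (Fin n) → Prop)
    (hs : ∀ t ∈ Δ, t.card = j + 2 → ∀ e e', e ⊆ t → e' ⊆ t → e.card = j + 1 →
      e'.card = j + 1 → s e → s e') :
    ∀ i : ℕ, ∀ F ∈ Δ, F.card + i = j + 1 → ∀ E ∈ Δ, ∀ E' ∈ Δ, F ⊆ E → F ⊆ E' →
      E.card = j + 1 → E'.card = j + 1 → s E → s E' := by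
  intro i
  induction i with
  | zero =>
    intro F _ h E _ E' _ h1 h2 h3 h4 h5
    have e1 : F = E := Finset.eq_of_subset_of_card_le h1 (by omega)
    have e2 : F = E' := Finset.eq_of_subset_of_card_le h2 (by omega)
    rwa [← e2, e1]
  | succ i ih =>
    intro F hF h E hE E' hE' h1 h2 h3 h4 h5
    obtain ⟨v, hv, hv'⟩ : ∃ v ∈ E, v ∉ F := by
      by_contra hcon
      push Not at hcon
      have := Finset.card_le_card (show E ⊆ F from hcon)
      omega
    obtain ⟨w, hw, hw'⟩ : ∃ w ∈ E', w ∉ F := by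
      by_contra hcon
      push Not at hcon
      have := Finset.card_le_card (show E' ⊆ F from hcon)
      omega
    have hv1 : insert v F ⊆ E := Finset.insert_subset hv h1
    have hw1 : insert w F ⊆ E' := Finset.insert_subset hw h2
    have key := vertex_connected (hJ F hF (by omega))
      (fun x => ∀ G ∈ Δ, insert x F ⊆ G → G.card = j + 1 → s G) (by
        intro x y hxy hxyL hx G hG hyG hGc
        obtain ⟨hx1, hy1, hxyΔ⟩ := pair_mem_link hxyL
        have cx : (insert x F).card = F.card + 1 := Finset.card_insert_of_notMem hx1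
        have cy : (insert y F).card = F.card + 1 := Finset.card_insert_of_notMem hy1
        have cxy : (insert x (insert y F)).card = F.card + 2 := by
          rw [Finset.card_insert_of_notMem, cy]
          simp [hxy, hx1]
        have sx : insert x F ⊆ insert x (insert y F) :=
          Finset.insert_subset_insert _ (Finset.subset_insert _ _)
        have sy : insert y F ⊆ insert x (insert y F) := Finset.subset_insert _ _
        have dx : insert x F ∈ Δ := hC.2 _ hxyΔ _ sx
        have dy : insert y F ∈ Δ := hC.2 _ hxyΔ _ sy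
        rcases Nat.eq_zero_or_pos i with hi | hi
        · subst hi
          have e : G = insert y F := (Finset.eq_of_subset_of_card_le hyG (by omega)).symm
          rw [e]
          exact hs _ hxyΔ (by omega) _ _ sx sy (by omega) (by omega)
            (hx _ dx subset_rfl (by omega))
        · obtain ⟨H, hH, hH1, hH2⟩ := exists_ridge hC hJ (i - 1) _ hxyΔ (by omega)
          exact ih (insert y F) dy (by omega) H hH G hG (sy.trans hH1) hyG hH2 hGc
            (hx H hH (sx.trans hH1) hH2)) v w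
      ((singleton_mem_link hC).2 ⟨hv', hC.2 _ hE _ hv1⟩)
      ((singleton_mem_link hC).2 ⟨hw', hC.2 _ hE' _ hw1⟩)
      (by
        intro G hG hG1 hG2
        exact ih (insert v F) (hC.2 _ hE _ hv1)
          (by rw [Finset.card_insert_of_notMem hv']; omega) E hE G hG hv1 hG1 h3 hG2 h5)
    exact key E' hE' hw1 h4

/-- a level function on the ridges -/
theorem exists_level {Δ : Finset (Finset (Fin n))} (hC : IsComplex Δ) {j : ℕ}
    (hJ : IsJAcyclic k j Δ) (e₀ : Finset (Fin n)) (he₀ : e₀ ∈ Δ) (hc₀ : e₀.card = j + 1) :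
    ∃ lev : Finset (Fin n) → ℕ, (∀ e ∈ Δ, e.card = j + 1 → e ≠ e₀ →
      ∃ t ∈ Δ, t.card = j + 2 ∧ e ⊆ t ∧ ∃ e' ⊆ t, e'.card = j + 1 ∧ lev e' < lev e) := by
  classical
  let R : ℕ → Finset (Fin n) → Prop := fun i => Nat.rec (fun e => e = e₀)
    (fun _ P e => P e ∨ ∃ t ∈ Δ, t.card = j + 2 ∧ e ⊆ t ∧ ∃ e' ⊆ t, e'.card = j + 1 ∧ P e') i
  have hall : ∀ e ∈ Δ, e.card = j + 1 → ∃ i, R i e := by
    intro e he hec
    refine ridge_connected hC hJ (fun e => ∃ i, R i e) ?_ (j + 1) ∅ hC.1 (by simp) e₀ he₀ e he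
      (Finset.empty_subset _) (Finset.empty_subset _) hc₀ hec ⟨0, rfl⟩
    rintro t ht htc e e' h1 h2 h3 _ ⟨i, hi⟩
    exact ⟨i + 1, Or.inr ⟨t, ht, htc, h2, e, h1, h3, hi⟩⟩
  refine ⟨fun e => sInf {i | R i e}, ?_⟩
  intro e he hec hne
  have hx : {i | R i e}.Nonempty := hall e he hec
  have hf : R (sInf {i | R i e}) e := Nat.sInf_mem hx
  obtain ⟨i, hi⟩ : ∃ i, sInf {i | R i e} = i + 1 := by
    cases hz : sInf {i | R i e} with
    | zero =>
      rw [hz] at hf
      exact absurd hf hne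
    | succ i => exact ⟨i, rfl⟩
  rw [hi] at hf
  rcases hf with hf | ⟨t, ht, htc, het, e', he't, he'c, he'⟩
  · have : i ∉ {i | R i e} := Nat.notMem_of_lt_sInf (by omega)
    exact absurd hf this
  · refine ⟨t, ht, htc, het, e', he't, he'c, ?_⟩
    have : sInf {i | R i e'} ≤ i := Nat.sInf_le he'
    dsimp only
    omega

end

end Pool.Agent.Lib.MP_af28a5_co
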