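import Pool.Agent.Lib.MP_af28a5_co.Attach

/-!
Complexes all of whose edges lie in empty triangles.
-/

set_option autoImplicit false

namespace Pool.Agent.Lib.MP_af28a5_co

open Finset

/-- every edge of `Δ` lies in an empty triangle -/
def EdgesInEmptyTriangles {n : ℕ} (Δ : Finset (Finset (Fin n))) : Prop :=
  ∀ a b : Fin n, a ≠ b → ({a, b} : Finset (Fin n)) ∈ Δ → ∃ v, v ≠ a ∧ v ≠ b ∧
    ({a, v} : Finset (Fin n)) ∈ Δ ∧ ({b, v} : Finset (Fin n)) ∈ Δ ∧
      ({a, b, v} : Finset (Fin n)) ∉ Δ

theorem small_of_emptyTriangles {n : ℕ} {Δ : Finset (Finset (Fin n))} (hΔ : IsComplex Δ)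
    (h : EdgesInEmptyTriangles Δ) (P : Finset (Finset (Fin n) × Finset (Fin n)))
    (h1 : ∀ p ∈ P, p.1 ⊆ p.2 ∧ p.2 ∈ Δ) (h2 : ∀ H ∈ Δ, ∃! p, p ∈ P ∧ p.1 ⊆ H ∧ H ⊆ p.2)
    (h3 : ∀ p ∈ P, ∀ G, G ⊆ p.1 → ∃ q ∈ P, q.1 = G) :
    ∀ p ∈ P, p.1 = ∅ → p.2.card ≤ 1 := by
  intro p hp hp0
  by_contra hcon
  obtain ⟨a, ha, b, hb, hab⟩ := Finset.one_lt_card.mp (by omega : 1 < p.2.card)
  have a2 := (h1 p hp).2
  obtain ⟨v, hva, hvb, e1, e2, e3⟩ := h a b hab (hΔ.2 _ a2 _ (by
    intro x hx
    rw [Finset.mem_insert, Finset.mem_singleton] at hx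
    rcases hx with rfl | rfl
    · exact ha
    · exact hb))
  have hvp : v ∉ p.2 := by
    intro hv
    refine e3 (hΔ.2 _ a2 _ ?_)
    intro x hx
    simp only [Finset.mem_insert, Finset.mem_singleton] at hx
    rcases hx with rfl | rfl | rfl
    · exact ha
    · exact hb
    · exact hv
  obtain ⟨p', hp', hpu⟩ := h2 ∅ hΔ.1
  have hpp : p = p' := hpu p ⟨hp, by rw [hp0], Finset.empty_subset _⟩
  subst hpp
  -- an interval with empty bottom is `p`
  have hemp : ∀ q ∈ P, q.1 = ∅ → q = p := by
    intro q hq h0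
    exact hpu q ⟨hq, by rw [h0], Finset.empty_subset _⟩
  -- no bottom meets the top of `p`
  have hbot : ∀ q ∈ P, ∀ x ∈ p.2, x ∉ q.1 := by
    intro q hq x hx hxq
    obtain ⟨r, hr, hr1⟩ := h3 q hq {x} (Finset.singleton_subset_iff.mpr hxq)
    have hxΔ : ({x} : Finset (Fin n)) ∈ Δ :=
      hΔ.2 _ a2 _ (Finset.singleton_subset_iff.mpr hx)
    obtain ⟨s, _, hs⟩ := h2 {x} hxΔ
    have e1 := hs r ⟨hr, by rw [hr1], by rw [← hr1]; exact (h1 r hr).1⟩
    have e2 := hs p ⟨hp, by rw [hp0]; exact Finset.empty_subset _,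
      Finset.singleton_subset_iff.mpr hx⟩
    have e3 : r = p := e1.trans e2.symm
    rw [e3, hp0] at hr1
    exact (Finset.singleton_ne_empty x) hr1.symm
  have hvΔ : ({v} : Finset (Fin n)) ∈ Δ := hΔ.2 _ e1 _ (by simp)
  obtain ⟨q, ⟨hq, hq1, hq2⟩, hqu⟩ := h2 {v} hvΔ
  have key : ∀ x ∈ p.2, ({x, v} : Finset (Fin n)) ∈ Δ → x ∈ q.2 := by
    intro x hx hxv
    obtain ⟨r, ⟨hr, hr1, hr2⟩, _⟩ := h2 _ hxv
    have hr3 : r.1 ⊆ {v} := by
      intro y hy
      have h4 := hr1 hy
      rw [Finset.mem_insert] at h4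
      rcases h4 with h4 | h4
      · exact absurd (h4 ▸ hy) (hbot r hr x hx)
      · exact h4
    have hvr : v ∈ r.2 := hr2 (by simp)
    have hr4 : r = q := by
      rcases Finset.subset_singleton_iff.mp hr3 with h0 | h0
      · exfalso
        have := hemp r hr h0
        rw [this] at hvr
        exact hvp hvr
      · exact hqu r ⟨hr, by rw [h0], Finset.singleton_subset_iff.mpr hvr⟩
    rw [← hr4]
    exact hr2 (by simp)
  refine e3 (hΔ.2 q.2 (h1 q hq).2 _ ?_)
  intro x hx
  simp only [Finset.mem_insert, Finset.mem_singleton] at hx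
  rcases hx with rfl | rfl | rfl
  · exact key _ ha e1
  · exact key _ hb e2
  · exact Finset.singleton_subset_iff.mp hq2

/-! ### Empty triangles in a simplex with cones attached -/

theorem emptyTriangles_attachAll {N M : ℕ} {L : Fin M → Finset (Finset (Fin N))}
    (c1 : ∀ i a, ({a} : Finset (Fin N)) ∈ L i)
    (c2 : ∀ a b : Fin N, a ≠ b → ∃ i, ({a, b} : Finset (Fin N)) ∉ L i)
    (c3 : ∀ i u, ∃ w, w ≠ u ∧ ({u, w} : Finset (Fin N)) ∉ L i) :
    EdgesInEmptyTriangles (attachAll L) := by
  have p1 : ∀ a b : Fin N, ({old N M a, old N M b} : Finset (Fin (N + M))) =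
      ({a, b} : Finset (Fin N)).map (old N M) := by
    intro a b
    rw [Finset.map_insert, Finset.map_singleton]
  have p2 : ∀ (i : Fin M) (a : Fin N), ({new N i, old N M a} : Finset (Fin (N + M))) =
      insert (new N i) (({a} : Finset (Fin N)).map (old N M)) := by
    intro i a
    rw [Finset.map_singleton]
  have mixed : ∀ (i : Fin M) (u : Fin N), ∃ v, v ≠ old N M u ∧ v ≠ new N i ∧
      ({old N M u, v} : Finset (Fin (N + M))) ∈ attachAll L ∧
      ({new N i, v} : Finset (Fin (N + M))) ∈ attachAll L ∧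
      ({new N i, old N M u, v} : Finset (Fin (N + M))) ∉ attachAll L := by
    intro i u
    obtain ⟨w, hw, hw'⟩ := c3 i u
    refine ⟨old N M w, fun h => hw ((old N M).injective h), (new_ne_old i w).symm, ?_, ?_, ?_⟩
    · rw [p1]
      exact old_mem L _
    · rw [p2, insert_new_mem]
      exact c1 i w
    · rw [p1, insert_new_mem]
      exact hw'
  intro x y hxy hmem
  rcases old_or_new x with ⟨a, rfl⟩ | ⟨i, rfl⟩ <;> rcases old_or_new y with ⟨b, rfl⟩ | ⟨i', rfl⟩
  · obtain ⟨i, hi⟩ := c2 a b (fun h => hxy (by rw [h]))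
    refine ⟨new N i, new_ne_old i a, new_ne_old i b, ?_, ?_, ?_⟩
    · rw [Finset.pair_comm, p2, insert_new_mem]
      exact c1 i a
    · rw [Finset.pair_comm, p2, insert_new_mem]
      exact c1 i b
    · have e : ({old N M a, old N M b, new N i} : Finset (Fin (N + M))) =
          insert (new N i) (({a, b} : Finset (Fin N)).map (old N M)) := by
        rw [← p1]
        ext z
        simp only [Finset.mem_insert, Finset.mem_singleton]
        tauto
      rw [e, insert_new_mem]
      exact hi
  · obtain ⟨v, h1, h2, h3, h4, h5⟩ := mixed i' a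
    refine ⟨v, h1, h2, h3, h4, ?_⟩
    rw [Finset.insert_comm]
    exact h5
  · obtain ⟨v, h1, h2, h3, h4, h5⟩ := mixed i b
    exact ⟨v, h2, h1, h4, h3, h5⟩
  · exfalso
    have hi : new N i' ∈ ({new N i, new N i'} : Finset (Fin (N + M))) := by simp
    rcases mem_attachAll.mp hmem with ⟨G, hG⟩ | ⟨i'', G, _, hG⟩
    · rw [← hG] at hi
      exact new_notMem i' G hi
    · have hi2 : new N i ∈ ({new N i, new N i'} : Finset (Fin (N + M))) := by simp
      rw [← hG, Finset.mem_insert] at hi hi2
      rcases hi with h | h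
      · rcases hi2 with h' | h'
        · exact hxy (h'.trans h.symm)
        · exact new_notMem i G h'
      · exact new_notMem i' G h

/-! ### Powers of paths -/

/-- the power of the path on `N` vertices -/
def pathPower (N r : ℕ) : SimpleGraph (Fin N) where
  Adj a b := a ≠ b ∧ a.val ≤ b.val + r ∧ b.val ≤ a.val + r
  symm := ⟨fun _ _ h => ⟨h.1.symm, h.2.2, h.2.1⟩⟩
  loopless := ⟨fun _ h => h.1 rfl⟩

theorem pathPower_adj {N r : ℕ} {a b : Fin N} : (pathPower N r).Adj a b ↔
    a ≠ b ∧ a.val ≤ b.val + r ∧ b.val ≤ a.val + r := Iff.rfl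

theorem pathPower_elim (N r : ℕ) : IsPerfectElimination (pathPower N r) := by
  intro v x y hx hy hxy h1 h2
  rw [pathPower_adj] at h1 h2 ⊢
  refine ⟨hxy, ?_, ?_⟩
  · have : x.val < v.val := hx
    omega
  · have : y.val < v.val := hy
    omega

theorem pathPower_low (N j : ℕ) (v : Fin N) :
    min v.val (j + 1) ≤ (low (pathPower N (j + 1)) v).card := by
  have h1 : ∀ i ∈ Finset.range (min v.val (j + 1)), v.val - 1 - i < N := by
    intro i _
    have := v.isLt
    omega
  have h2 : ((Finset.range (min v.val (j + 1))).attach.image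
      (fun i => (⟨v.val - 1 - i.val, h1 i.val i.2⟩ : Fin N))).card = min v.val (j + 1) := by
    rw [Finset.card_image_of_injective, Finset.card_attach, Finset.card_range]
    intro a b hab
    have h3 := congrArg Fin.val hab
    simp only at h3
    have ha := Finset.mem_range.mp a.2
    have hb := Finset.mem_range.mp b.2
    apply Subtype.ext
    omega
  rw [← h2]
  apply Finset.card_le_card
  intro w hw
  rw [Finset.mem_image] at hw
  obtain ⟨i, _, rfl⟩ := hw
  have hi := Finset.mem_range.mp i.2
  rw [mem_low, pathPower_adj]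
  refine ⟨?_, ?_, ?_, ?_⟩
  · rw [Fin.lt_def]
    simp only
    omega
  · intro h
    have := congrArg Fin.val h
    simp only at this
    omega
  · simp only
    omega
  · simp only
    omega

theorem jexp_of_low {n : ℕ} {G : SimpleGraph (Fin n)}
    (hG : IsPerfectElimination G) {j : ℕ}
    (hlow : ∀ v : Fin n, min v.val (j + 1) ≤ (low G v).card) (hn : j + 1 ≤ n) :
    JExp j (cliqueComplex G) := by
  have hC := isComplex_cliqueComplex G
  intro F hF hFc
  have h := exp_linkBelow hG hlow (n - (j + 1)) (by omega) F hF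
    (fun x _ => by have := x.isLt; omega) hFc
  have e : linkBelow G F (j + 1 + (n - (j + 1))) =
      ((link (cliqueComplex G) F : Finset (Finset (Fin n))) : Set (Finset (Fin n))) := by
    ext H
    rw [Finset.mem_coe, mem_link]
    constructor
    · rintro ⟨h1, h2, _⟩
      exact ⟨hC.2 _ h2 _ Finset.subset_union_left, h1, h2⟩
    · rintro ⟨_, h1, h2⟩
      exact ⟨h1, h2, fun x _ => by have := x.isLt; omega⟩
  rwa [e] at h

theorem singleton_mem_clique {n : ℕ} (G : SimpleGraph (Fin n)) (a : Fin n) :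
    ({a} : Finset (Fin n)) ∈ cliqueComplex G := by
  rw [mem_cliqueComplex]
  intro x hx y hy hxy
  rw [Finset.mem_singleton] at hx hy
  exact absurd (hx.trans hy.symm) hxy

theorem pair_mem_clique {n : ℕ} (G : SimpleGraph (Fin n)) {a b : Fin n} (hab : a ≠ b)
    (h : ({a, b} : Finset (Fin n)) ∈ cliqueComplex G) : G.Adj a b := by
  rw [mem_cliqueComplex] at h
  exact h a (by simp) b (by simp) hab

/-- for every `j` there is a `j`-acyclic complex which is a disjoint union of intervals of
length `j + 1` and all of whose edges lie in empty triangles -/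
theorem exists_emptyTriangles (j : ℕ) : ∃ (n : ℕ) (Δ : Finset (Finset (Fin n))), IsComplex Δ ∧
    JExp j Δ ∧ IsUnionOfIntervals (j + 1) Δ ∧ EdgesInEmptyTriangles Δ := by
  set N := 2 * j + 4 with hN
  set B : Finset (Finset (Fin N)) := cliqueComplex (pathPower N (j + 1)) with hB
  have b1 : IsComplex B := isComplex_cliqueComplex _
  have b2 : JExp j B := jexp_of_low (pathPower_elim _ _) (pathPower_low N j) (by omega)
  have b3 : IsUnionOfIntervals (j + 1) B := by
    obtain ⟨P, h1, h2, _⟩ := chordal_partition (pathPower_elim N (j + 1)) (pathPower_low N j)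
      (by omega)
    exact ⟨P, h1, h2⟩
  have b4 : ∀ a : Fin N, ({a} : Finset (Fin N)) ∈ B := fun a => singleton_mem_clique _ a
  have b5 : ∀ u : Fin N, ∃ w, w ≠ u ∧ ({u, w} : Finset (Fin N)) ∉ B := by
    intro u
    by_cases hu : u.val ≤ j + 1
    · refine ⟨⟨2 * j + 3, by omega⟩, ?_, ?_⟩
      · intro h
        have := congrArg Fin.val h
        simp only at this
        omega
      · intro h
        have hne : u ≠ (⟨2 * j + 3, by omega⟩ : Fin N) := by
          intro h
          have := congrArg Fin.val h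
          simp only at this
          omega
        have h1 := pair_mem_clique _ hne h
        rw [pathPower_adj] at h1
        simp only at h1
        omega
    · refine ⟨⟨0, by omega⟩, ?_, ?_⟩
      · intro h
        have := congrArg Fin.val h
        simp only at this
        omega
      · intro h
        have hne : u ≠ (⟨0, by omega⟩ : Fin N) := by
          intro h
          have := congrArg Fin.val h
          simp only at this
          omega
        have h1 := pair_mem_clique _ hne h
        rw [pathPower_adj] at h1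
        simp only at h1
        omega
  let e : Fin (Fintype.card (Equiv.Perm (Fin N))) ≃ Equiv.Perm (Fin N) :=
    (Fintype.equivFin (Equiv.Perm (Fin N))).symm
  let L : Fin (Fintype.card (Equiv.Perm (Fin N))) → Finset (Finset (Fin N)) :=
    fun i => mapC (e i).toEmbedding B
  have hpair : ∀ (σ : Equiv.Perm (Fin N)) (a b : Fin N),
      ({σ a, σ b} : Finset (Fin N)) = ({a, b} : Finset (Fin N)).map σ.toEmbedding := by
    intro σ a b
    rw [Finset.map_insert, Finset.map_singleton]
    rfl
  refine ⟨N + Fintype.card (Equiv.Perm (Fin N)), attachAll L,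
    isComplex_attachAll (fun i => isComplex_mapC b1),
    jexp_attachAll (fun i => isComplex_mapC b1) (fun i => jexp_mapC b2) (by omega),
    union_attachAll (by omega) (fun i => union_mapC b3), emptyTriangles_attachAll ?_ ?_ ?_⟩
  · intro i a
    have : ({a} : Finset (Fin N)) = ({(e i).symm a} : Finset (Fin N)).map (e i).toEmbedding := by
      rw [Finset.map_singleton]
      simp
    rw [this]
    exact map_mem_mapC.mpr (b4 _)
  · intro a b hab
    obtain ⟨b₀, hb₀, hb₀'⟩ := b5 ⟨0, by omega⟩
    set a₀ : Fin N := ⟨0, by omega⟩ with ha₀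
    have hc : Equiv.swap a₀ a b₀ ≠ a := by
      intro h
      apply hb₀
      have h1 : Equiv.swap a₀ a a₀ = a := Equiv.swap_apply_left a₀ a
      exact (Equiv.swap a₀ a).injective (h.trans h1.symm)
    set σ : Equiv.Perm (Fin N) := (Equiv.swap a₀ a).trans (Equiv.swap (Equiv.swap a₀ a b₀) b)
      with hσ
    have s1 : σ a₀ = a := by
      rw [hσ, Equiv.trans_apply, Equiv.swap_apply_left]
      exact Equiv.swap_apply_of_ne_of_ne hc.symm hab
    have s2 : σ b₀ = b := by
      rw [hσ, Equiv.trans_apply, Equiv.swap_apply_left]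
    refine ⟨e.symm σ, ?_⟩
    have h1 : e (e.symm σ) = σ := e.apply_symm_apply σ
    simp only [L, h1]
    rw [← s1, ← s2, hpair, map_mem_mapC]
    exact hb₀'
  · intro i u
    obtain ⟨w, hw, hw'⟩ := b5 ((e i).symm u)
    refine ⟨e i w, ?_, ?_⟩
    · intro h
      apply hw
      rw [← h, Equiv.symm_apply_apply]
    · have h1 : u = (e i) ((e i).symm u) := ((e i).apply_symm_apply u).symm
      rw [h1, hpair]
      simp only [L]
      rw [map_mem_mapC]
      exact hw'

end Pool.Agent.Lib.MP_af28a5_co
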