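import Pool.Agent.Lib.MP_af28a5_co.Defs

/-!
Elementary expansions of simplicial complexes and acyclicity.
-/

namespace Pool.Agent.Lib.MP_af28a5_co

open Finset

/-- `Exp D E`: the family of faces `E` is obtained from `D` by elementary expansions, i.e. by
successively adding pairs `σ, insert a σ` all of whose other facets are already there. -/
inductive Exp {V : Type*} [DecidableEq V] : Set (Finset V) → Set (Finset V) → Prop
  | refl (D : Set (Finset V)) : Exp D D
  | step {D E : Set (Finset V)} (σ : Finset V) (a : V) : Exp D E → σ ∉ E → a ∉ σ →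
      (∀ x ∈ σ, (insert a σ).erase x ∈ E) → Exp D (insert σ (insert (insert a σ) E))

namespace Exp

variable {V W : Type*} [DecidableEq V] [DecidableEq W]

theorem subset {D E : Set (Finset V)} (h : Exp D E) : D ⊆ E := by
  induction h with
  | refl => exact subset_rfl
  | step σ a _ _ _ _ ih => exact fun x hx => Or.inr (Or.inr (ih hx))

theorem trans {C D E : Set (Finset V)} (h1 : Exp C D) (h2 : Exp D E) : Exp C E := by
  induction h2 with
  | refl => exact h1
  | step σ a _ h3 h4 h5 ih => exact Exp.step σ a ih h3 h4 h5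

theorem map (φ : V ↪ W) {A L : Set (Finset V)} (h : Exp A L) (Γ : Set (Finset W))
    (hA : ∀ F ∈ A, F.map φ ∈ Γ) (hd : ∀ F ∈ L, F ∉ A → F.map φ ∉ Γ) :
    Exp Γ (Γ ∪ {G | ∃ F ∈ L, F.map φ = G}) := by
  induction h with
  | refl =>
    have : Γ ∪ {G | ∃ F ∈ A, F.map φ = G} = Γ := by
      ext G
      simp only [Set.mem_union, Set.mem_ofPred_eq, or_iff_left_iff_imp]
      rintro ⟨F, hF, rfl⟩
      exact hA F hF
    rw [this]
    exact Exp.refl _
  | @step E σ a h1 h2 h3 h4 ih =>
    have ih' := ih (fun F hF hFA => hd F (Or.inr (Or.inr hF)) hFA)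
    have hσA : σ ∉ A := fun h => h2 (h1.subset h)
    have h5 : σ.map φ ∉ Γ ∪ {G | ∃ F ∈ E, F.map φ = G} := by
      rintro (h | ⟨F, hF, hFσ⟩)
      · exact hd σ (Or.inl rfl) hσA h
      · rw [Finset.map_inj] at hFσ
        exact h2 (hFσ ▸ hF)
    have h6 : φ a ∉ σ.map φ := by
      simpa using h3
    have h7 : ∀ y ∈ σ.map φ, (insert (φ a) (σ.map φ)).erase y ∈
        Γ ∪ {G | ∃ F ∈ E, F.map φ = G} := by
      intro y hy
      rw [Finset.mem_map] at hy
      obtain ⟨x, hx, rfl⟩ := hy
      refine Or.inr ⟨(insert a σ).erase x, h4 x hx, ?_⟩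
      rw [Finset.map_erase, Finset.map_insert]
    have h8 := Exp.step (σ.map φ) (φ a) ih' h5 h6 h7
    have h9 : (insert (σ.map φ) (insert (insert (φ a) (σ.map φ))
        (Γ ∪ {G | ∃ F ∈ E, F.map φ = G})) : Set (Finset W)) =
        Γ ∪ {G | ∃ F ∈ (insert σ (insert (insert a σ) E) : Set (Finset V)), F.map φ = G} := by
      ext G
      simp only [Set.mem_insert_iff, Set.mem_union, Set.mem_ofPred_eq]
      constructor
      · rintro (rfl | rfl | h | ⟨F, hF, rfl⟩)
        · exact Or.inr ⟨σ, Or.inl rfl, rfl⟩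
        · exact Or.inr ⟨insert a σ, Or.inr (Or.inl rfl), by rw [Finset.map_insert]⟩
        · exact Or.inl h
        · exact Or.inr ⟨F, Or.inr (Or.inr hF), rfl⟩
      · rintro (h | ⟨F, (rfl | rfl | hF), rfl⟩)
        · exact Or.inr (Or.inr (Or.inl h))
        · exact Or.inl rfl
        · exact Or.inr (Or.inl (by rw [Finset.map_insert]))
        · exact Or.inr (Or.inr (Or.inr ⟨F, hF, rfl⟩))
    rw [← h9]
    exact h8

/-- a cone is obtained from the void complex by elementary expansions -/
theorem cone (a : V) : ∀ (m : ℕ) (Γ : Finset (Finset V)), Γ.card = m →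
    (∀ F ∈ Γ, ∀ G, G ⊆ F → G ∈ Γ) → (∀ F ∈ Γ, a ∉ F) →
    Exp ∅ ({G | G ∈ Γ ∨ ∃ F ∈ Γ, insert a F = G} : Set (Finset V)) := by
  intro m
  induction m with
  | zero =>
    intro Γ h0 _ _
    rw [Finset.card_eq_zero] at h0
    subst h0
    have : ({G | G ∈ (∅ : Finset (Finset V)) ∨ ∃ F ∈ (∅ : Finset (Finset V)), insert a F = G} :
        Set (Finset V)) = ∅ := by
      ext G; simp
    rw [this]
    exact Exp.refl _
  | succ m ih =>
    intro Γ hc hd ha
    have hne : Γ.Nonempty := by
      rw [← Finset.card_pos]; omega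
    obtain ⟨σ, hσ, hmax⟩ := Finset.exists_max_image Γ Finset.card hne
    have hd' : ∀ F ∈ Γ.erase σ, ∀ G, G ⊆ F → G ∈ Γ.erase σ := by
      intro F hF G hG
      rw [Finset.mem_erase] at hF ⊢
      refine ⟨?_, hd F hF.2 G hG⟩
      rintro rfl
      exact hF.1 (Finset.eq_of_subset_of_card_le hG (hmax F hF.2)).symm
    have h1 := ih (Γ.erase σ) (by rw [Finset.card_erase_of_mem hσ, hc]; rfl) hd'
      (fun F hF => ha F (Finset.mem_of_mem_erase hF))
    have h2 := Exp.step σ a h1 (by
      rintro (h | ⟨F, _, hF⟩)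
      · exact (Finset.notMem_erase σ Γ) h
      · exact ha σ hσ (hF ▸ Finset.mem_insert_self a F)) (ha σ hσ) (by
      intro x hx
      refine Or.inr ⟨σ.erase x, ?_, ?_⟩
      · rw [Finset.mem_erase]
        refine ⟨fun h => ?_, hd σ hσ _ (Finset.erase_subset _ _)⟩
        have := Finset.notMem_erase x σ
        rw [h] at this
        exact this hx
      · have hax : a ≠ x := fun h => ha σ hσ (h ▸ hx)
        rw [Finset.erase_insert_of_ne hax])
    have h3 : (insert σ (insert (insert a σ) {G | G ∈ Γ.erase σ ∨ ∃ F ∈ Γ.erase σ,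
        insert a F = G}) : Set (Finset V)) = {G | G ∈ Γ ∨ ∃ F ∈ Γ, insert a F = G} := by
      ext G
      simp only [Set.mem_insert_iff, Set.mem_ofPred_eq, Finset.mem_erase]
      constructor
      · rintro (rfl | rfl | ⟨_, h⟩ | ⟨F, ⟨_, hF⟩, rfl⟩)
        · exact Or.inl hσ
        · exact Or.inr ⟨σ, hσ, rfl⟩
        · exact Or.inl h
        · exact Or.inr ⟨F, hF, rfl⟩
      · rintro (h | ⟨F, hF, rfl⟩)
        · by_cases hG : G = σ
          · exact Or.inl hG
          · exact Or.inr (Or.inr (Or.inl ⟨hG, h⟩))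
        · by_cases hG : F = σ
          · subst hG
            exact Or.inr (Or.inl rfl)
          · exact Or.inr (Or.inr (Or.inr ⟨F, ⟨hG, hF⟩, rfl⟩))
    rw [← h3]
    exact h2

end Exp

/-! ### Acyclicity -/

section
variable {k : Type*} [Field k] {n : ℕ}

/-- the sign in the boundary -/
def sgn (k : Type*) [Field k] {n : ℕ} (G : Finset (Fin n)) (v : Fin n) : k :=
  (-1 : k) ^ (G.filter (fun w => w < v)).card

theorem sgn_mul_self (G : Finset (Fin n)) (v : Fin n) : sgn k G v * sgn k G v = 1 := by
  unfold sgn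
  rw [← mul_pow]
  simp

theorem sgn_insert {G : Finset (Fin n)} {u v : Fin n} (hv : v ∉ G) :
    sgn k (insert v G) u = (if v < u then -1 else 1) * sgn k G u := by
  unfold sgn
  rw [Finset.filter_insert]
  split_ifs with h
  · rw [Finset.card_insert_of_notMem (by simp [hv]), pow_succ]
    ring
  · ring

theorem boundary_eq (c : Finset (Fin n) → k) (G : Finset (Fin n)) :
    boundary c G = ∑ v ∈ Gᶜ, sgn k G v * c (insert v G) := rfl

theorem boundary_boundary (c : Finset (Fin n) → k) (G : Finset (Fin n)) :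
    boundary (boundary c) G = 0 := by
  have h1 : boundary (boundary c) G =
      ∑ p ∈ (Gᶜ ×ˢ Gᶜ).filter (fun p => p.1 ≠ p.2),
        sgn k G p.1 * (sgn k (insert p.1 G) p.2 * c (insert p.2 (insert p.1 G))) := by
    rw [Finset.sum_filter, Finset.sum_product, boundary_eq]
    refine Finset.sum_congr rfl fun v hv => ?_
    rw [boundary_eq, Finset.mul_sum]
    have hc : (insert v G)ᶜ = Gᶜ.filter (fun u => v ≠ u) := by
      ext u
      simp only [Finset.mem_compl, Finset.mem_insert, not_or, Finset.mem_filter]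
      constructor
      · rintro ⟨h, h'⟩; exact ⟨h', fun h'' => h h''.symm⟩
      · rintro ⟨h, h'⟩; exact ⟨fun h'' => h' h''.symm, h⟩
    rw [hc, Finset.sum_filter]
  rw [h1]
  refine Finset.sum_involution (fun p _ => (p.2, p.1)) ?_ ?_ ?_ ?_
  · rintro ⟨u, v⟩ hp
    simp only [Finset.mem_filter, Finset.mem_product, Finset.mem_compl, ne_eq] at hp
    obtain ⟨⟨hu, hv⟩, huv⟩ := hp
    simp only
    rw [sgn_insert hu, sgn_insert hv, Finset.insert_comm u v]
    rcases lt_or_gt_of_ne huv with h | h
    · rw [if_pos h, if_neg (not_lt.mpr h.le)]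
      ring
    · rw [if_neg (not_lt.mpr h.le), if_pos h]
      ring
  · rintro ⟨u, v⟩ hp _
    simp only [Finset.mem_filter, Finset.mem_product, Finset.mem_compl, ne_eq] at hp
    intro h
    simp only [Prod.mk.injEq] at h
    exact hp.2 h.1.symm
  · rintro ⟨u, v⟩ hp
    simp only [Finset.mem_filter, Finset.mem_product, Finset.mem_compl, ne_eq] at hp ⊢
    exact ⟨⟨hp.1.2, hp.1.1⟩, fun h => hp.2 h.symm⟩
  · rintro ⟨u, v⟩ _
    rfl

theorem boundary_sub (c d : Finset (Fin n) → k) (G : Finset (Fin n)) :
    boundary (fun F => c F - d F) G = boundary c G - boundary d G := by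
  simp only [boundary_eq]
  rw [← Finset.sum_sub_distrib]
  refine Finset.sum_congr rfl fun v _ => by ring

theorem boundary_add (c d : Finset (Fin n) → k) (G : Finset (Fin n)) :
    boundary (fun F => c F + d F) G = boundary c G + boundary d G := by
  simp only [boundary_eq]
  rw [← Finset.sum_add_distrib]
  refine Finset.sum_congr rfl fun v _ => by ring

/-- acyclicity for a family of faces given as a set -/
def AcyclicS (k : Type*) [Field k] {n : ℕ} (Δ : Set (Finset (Fin n))) : Prop :=
  ∀ c : Finset (Fin n) → k, (∀ F, F ∉ Δ → c F = 0) → (∀ G, boundary c G = 0) →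
    ∃ d : Finset (Fin n) → k, (∀ F, F ∉ Δ → d F = 0) ∧ ∀ G, c G = boundary d G

/-- being closed under subsets -/
def Down {V : Type*} (E : Set (Finset V)) : Prop := ∀ F ∈ E, ∀ G, G ⊆ F → G ∈ E

theorem down_step {V : Type*} [DecidableEq V] {E : Set (Finset V)} (hE : Down E) {σ : Finset V}
    {a : V} (ha : a ∉ σ) (hf : ∀ x ∈ σ, (insert a σ).erase x ∈ E) :
    Down (insert σ (insert (insert a σ) E)) := by
  have key : ∀ G, G ⊆ insert a σ → G ≠ insert a σ → G ≠ σ → G ∈ E := by
    intro G hG h1 h2
    have hex : ∃ x ∈ σ, x ∉ G := by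
      by_contra hcon
      push Not at hcon
      have h3 : σ ⊆ G := fun x hx => hcon x hx
      by_cases h4 : a ∈ G
      · exact h1 (Finset.Subset.antisymm hG (Finset.insert_subset h4 h3))
      · refine h2 (Finset.Subset.antisymm ?_ h3)
        intro x hx
        have := hG hx
        rw [Finset.mem_insert] at this
        rcases this with rfl | h
        · exact absurd hx h4
        · exact h
    obtain ⟨x, hx, hxG⟩ := hex
    refine hE _ (hf x hx) G ?_
    intro y hy
    rw [Finset.mem_erase]
    exact ⟨fun h => hxG (h ▸ hy), hG hy⟩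
  rintro F (rfl | rfl | hF) G hG
  · by_cases h : G = F
    · exact Or.inl h
    · refine Or.inr (Or.inr (key G (hG.trans (Finset.subset_insert _ _)) ?_ h))
      rintro rfl
      exact ha (hG (Finset.mem_insert_self _ _))
  · by_cases h : G = insert a σ
    · exact Or.inr (Or.inl h)
    · by_cases h' : G = σ
      · exact Or.inl h'
      · exact Or.inr (Or.inr (key G hG h h'))
  · exact Or.inr (Or.inr (hE F hF G hG))

theorem acyclicS_step {E : Set (Finset (Fin n))} (hE : Down E) (h : AcyclicS k E)
    {σ : Finset (Fin n)} {a : Fin n} (hσ : σ ∉ E) (ha : a ∉ σ)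
    (hf : ∀ x ∈ σ, (insert a σ).erase x ∈ E) :
    AcyclicS k (insert σ (insert (insert a σ) E)) := by
  classical
  intro c hc hcyc
  have hτE : insert a σ ∉ E := fun h' => hσ (hE _ h' σ (Finset.subset_insert _ _))
  have hστ : σ ≠ insert a σ := fun h' => ha (h' ▸ Finset.mem_insert_self a σ)
  -- the coefficient at `τ` vanishes
  have h1 : c (insert a σ) = 0 := by
    have h2 := hcyc σ
    rw [boundary_eq, Finset.sum_eq_single a] at h2
    · have h3 : sgn k σ a * (sgn k σ a * c (insert a σ)) = 0 := by rw [h2, mul_zero]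
      rwa [← mul_assoc, sgn_mul_self, one_mul] at h3
    · intro v hv hva
      rw [Finset.mem_compl] at hv
      have h4 : insert v σ ∉ (insert σ (insert (insert a σ) E) : Set (Finset (Fin n))) := by
        rintro (h5 | h5 | h5)
        · exact hv (h5 ▸ Finset.mem_insert_self v σ)
        · have : v ∈ insert a σ := h5 ▸ Finset.mem_insert_self v σ
          rw [Finset.mem_insert] at this
          rcases this with h6 | h6
          · exact hva h6
          · exact hv h6
        · exact hσ (hE _ h5 σ (Finset.subset_insert _ _))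
      rw [hc _ h4, mul_zero]
    · intro h5
      exact absurd (Finset.mem_compl.mpr ha) h5
  set d2 : Finset (Fin n) → k := fun F => if F = insert a σ then sgn k σ a * c σ else 0 with hd2
  have hb0 : ∀ G, (∀ v, v ∉ G → insert v G ≠ insert a σ) → boundary d2 G = 0 := by
    intro G hG
    rw [boundary_eq]
    refine Finset.sum_eq_zero fun v hv => ?_
    rw [Finset.mem_compl] at hv
    simp only [hd2]
    rw [if_neg (hG v hv), mul_zero]
  have hbσ : boundary d2 σ = c σ := by
    rw [boundary_eq, Finset.sum_eq_single a]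
    · simp only [hd2, if_true]
      rw [← mul_assoc, sgn_mul_self, one_mul]
    · intro v hv hva
      rw [Finset.mem_compl] at hv
      simp only [hd2]
      rw [if_neg, mul_zero]
      intro h5
      have : v ∈ insert a σ := h5 ▸ Finset.mem_insert_self v σ
      rw [Finset.mem_insert] at this
      rcases this with h6 | h6
      · exact hva h6
      · exact hv h6
    · intro h5
      exact absurd (Finset.mem_compl.mpr ha) h5
  obtain ⟨d1, hd1, hd1'⟩ := h (fun F => c F - boundary d2 F) (by
    intro F hF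
    by_cases h5 : F = σ
    · subst h5
      rw [hbσ, sub_self]
    by_cases h6 : F = insert a σ
    · subst h6
      rw [h1, hb0, sub_self]
      intro v hv h7
      exact hv (h7 ▸ Finset.mem_insert_self v _)
    · rw [hc F (by rintro (h7 | h7 | h7) <;> contradiction), hb0, sub_self]
      intro v hv h7
      have hvτ : v ∈ insert a σ := h7 ▸ Finset.mem_insert_self v F
      have hFe : F = (insert a σ).erase v := by
        rw [← h7, Finset.erase_insert hv]
      rw [Finset.mem_insert] at hvτ
      rcases hvτ with h8 | h8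
      · apply h5
        rw [hFe, h8, Finset.erase_insert ha]
      · exact hF (hFe ▸ hf v h8)) (by
    intro G
    rw [boundary_sub, hcyc, boundary_boundary, sub_zero])
  refine ⟨fun F => d1 F + d2 F, ?_, ?_⟩
  · intro F hF
    have h5 : F ∉ E := fun h' => hF (Or.inr (Or.inr h'))
    have h6 : F ≠ insert a σ := fun h' => hF (Or.inr (Or.inl h'))
    simp only
    rw [hd1 F h5]
    simp only [hd2]
    rw [if_neg h6, add_zero]
  · intro G
    rw [boundary_add, ← hd1' G]
    ring

theorem acyclicS_of_exp {D E : Set (Finset (Fin n))} (h : Exp D E) (hD : Down D)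
    (hk : AcyclicS k D) : Down E ∧ AcyclicS k E := by
  induction h with
  | refl => exact ⟨hD, hk⟩
  | step σ a _ h2 h3 h4 ih =>
    obtain ⟨i1, i2⟩ := ih
    exact ⟨down_step i1 h3 h4, acyclicS_step i1 i2 h2 h3 h4⟩

theorem acyclic_of_exp {Δ : Finset (Finset (Fin n))} (h : Exp ∅ (Δ : Set (Finset (Fin n)))) :
    Acyclic k Δ := by
  have h1 : Down (∅ : Set (Finset (Fin n))) := fun F hF => absurd hF (Set.notMem_empty F)
  have h2 : AcyclicS k (∅ : Set (Finset (Fin n))) := by
    intro c hc _
    refine ⟨fun _ => 0, fun _ _ => rfl, fun G => ?_⟩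
    rw [hc G (Set.notMem_empty G), boundary_eq]
    simp
  exact (acyclicS_of_exp h h1 h2).2

end

end Pool.Agent.Lib.MP_af28a5_co
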