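import Pool.Agent.Lib.MP_af28a5_co.Exp

/-!
Gluing copies of a complex on `Fin 13` along its part with vertices `< 10`, and the
assignment form of partitions into intervals.
-/

namespace Pool.Agent.Lib.MP_af28a5_co

open Finset

/-- The embedding of the vertex set of the `i`-th copy: the vertices `0, …, 9` are shared. -/
def cop {N : ℕ} (i : Fin N) : Fin 13 ↪ Fin (10 + 3 * N) where
  toFun v := ⟨if v.val < 10 then v.val else v.val + 3 * i.val, by
    have := v.isLt; have := i.isLt; split_ifs <;> omega⟩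
  inj' := by
    intro u v h
    simp only [Fin.mk.injEq] at h
    have := u.isLt; have := v.isLt
    ext
    split_ifs at h <;> omega

theorem cop_val {N : ℕ} (i : Fin N) (v : Fin 13) :
    (cop i v).val = if v.val < 10 then v.val else v.val + 3 * i.val := rfl

theorem cop_lt_iff {N : ℕ} (i : Fin N) (v : Fin 13) : (cop i v).val < 10 ↔ v.val < 10 := by
  rw [cop_val]; split_ifs <;> omega

theorem cop_old {N : ℕ} (i i' : Fin N) {v : Fin 13} (hv : v.val < 10) : cop i v = cop i' v := by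
  ext; rw [cop_val, cop_val, if_pos hv, if_pos hv]

theorem cop_new {N : ℕ} {i i' : Fin N} {u v : Fin 13} (hv : 10 ≤ v.val)
    (h : cop i v = cop i' u) : i = i' ∧ v = u := by
  have h1 : (cop i v).val = (cop i' u).val := by rw [h]
  rw [cop_val, cop_val, if_neg (not_lt.mpr hv)] at h1
  have := u.isLt; have := v.isLt
  constructor <;> ext <;> split_ifs at h1 <;> omega

theorem map_old {N : ℕ} (i i' : Fin N) {F : Finset (Fin 13)} (hF : ∀ v ∈ F, v.val < 10) :
    F.map (cop i) = F.map (cop i') := by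
  rw [Finset.map_eq_image, Finset.map_eq_image]
  exact Finset.image_congr fun v hv => cop_old i i' (hF v hv)

/-- a face has a new vertex -/
def HasNew (F : Finset (Fin 13)) : Prop := ∃ v ∈ F, 10 ≤ v.val

theorem not_hasNew {F : Finset (Fin 13)} : ¬ HasNew F ↔ ∀ v ∈ F, v.val < 10 := by
  unfold HasNew
  push Not
  rfl

theorem copy_eq_of_subset {N : ℕ} {i i' : Fin N} {F G : Finset (Fin 13)} (hF : HasNew F)
    (h : F.map (cop i) ⊆ G.map (cop i')) : i = i' := by
  obtain ⟨v, hv, hv10⟩ := hF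
  have h1 := h (Finset.mem_map_of_mem _ hv)
  rw [Finset.mem_map] at h1
  obtain ⟨u, _, hu⟩ := h1
  exact (cop_new hv10 hu.symm).1

/-- `N` copies of `K` glued along the faces without new vertices -/
def glue (N : ℕ) (K : Finset (Finset (Fin 13))) : Finset (Finset (Fin (10 + 3 * N))) :=
  Finset.univ.biUnion (fun i : Fin N => K.image (fun F => F.map (cop i)))

theorem mem_glue {N : ℕ} {K : Finset (Finset (Fin 13))} {F : Finset (Fin (10 + 3 * N))} :
    F ∈ glue N K ↔ ∃ i : Fin N, ∃ G ∈ K, G.map (cop i) = F := by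
  simp [glue]

theorem exp_glue {N : ℕ} (hN : 0 < N) {A L : Set (Finset (Fin 13))}
    (hold : ∀ G ∈ A, ¬ HasNew G) (hnew : ∀ G ∈ L, G ∉ A → HasNew G)
    (h0 : Exp ∅ A) (h1 : Exp A L) :
    Exp ∅ ({F | ∃ i : Fin N, ∃ G ∈ L, G.map (cop i) = F} : Set (Finset (Fin (10 + 3 * N)))) := by
  have key : ∀ t : ℕ, t ≤ N → Exp ∅ ({F | (∃ G ∈ A, G.map (cop (⟨0, hN⟩ : Fin N)) = F) ∨
      ∃ i : Fin N, i.val < t ∧ ∃ G ∈ L, G.map (cop i) = F} :
        Set (Finset (Fin (10 + 3 * N)))) := by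
    intro t
    induction t with
    | zero =>
      intro _
      have h2 := Exp.map (cop (⟨0, hN⟩ : Fin N)) h0 ∅ (fun F hF => absurd hF (Set.notMem_empty F))
        (fun F _ _ => Set.notMem_empty _)
      have h3 : ((∅ : Set (Finset (Fin (10 + 3 * N)))) ∪
          {G | ∃ F ∈ A, F.map (cop (⟨0, hN⟩ : Fin N)) = G}) =
          {F | (∃ G ∈ A, G.map (cop (⟨0, hN⟩ : Fin N)) = F) ∨
            ∃ i : Fin N, i.val < 0 ∧ ∃ G ∈ L, G.map (cop i) = F} := by
        ext F
        simp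
      rw [← h3]
      exact h2
    | succ t ih =>
      intro ht
      have h2 := ih (by omega)
      have h3 := Exp.map (cop (⟨t, by omega⟩ : Fin N)) h1 (Γ := {F |
        (∃ G ∈ A, G.map (cop (⟨0, hN⟩ : Fin N)) = F) ∨
          ∃ i : Fin N, i.val < t ∧ ∃ G ∈ L, G.map (cop i) = F})
        (fun F hF => Or.inl ⟨F, hF, map_old _ _ (not_hasNew.mp (hold F hF))⟩)
        (by
          rintro F hF hFA (⟨G, hG, hGF⟩ | ⟨i, hi, G, hG, hGF⟩)
          · obtain ⟨v, hv, hv10⟩ := hnew F hF hFA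
            have h4 : cop (⟨t, by omega⟩ : Fin N) v ∈ F.map (cop (⟨t, by omega⟩ : Fin N)) :=
              Finset.mem_map_of_mem _ hv
            rw [← hGF, Finset.mem_map] at h4
            obtain ⟨u, hu, huv⟩ := h4
            have h5 := (cop_new hv10 huv.symm).2
            exact hold G hG ⟨u, hu, h5 ▸ hv10⟩
          · have h4 := copy_eq_of_subset (hnew F hF hFA) (i := (⟨t, by omega⟩ : Fin N))
              (i' := i) (G := G) (by rw [hGF])
            have h5 : t = i.val := congrArg Fin.val h4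
            omega)
      have h4 := Exp.trans h2 h3
      have h5 : ({F | (∃ G ∈ A, G.map (cop (⟨0, hN⟩ : Fin N)) = F) ∨
          ∃ i : Fin N, i.val < t ∧ ∃ G ∈ L, G.map (cop i) = F} ∪
          {G | ∃ F ∈ L, F.map (cop (⟨t, by omega⟩ : Fin N)) = G} :
            Set (Finset (Fin (10 + 3 * N)))) =
          {F | (∃ G ∈ A, G.map (cop (⟨0, hN⟩ : Fin N)) = F) ∨
            ∃ i : Fin N, i.val < t + 1 ∧ ∃ G ∈ L, G.map (cop i) = F} := by
        ext F
        simp only [Set.mem_union, Set.mem_ofPred_eq]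
        constructor
        · rintro ((h | ⟨i, hi, h⟩) | ⟨G, hG, h⟩)
          · exact Or.inl h
          · exact Or.inr ⟨i, by omega, h⟩
          · exact Or.inr ⟨⟨t, by omega⟩, by simp, G, hG, h⟩
        · rintro (h | ⟨i, hi, G, hG, h⟩)
          · exact Or.inl (Or.inl h)
          · by_cases hit : i.val = t
            · refine Or.inr ⟨G, hG, ?_⟩
              have : i = ⟨t, by omega⟩ := Fin.ext hit
              rw [← this]
              exact h
            · exact Or.inl (Or.inr ⟨i, by omega, G, hG, h⟩)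
      rw [← h5]
      exact h4
  have h2 := key N le_rfl
  have h3 : ({F | (∃ G ∈ A, G.map (cop (⟨0, hN⟩ : Fin N)) = F) ∨
      ∃ i : Fin N, i.val < N ∧ ∃ G ∈ L, G.map (cop i) = F} :
        Set (Finset (Fin (10 + 3 * N)))) =
      {F | ∃ i : Fin N, ∃ G ∈ L, G.map (cop i) = F} := by
    ext F
    simp only [Set.mem_ofPred_eq]
    constructor
    · rintro (⟨G, hG, h⟩ | ⟨i, _, G, hG, h⟩)
      · exact ⟨_, G, h1.subset hG, h⟩
      · exact ⟨i, G, hG, h⟩
    · rintro ⟨i, G, hG, h⟩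
      exact Or.inr ⟨i, i.isLt, G, hG, h⟩
  rw [← h3]
  exact h2

/-! ### Assignments -/

/-- `g` assigns to every face of `Δ` the interval of length `r` containing it -/
def IsAssign {V : Type*} [DecidableEq V] (r : ℕ) (Δ : Finset (Finset V))
    (g : Finset V → Finset V × Finset V) : Prop :=
  ∀ H ∈ Δ, (g H).1 ⊆ H ∧ H ⊆ (g H).2 ∧ (g H).2 ∈ Δ ∧ ((g H).2 \ (g H).1).card = r ∧
    ∀ H', (g H).1 ⊆ H' → H' ⊆ (g H).2 → g H' = g H

theorem exists_assign {n r : ℕ} {Δ : Finset (Finset (Fin n))}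
    (hΔ : ∀ F ∈ Δ, ∀ G, G ⊆ F → G ∈ Δ) (h : IsUnionOfIntervals r Δ) :
    ∃ g, IsAssign r Δ g := by
  classical
  obtain ⟨P, hP, hP'⟩ := h
  choose! g hg hg' using hP'
  refine ⟨g, fun H hH => ?_⟩
  obtain ⟨h1, h2, h3⟩ := hg H hH
  obtain ⟨h4, h5, h6⟩ := hP _ h1
  refine ⟨h2, h3, h5, h6, fun H' h7 h8 => ?_⟩
  exact (hg' H' (hΔ _ h5 _ h8) _ ⟨h1, h7, h8⟩).symm

/-- there is no assignment on the faces with a new vertex -/
def NoLocal (K : Finset (Finset (Fin 13))) : Prop :=
  ¬ ∃ g : Finset (Fin 13) → Finset (Fin 13) × Finset (Fin 13), ∀ H ∈ K, HasNew H →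
    (g H).1 ⊆ H ∧ H ⊆ (g H).2 ∧ (g H).2 ∈ K ∧ HasNew (g H).1 ∧
      ((g H).2 \ (g H).1).card = 2 ∧
      ∀ H', (g H).1 ⊆ H' → H' ⊆ (g H).2 → g H' = g H

theorem no_assign_glue {N : ℕ} {K A : Finset (Finset (Fin 13))}
    (hK : ∀ F ∈ K, ∀ G, G ⊆ F → G ∈ K) (hA : ∀ F ∈ K, ¬ HasNew F → F ∈ A) (hN : A.card < N)
    (hloc : NoLocal K) : ¬ ∃ g, IsAssign 2 (glue N K) g := by
  classical
  rintro ⟨g, hg⟩
  have hN0 : 0 < N := by omega
  -- a copy in which no interval starts at an old face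
  have h1 : ∃ i : Fin N, ∀ H ∈ K, HasNew H → ∃ v ∈ (g (H.map (cop i))).1, 10 ≤ v.val := by
    by_contra hcon
    push Not at hcon
    choose H hHK hHn hH using hcon
    have hb : ∀ i, (g ((H i).map (cop i))).1 ∈ A.image (fun F => F.map (cop (⟨0, hN0⟩ : Fin N))) := by
      intro i
      obtain ⟨h2, -⟩ := hg _ (mem_glue.mpr ⟨i, H i, hHK i, rfl⟩)
      rw [Finset.mem_image]
      rw [Finset.subset_map_iff] at h2
      obtain ⟨F, hF, hF'⟩ := h2
      have hFo : ¬ HasNew F := by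
        rw [not_hasNew]
        intro v hv
        have := hH i (cop i v) (by rw [hF']; exact Finset.mem_map_of_mem _ hv)
        exact (cop_lt_iff i v).mp this
      exact ⟨F, hA F (hK _ (hHK i) _ hF) hFo, by rw [hF']; exact map_old _ _ (not_hasNew.mp hFo)⟩
    have hcard : (A.image (fun F => F.map (cop (⟨0, hN0⟩ : Fin N)))).card <
        (Finset.univ : Finset (Fin N)).card := by
      rw [Finset.card_univ, Fintype.card_fin]
      exact lt_of_le_of_lt Finset.card_image_le hN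
    obtain ⟨i, -, i', -, hii, hbb⟩ := Finset.exists_ne_map_eq_of_card_lt_of_maps_to hcard
      (f := fun i => (g ((H i).map (cop i))).1) (fun i _ => hb i)
    obtain ⟨a1, a2, a3, a4, a5⟩ := hg _ (mem_glue.mpr ⟨i, H i, hHK i, rfl⟩)
    obtain ⟨b1, b2, b3, b4, b5⟩ := hg _ (mem_glue.mpr ⟨i', H i', hHK i', rfl⟩)
    have h3 := a5 _ (Finset.Subset.refl _) (a1.trans a2)
    have h4 := b5 _ (Finset.Subset.refl _) (b1.trans b2)
    rw [hbb] at h3
    have h5 : g ((H i).map (cop i)) = g ((H i').map (cop i')) := h3.symm.trans h4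
    rw [mem_glue] at a3
    obtain ⟨l, G, _, hGl⟩ := a3
    have h6 : i = l := copy_eq_of_subset (hHn i) (by rw [hGl]; exact a2)
    have h7 : i' = l := copy_eq_of_subset (hHn i') (by rw [hGl, h5]; exact b2)
    exact hii (h6.trans h7.symm)
  obtain ⟨i, hi⟩ := h1
  let pull : Finset (Fin (10 + 3 * N)) → Finset (Fin 13) :=
    fun S => Finset.univ.filter (fun v => cop i v ∈ S)
  have hpull : ∀ F : Finset (Fin 13), pull (F.map (cop i)) = F := by
    intro F
    ext v
    simp [pull]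
  refine hloc ⟨fun H => (pull (g (H.map (cop i))).1, pull (g (H.map (cop i))).2), ?_⟩
  intro H hHK hHn
  obtain ⟨a1, a2, a3, a4, a5⟩ := hg _ (mem_glue.mpr ⟨i, H, hHK, rfl⟩)
  rw [mem_glue] at a3
  obtain ⟨l, G, hG, hGl⟩ := a3
  have h6 : i = l := copy_eq_of_subset hHn (by rw [hGl]; exact a2)
  subst h6
  obtain ⟨B, hB, hB'⟩ := Finset.subset_map_iff.mp a1
  have hp : g (H.map (cop i)) = (B.map (cop i), G.map (cop i)) := by
    rw [← hB', hGl]
  have hBn : HasNew B := by
    obtain ⟨v, hv, hv10⟩ := hi H hHK hHn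
    rw [hB', Finset.mem_map] at hv
    obtain ⟨u, hu, rfl⟩ := hv
    refine ⟨u, hu, ?_⟩
    by_contra hlt
    push Not at hlt
    have := (cop_lt_iff i u).mpr hlt
    omega
  simp only [hp, hpull]
  rw [hp] at a2 a4 a5
  simp only at a2 a4 a5
  refine ⟨hB, ?_, hG, hBn, ?_, ?_⟩
  · exact Finset.map_subset_map.mp a2
  · rw [← Finset.map_sdiff, Finset.card_map] at a4
    exact a4
  · intro H' h7 h8
    have h9 := a5 (H'.map (cop i)) (Finset.map_subset_map.mpr h7) (Finset.map_subset_map.mpr h8)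
    rw [h9]
    simp only [hpull]

end Pool.Agent.Lib.MP_af28a5_co
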