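import Pool.Agent.Lib.MP_af28a5_co.Exp

/-!
Elementary consequences of acyclicity: a vertex exists, the vertex set is connected by edges, and
the numbers of faces of even and of odd size agree.
-/

set_option autoImplicit false

namespace Pool.Agent.Lib.MP_af28a5_co

open Finset

section

variable {k : Type*} [Field k] {n : ℕ}

/-- an acyclic complex containing the empty face has a vertex -/
theorem exists_vertex {L : Finset (Finset (Fin n))} (h0 : ∅ ∈ L) (hA : Acyclic k L) :
    ∃ v, {v} ∈ L := by
  by_contra hcon
  push Not at hcon
  obtain ⟨d, hd, hd'⟩ := hA (fun F => if F = ∅ then 1 else 0)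
    (fun F hF => if_neg (by rintro rfl; exact hF h0))
    (fun G => by
      unfold boundary
      apply Finset.sum_eq_zero
      intro v _
      dsimp only
      rw [if_neg (Finset.insert_ne_empty _ _), mul_zero])
  have h := hd' ∅
  simp only [if_true, boundary] at h
  rw [Finset.sum_eq_zero] at h
  · exact one_ne_zero h
  · intro v _
    have : insert v (∅ : Finset (Fin n)) = {v} := rfl
    rw [this, hd _ (hcon v), mul_zero]

/-- in an acyclic complex any two vertices are joined by edges -/
theorem vertex_connected {L : Finset (Finset (Fin n))} (hA : Acyclic k L)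
    (s : Fin n → Prop) (hs : ∀ v w, v ≠ w → {v, w} ∈ L → s v → s w) (v w : Fin n)
    (hv : {v} ∈ L) (hw : {w} ∈ L) (h : s v) : s w := by
  classical
  by_contra hcon
  have hvw : v ≠ w := fun e => hcon (e ▸ h)
  obtain ⟨d, hd, hd'⟩ := hA
    (fun F => (if F = {v} then 1 else 0) - (if F = {w} then 1 else 0))
    (fun F hF => by
      have a1 : F ≠ {v} := by rintro rfl; exact hF hv
      have a2 : F ≠ {w} := by rintro rfl; exact hF hw
      rw [if_neg a1, if_neg a2, sub_zero])
    (fun G => by
      unfold boundary
      by_cases hG : G = ∅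
      · subst hG
        simp only [Finset.compl_empty, Finset.filter_empty, Finset.card_empty, pow_zero, one_mul,
          insert_empty_eq, Finset.singleton_inj]
        rw [Finset.sum_sub_distrib]
        simp
      · apply Finset.sum_eq_zero
        intro x hx
        have key : ∀ y : Fin n, insert x G ≠ {y} := by
          intro y e
          have h1 : (insert x G).card = 1 := by rw [e, Finset.card_singleton]
          rw [Finset.card_insert_of_notMem (Finset.mem_compl.mp hx)] at h1
          exact hG (Finset.card_eq_zero.mp (by omega))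
        dsimp only
        rw [if_neg (key v), if_neg (key w), sub_zero, mul_zero])
  have e1 : ∑ x : Fin n, (if s x then (1 : k) else 0) *
      ((if ({x} : Finset (Fin n)) = {v} then 1 else 0) -
        (if ({x} : Finset (Fin n)) = {w} then 1 else 0)) = 1 := by
    simp only [Finset.singleton_inj, mul_sub, Finset.sum_sub_distrib, mul_ite, mul_one, mul_zero]
    simp [h, hcon]
  have e2 : ∑ x : Fin n, (if s x then (1 : k) else 0) * boundary d {x} = 0 := by
    unfold boundary
    simp only [Finset.mul_sum]
    rw [Finset.sum_sigma']
    refine Finset.sum_involution (fun p _ => ⟨p.2, p.1⟩) ?_ ?_ ?_ ?_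
    · rintro ⟨x, y⟩ hp
      simp only [Finset.mem_sigma, Finset.mem_univ, true_and, Finset.mem_compl,
        Finset.mem_singleton] at hp
      dsimp only
      have e : (insert x ({y} : Finset (Fin n))) = insert y {x} := Finset.pair_comm x y
      rw [e]
      by_cases hd0 : insert y ({x} : Finset (Fin n)) ∈ L
      · have hxy : (s x ↔ s y) := by
          constructor
          · exact hs x y (Ne.symm hp) (by rwa [Finset.pair_comm])
          · exact hs y x hp hd0
        have f1 : ((({x} : Finset (Fin n)).filter (fun z => z < y)).card) =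
            if x < y then 1 else 0 := by
          rw [Finset.filter_singleton]; split_ifs <;> simp
        have f2 : ((({y} : Finset (Fin n)).filter (fun z => z < x)).card) =
            if y < x then 1 else 0 := by
          rw [Finset.filter_singleton]; split_ifs <;> simp
        rw [f1, f2, if_congr hxy rfl rfl]
        rcases lt_or_gt_of_ne hp with hlt | hlt
        · rw [if_pos hlt, if_neg (asymm hlt)]; ring
        · rw [if_pos hlt, if_neg (asymm hlt)]; ring
      · rw [hd _ hd0]; ring
    · rintro ⟨x, y⟩ hp _ h'
      simp only [Finset.mem_sigma, Finset.mem_univ, true_and, Finset.mem_compl,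
        Finset.mem_singleton] at hp
      exact hp (congrArg Sigma.fst h')
    · rintro ⟨x, y⟩ hp
      simp only [Finset.mem_sigma, Finset.mem_univ, true_and, Finset.mem_compl,
        Finset.mem_singleton] at hp ⊢
      exact fun e => hp e.symm
    · rintro ⟨x, y⟩ _
      rfl
  have e3 : ∑ x : Fin n, (if s x then (1 : k) else 0) *
      ((if ({x} : Finset (Fin n)) = {v} then 1 else 0) -
        (if ({x} : Finset (Fin n)) = {w} then 1 else 0)) =
      ∑ x : Fin n, (if s x then (1 : k) else 0) * boundary d {x} := by
    apply Finset.sum_congr rfl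
    intro x _
    rw [← hd' {x}]
  rw [e1, e2] at e3
  exact one_ne_zero e3

/-- extension by zero -/
noncomputable def extL (k : Type*) [Field k] (S : Finset (Finset (Fin n))) :
    (S → k) →ₗ[k] (Finset (Fin n) → k) where
  toFun c F := by classical exact if h : F ∈ S then c ⟨F, h⟩ else 0
  map_add' c d := by
    ext F
    by_cases h : F ∈ S <;> simp [h]
  map_smul' a c := by
    ext F
    by_cases h : F ∈ S <;> simp [h]

/-- the boundary as a linear map -/
noncomputable def bdL (k : Type*) [Field k] (n : ℕ) :
    (Finset (Fin n) → k) →ₗ[k] (Finset (Fin n) → k) where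
  toFun c := boundary c
  map_add' c d := by
    ext G
    simp [boundary, mul_add, Finset.sum_add_distrib]
  map_smul' a c := by
    ext G
    simp only [boundary, Pi.smul_apply, smul_eq_mul, RingHom.id_apply, Finset.mul_sum]
    apply Finset.sum_congr rfl
    intro v _
    ring

/-- the part of the boundary from chains on `S` to chains on `T` -/
noncomputable def partL (k : Type*) [Field k] (S T : Finset (Finset (Fin n))) :
    (S → k) →ₗ[k] (T → k) :=
  (LinearMap.funLeft k k (Subtype.val : T → Finset (Fin n))).comp ((bdL k n).comp (extL k S))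

theorem partL_apply (S T : Finset (Finset (Fin n))) (c : S → k) (G : T) :
    partL k S T c G = boundary (extL k S c) G := rfl

theorem extL_apply_mem (S : Finset (Finset (Fin n))) (c : S → k) {F : Finset (Fin n)}
    (h : F ∈ S) : extL k S c F = c ⟨F, h⟩ := by
  simp [extL, h]

theorem extL_apply_notMem (S : Finset (Finset (Fin n))) (c : S → k) {F : Finset (Fin n)}
    (h : F ∉ S) : extL k S c F = 0 := by
  simp [extL, h]

theorem exact_part {L S T : Finset (Finset (Fin n))} (hL : ∀ F ∈ L, ∀ G, G ⊆ F → G ∈ L)
    (hA : Acyclic k L) (hST : ∀ F, F ∈ L ↔ F ∈ S ∨ F ∈ T)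
    (hS : ∀ F ∈ S, ∀ v, v ∉ F → insert v F ∉ S) (hT : ∀ F ∈ T, ∀ v, v ∉ F → insert v F ∉ T) :
    LinearMap.range (partL k T S) = LinearMap.ker (partL k S T) := by
  classical
  apply le_antisymm
  · rintro _ ⟨d, rfl⟩
    rw [LinearMap.mem_ker]
    ext G
    rw [partL_apply, Pi.zero_apply]
    have key : ∀ F, extL k S (partL k T S d) F = boundary (extL k T d) F := by
      intro F
      by_cases hF : F ∈ S
      · rw [extL_apply_mem _ _ hF, partL_apply]
      · rw [extL_apply_notMem _ _ hF]
        symm
        unfold boundary
        apply Finset.sum_eq_zero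
        intro v hv
        rw [Finset.mem_compl] at hv
        have : insert v F ∉ T := by
          intro h
          have h1 : F ∈ L := hL _ ((hST _).2 (Or.inr h)) _ (Finset.subset_insert _ _)
          rcases (hST F).1 h1 with h2 | h2
          · exact hF h2
          · exact hT F h2 v hv h
        rw [extL_apply_notMem _ _ this, mul_zero]
    have : (extL k S (partL k T S d)) = boundary (extL k T d) := funext key
    rw [this, boundary_boundary]
  · intro c hc
    rw [LinearMap.mem_ker] at hc
    have hb : ∀ G, boundary (extL k S c) G = 0 := by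
      intro G
      by_cases hG : G ∈ T
      · have := congrFun hc ⟨G, hG⟩
        rwa [partL_apply] at this
      · unfold boundary
        apply Finset.sum_eq_zero
        intro v hv
        rw [Finset.mem_compl] at hv
        have : insert v G ∉ S := by
          intro h
          have h1 : G ∈ L := hL _ ((hST _).2 (Or.inl h)) _ (Finset.subset_insert _ _)
          rcases (hST G).1 h1 with h2 | h2
          · exact hS G h2 v hv h
          · exact hG h2
        rw [extL_apply_notMem _ _ this, mul_zero]
    obtain ⟨d, hd, hd'⟩ := hA (extL k S c)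
      (fun F hF => extL_apply_notMem _ _ (fun h => hF ((hST F).2 (Or.inl h)))) hb
    refine ⟨fun F => d F, ?_⟩
    ext ⟨G, hG⟩
    rw [partL_apply]
    rw [← extL_apply_mem (k := k) S c hG, hd' G]
    unfold boundary
    apply Finset.sum_congr rfl
    intro v hv
    rw [Finset.mem_compl] at hv
    congr 1
    by_cases h : insert v G ∈ T
    · rw [extL_apply_mem _ _ h]
    · rw [extL_apply_notMem _ _ h]
      symm
      apply hd
      intro h1
      rcases (hST _).1 h1 with h2 | h2
      · exact hS G hG v hv h2
      · exact h h2

theorem card_eq_of_acyclic {L S T : Finset (Finset (Fin n))}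
    (hL : ∀ F ∈ L, ∀ G, G ⊆ F → G ∈ L)
    (hA : Acyclic k L) (hST : ∀ F, F ∈ L ↔ F ∈ S ∨ F ∈ T)
    (hS : ∀ F ∈ S, ∀ v, v ∉ F → insert v F ∉ S) (hT : ∀ F ∈ T, ∀ v, v ∉ F → insert v F ∉ T) :
    S.card = T.card := by
  have h1 := LinearMap.finrank_range_add_finrank_ker (partL k S T)
  have h2 := LinearMap.finrank_range_add_finrank_ker (partL k T S)
  rw [← exact_part hL hA hST hS hT, Module.finrank_fintype_fun_eq_card, Fintype.card_coe] at h1
  rw [← exact_part hL hA (fun F => (hST F).trans Or.comm) hT hS,
    Module.finrank_fintype_fun_eq_card, Fintype.card_coe] at h2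
  omega

/-- the reduced Euler characteristic of an acyclic complex vanishes -/
theorem sum_sign_eq_zero {L : Finset (Finset (Fin n))}
    (hL : ∀ F ∈ L, ∀ G, G ⊆ F → G ∈ L) (hA : Acyclic k L) :
    ∑ F ∈ L, (-1 : ℤ) ^ F.card = 0 := by
  classical
  have h := card_eq_of_acyclic (k := k) (L := L) (S := L.filter (fun F => Even F.card))
    (T := L.filter (fun F => ¬ Even F.card)) hL hA
    (fun F => by
      simp only [Finset.mem_filter]
      tauto)
    (fun F hF v hv h => by
      rw [Finset.mem_filter] at hF h
      rw [Finset.card_insert_of_notMem hv] at h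
      exact (Nat.even_add_one.mp h.2) hF.2)
    (fun F hF v hv h => by
      rw [Finset.mem_filter] at hF h
      rw [Finset.card_insert_of_notMem hv] at h
      exact h.2 (Nat.even_add_one.mpr hF.2))
  rw [← Finset.sum_filter_add_sum_filter_not L (fun F => Even F.card)]
  have e1 : ∑ F ∈ L.filter (fun F => Even F.card), (-1 : ℤ) ^ F.card =
      (L.filter (fun F => Even F.card)).card := by
    rw [Finset.card_eq_sum_ones, Nat.cast_sum]
    apply Finset.sum_congr rfl
    intro F hF
    rw [(Finset.mem_filter.mp hF).2.neg_one_pow]
    simp
  have e2 : ∑ F ∈ L.filter (fun F => ¬ Even F.card), (-1 : ℤ) ^ F.card =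
      -((L.filter (fun F => ¬ Even F.card)).card : ℤ) := by
    rw [Finset.card_eq_sum_ones, Nat.cast_sum, ← Finset.sum_neg_distrib]
    apply Finset.sum_congr rfl
    intro F hF
    rw [(Nat.not_even_iff_odd.mp (Finset.mem_filter.mp hF).2).neg_one_pow]
    simp
  rw [e1, e2, h]
  ring

end

end Pool.Agent.Lib.MP_af28a5_co
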