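import Pool.Agent.Lib.MP_af28a5_co.Check
import Pool.Agent.Lib.MP_af28a5_co.Cone

/-!
The glued complex is `1`-acyclic and has no partition into intervals of length two.
-/

namespace Pool.Agent.Lib.MP_af28a5_co

open Finset

/-- number of elements of the coded face -/
def pc (m : ℕ) : ℕ := ((List.finRange 13).filter (fun i => m.testBit i.val)).length

theorem card_dec (m : ℕ) : (dec m).card = pc m := by
  have h : ((List.finRange 13).filter (fun i => m.testBit i.val)) =
      ((List.finRange 13).filter (fun i => decide (m.testBit i.val = true))) := by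
    congr 1
    funext i
    simp
  unfold pc
  rw [h]
  rfl

theorem dec_zero : dec 0 = ∅ := by
  apply Finset.eq_empty_of_forall_notMem
  intro i hi
  rw [mem_dec, Nat.zero_testBit] at hi
  exact Bool.false_ne_true hi

theorem bool_aux (x y : Bool) (h : x = true → y = true) :
    (y ^^ x) = true ↔ (y = true ∧ ¬ x = true) := by
  cases x <;> cases y <;> simp_all

theorem dec_xor {b t : ℕ} (h : dec b ⊆ dec t) : dec (t ^^^ b) = dec t \ dec b := by
  ext i
  rw [mem_dec, Finset.mem_sdiff, mem_dec, mem_dec, Nat.testBit_xor]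
  exact bool_aux _ _ (fun h13 => mem_dec.mp (h (mem_dec.mpr h13)))

theorem zero_mem_kList : 0 ∈ kList := by decide +kernel

/-- the complex on `Fin 13` -/
def K : Finset (Finset (Fin 13)) := (kList.map dec).toFinset

/-- the shared part -/
def A : Finset (Finset (Fin 13)) := (aList.map dec).toFinset

theorem mem_K {F : Finset (Fin 13)} : F ∈ K ↔ F ∈ S kList := by
  simp [K, S]

theorem mem_A {F : Finset (Fin 13)} : F ∈ A ↔ F ∈ S aList := by
  simp [A, S]

theorem card_A : A.card < 37 := by
  refine lt_of_le_of_lt (List.toFinset_card_le _) ?_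
  rw [List.length_map]
  decide

theorem kList_lt : ∀ m ∈ kList, m < 8192 := by decide +kernel

theorem kList_old : ∀ m ∈ kList, m ∈ aList ∨ m.testBit 10 = true ∨ m.testBit 11 = true ∨
    m.testBit 12 = true := by decide +kernel

theorem kList_new : ∀ m ∈ kList, m ∈ pList ∨ (m.testBit 10 = false ∧ m.testBit 11 = false ∧
    m.testBit 12 = false) := by decide +kernel

theorem aList_old : ∀ m ∈ aList, m.testBit 10 = false ∧ m.testBit 11 = false ∧
    m.testBit 12 = false := by decide +kernel

theorem pList_new : ∀ m ∈ pList, m ∈ kList ∧ (m.testBit 10 = true ∨ m.testBit 11 = true ∨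
    m.testBit 12 = true) := by decide +kernel

theorem iList_complete : (pList.all (fun b => pList.all (fun t =>
    !((b &&& t == b) && (pc (t ^^^ b) == 2)) || iList.contains (b, t)))) = true := by
  decide +kernel

theorem hasNew_dec {m : ℕ} : HasNew (dec m) ↔ (m.testBit 10 = true ∨ m.testBit 11 = true ∨
    m.testBit 12 = true) := by
  constructor
  · rintro ⟨v, hv, h10⟩
    rw [mem_dec] at hv
    have hlt := v.isLt
    obtain h | h | h : v.val = 10 ∨ v.val = 11 ∨ v.val = 12 := by omega
    · rw [h] at hv; exact Or.inl hv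
    · rw [h] at hv; exact Or.inr (Or.inl hv)
    · rw [h] at hv; exact Or.inr (Or.inr hv)
  · rintro (h | h | h)
    · exact ⟨⟨10, by norm_num⟩, mem_dec.mpr h, le_rfl⟩
    · exact ⟨⟨11, by norm_num⟩, mem_dec.mpr h, by norm_num⟩
    · exact ⟨⟨12, by norm_num⟩, mem_dec.mpr h, by norm_num⟩

theorem S_nil : S [] = ∅ := by
  ext F; simp [S]

theorem exp_A : Exp ∅ (S aList) := by
  rw [← S_nil]; exact expTo_sound check_A

theorem exp_K : Exp (S aList) (S kList) := expTo_sound check_K

theorem down_S_K : Down (S kList) := by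
  have h1 : Down (∅ : Set (Finset (Fin 13))) := fun F hF => absurd hF (Set.notMem_empty F)
  have h2 : AcyclicS ℚ (∅ : Set (Finset (Fin 13))) := by
    intro c hc _
    refine ⟨fun _ => 0, fun _ _ => rfl, fun G => ?_⟩
    rw [hc G (Set.notMem_empty G), boundary_eq]
    simp
  exact (acyclicS_of_exp (k := ℚ) (Exp.trans exp_A exp_K) h1 h2).1

theorem K_down : ∀ F ∈ K, ∀ G, G ⊆ F → G ∈ K := by
  intro F hF G hG
  rw [mem_K] at hF ⊢
  exact down_S_K F hF G hG

theorem old_mem_A : ∀ F ∈ K, ¬ HasNew F → F ∈ A := by
  intro F hF hn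
  rw [mem_K] at hF
  obtain ⟨m, hm, rfl⟩ := hF
  rw [hasNew_dec] at hn
  rw [mem_A]
  rcases kList_old m hm with h | h
  · exact ⟨m, h, rfl⟩
  · exact absurd h hn

theorem A_old : ∀ F ∈ S aList, ¬ HasNew F := by
  rintro F ⟨m, hm, rfl⟩
  rw [hasNew_dec]
  obtain ⟨h1, h2, h3⟩ := aList_old m hm
  simp [h1, h2, h3]

theorem noLocal_K : NoLocal K := by
  rintro ⟨g, hg⟩
  obtain ⟨r, hr⟩ := Option.isSome_iff_exists.mp check_refute
  refine refute_sound (g := g) ?_ 50 rList [] r hr (fun p hp => absurd hp List.not_mem_nil)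
  intro f hf
  obtain ⟨hfK, hfn⟩ := pList_new f hf
  obtain ⟨h1, h2, h3, h4, h5, h6⟩ := hg (dec f) (mem_K.mpr ⟨f, hfK, rfl⟩) (hasNew_dec.mpr hfn)
  have h7 := K_down _ h3 _ (h1.trans h2)
  have hT : HasNew (g (dec f)).2 := by
    obtain ⟨v, hv, hv'⟩ := h4
    exact ⟨v, h2 (h1 hv), hv'⟩
  rw [mem_K] at h3 h7
  obtain ⟨t, ht, hte⟩ := h3
  obtain ⟨b, hb, hbe⟩ := h7
  have htp : t ∈ pList := by
    rcases kList_new t ht with h | h
    · exact h
    · rw [← hte, hasNew_dec] at hT
      simp [h.1, h.2.1, h.2.2] at hT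
  have hbp : b ∈ pList := by
    rcases kList_new b hb with h | h
    · exact h
    · rw [← hbe, hasNew_dec] at h4
      simp [h.1, h.2.1, h.2.2] at h4
  have hblt := kList_lt b hb
  have htlt := kList_lt t ht
  have hflt := kList_lt f hfK
  have hgf : g (dec f) = (dec b, dec t) := by rw [hbe, hte]
  rw [hgf] at h1 h2 h5 h6
  simp only at h1 h2 h5 h6
  have hbt : b &&& t = b := subset_dec hblt (h1.trans h2)
  refine ⟨(b, t), ?_, hblt, htlt, h6⟩
  unfold cands
  rw [List.mem_filter]
  refine ⟨?_, ?_⟩
  · have h8 := iList_complete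
    rw [List.all_eq_true] at h8
    have h9 := h8 b hbp
    rw [List.all_eq_true] at h9
    have h10 := h9 t htp
    have h11 : pc (t ^^^ b) = 2 := by
      rw [← card_dec, ← h5, dec_xor (h1.trans h2)]
    rw [hbt, h11] at h10
    simpa using h10
  · rw [Bool.and_eq_true, beq_iff_eq, beq_iff_eq]
    exact ⟨subset_dec hblt h1, subset_dec hflt h2⟩

theorem isComplex_glue {N : ℕ} (hN : 0 < N) : IsComplex (glue N K) := by
  constructor
  · exact mem_glue.mpr ⟨⟨0, hN⟩, ∅, mem_K.mpr ⟨0, zero_mem_kList, dec_zero⟩,
      Finset.map_empty _⟩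
  · intro F hF G hG
    obtain ⟨i, F', hF', rfl⟩ := mem_glue.mp hF
    obtain ⟨G', hG', rfl⟩ := Finset.subset_map_iff.mp hG
    exact mem_glue.mpr ⟨i, G', K_down _ hF' _ hG', rfl⟩

theorem kList_card : ∀ m ∈ kList, pc m ≤ 4 := by decide +kernel

theorem card_glue {N : ℕ} : ∀ F ∈ glue N K, F.card ≤ 4 := by
  intro F hF
  obtain ⟨i, F', hF', rfl⟩ := mem_glue.mp hF
  rw [Finset.card_map]
  rw [mem_K] at hF'
  obtain ⟨m, hm, rfl⟩ := hF'
  rw [card_dec]
  exact kList_card m hm

theorem no_assign_X : ¬ ∃ g, IsAssign 2 (glue 37 K) g :=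
  no_assign_glue K_down old_mem_A card_A noLocal_K

theorem jexp_glue {N : ℕ} (hN : 0 < N) : JExp 1 (glue N K) := by
  intro F hF hc
  have hcases : F = ∅ ∨ ∃ v, F = {v} := by
    rcases Nat.eq_zero_or_pos F.card with h | h
    · exact Or.inl (Finset.card_eq_zero.mp h)
    · exact Or.inr (Finset.card_eq_one.mp (by omega))
  rcases hcases with rfl | ⟨v, rfl⟩
  · -- the whole complex
    have h1 := exp_glue (N := N) hN A_old (fun G hG hGA => by
      by_contra hn
      exact hGA (mem_A.mp (old_mem_A G (mem_K.mpr hG) hn))) exp_A exp_K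
    have h2 : ({F | ∃ i : Fin N, ∃ G ∈ S kList, G.map (cop i) = F} :
        Set (Finset (Fin (10 + 3 * N)))) = (link (glue N K) ∅ : Set _) := by
      ext G
      rw [Set.mem_ofPred_eq, Finset.mem_coe, mem_link]
      simp only [Finset.inter_empty, Finset.union_empty, true_and, and_self]
      rw [mem_glue]
      constructor
      · rintro ⟨i, G', hG', h⟩; exact ⟨i, G', mem_K.mpr hG', h⟩
      · rintro ⟨i, G', hG', h⟩; exact ⟨i, G', mem_K.mp hG', h⟩
    rw [← h2]
    exact h1
  · obtain ⟨i, G, hG, hGv⟩ := mem_glue.mp hF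
    have hG1 : G.card = 1 := by
      rw [← Finset.card_map (cop i), hGv, Finset.card_singleton]
    obtain ⟨w, rfl⟩ := Finset.card_eq_one.mp hG1
    rw [Finset.map_singleton, Finset.singleton_inj] at hGv
    subst hGv
    -- the general form of the link
    have hlink : ∀ H : Finset (Fin (10 + 3 * N)), H ∈ link (glue N K) {cop i w} ↔
        ∃ i' : Fin N, cop i' w = cop i w ∧ ∃ G ∈ S (linkL kList w.val), G.map (cop i') = H := by
      intro H
      rw [mem_link]
      constructor
      · rintro ⟨_, h2, h3⟩
        obtain ⟨i', G', hG', h4⟩ := mem_glue.mp h3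
        have h5 : cop i w ∈ G'.map (cop i') := by
          rw [h4]; exact Finset.mem_union_right _ (Finset.mem_singleton_self _)
        rw [Finset.mem_map] at h5
        obtain ⟨u, hu, huw⟩ := h5
        have huw' : u = w := by
          by_cases hw : w.val < 10
          · have h6 : u.val < 10 := by
              rw [← cop_lt_iff i' u, huw, cop_lt_iff]; exact hw
            have h7 := congrArg Fin.val huw
            rw [cop_val, cop_val, if_pos hw, if_pos h6] at h7
            exact Fin.ext h7
          · exact (cop_new (by omega) huw.symm).2.symm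
        subst huw'
        refine ⟨i', huw, G'.erase u, ?_, ?_⟩
        · rw [mem_S_linkL]
          refine ⟨Finset.notMem_erase _ _, ?_⟩
          rw [Finset.insert_erase hu]
          exact mem_K.mp hG'
        · rw [Finset.map_erase, h4, huw]
          ext y
          simp only [Finset.mem_erase, Finset.mem_union, Finset.mem_singleton]
          constructor
          · rintro ⟨h8, h9 | h9⟩
            · exact h9
            · exact absurd h9 h8
          · intro h8
            refine ⟨?_, Or.inl h8⟩
            rintro rfl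
            have : cop i u ∈ H ∩ {cop i u} :=
              Finset.mem_inter.mpr ⟨h8, Finset.mem_singleton_self _⟩
            rw [h2] at this
            exact Finset.notMem_empty _ this
      · rintro ⟨i', h1, G, hG, rfl⟩
        rw [mem_S_linkL] at hG
        obtain ⟨h2, h3⟩ := hG
        have h4 : G.map (cop i') ∪ {cop i w} = (insert w G).map (cop i') := by
          rw [Finset.map_insert, h1, Finset.union_comm, Finset.insert_eq]
        refine ⟨mem_glue.mpr ⟨i', G, K_down _ (mem_K.mpr h3) _ (Finset.subset_insert _ _), rfl⟩,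
          ?_, ?_⟩
        · rw [← h1, ← Finset.disjoint_iff_inter_eq_empty, Finset.disjoint_singleton_right]
          intro h5
          rw [Finset.mem_map'] at h5
          exact h2 h5
        · rw [h4]
          exact mem_glue.mpr ⟨i', _, mem_K.mpr h3, rfl⟩
    by_cases hw : w.val < 10
    · have h1 := exp_glue (N := N) hN (A := S (linkL aList w.val))
        (L := S (linkL kList w.val))
        (by
          intro G hG
          rw [mem_S_linkL] at hG
          intro hn
          obtain ⟨v, hv, hv10⟩ := hn
          exact A_old _ hG.2 ⟨v, Finset.mem_insert_of_mem hv, hv10⟩)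
        (by
          intro G hG hGA
          rw [mem_S_linkL] at hG hGA
          by_contra hn
          refine hGA ⟨hG.1, mem_A.mp (old_mem_A _ (mem_K.mpr hG.2) ?_)⟩
          rintro ⟨v, hv, hv10⟩
          rw [Finset.mem_insert] at hv
          rcases hv with rfl | hv
          · omega
          · exact hn ⟨v, hv, hv10⟩)
        (by rw [← S_nil]; exact expTo_sound (check_LA ⟨w.val, hw⟩))
        (expTo_sound (check_LK ⟨w.val, hw⟩))
      have h2 : ({F | ∃ i : Fin N, ∃ G ∈ S (linkL kList w.val), G.map (cop i) = F} :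
          Set (Finset (Fin (10 + 3 * N)))) = (link (glue N K) {cop i w} : Set _) := by
        ext H
        rw [Set.mem_ofPred_eq, Finset.mem_coe, hlink]
        constructor
        · rintro ⟨i', h⟩; exact ⟨i', cop_old _ _ hw, h⟩
        · rintro ⟨i', _, h⟩; exact ⟨i', h⟩
      rw [← h2]
      exact h1
    · have hlt := w.isLt
      have h0 : Exp ∅ (S (linkL kList w.val)) := by
        have := expTo_sound (check_N ⟨w.val - 10, by omega⟩)
        rw [S_nil] at this
        simp only at this
        rwa [Nat.sub_add_cancel (by omega)] at this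
      have h1 := Exp.map (cop i) h0 ∅ (fun F hF => absurd hF (Set.notMem_empty F))
        (fun F _ _ => Set.notMem_empty _)
      have h2 : ((∅ : Set (Finset (Fin (10 + 3 * N)))) ∪
          {G | ∃ F ∈ S (linkL kList w.val), F.map (cop i) = G}) =
          (link (glue N K) {cop i w} : Set _) := by
        ext H
        rw [Set.empty_union, Set.mem_ofPred_eq, Finset.mem_coe, hlink]
        constructor
        · rintro h; exact ⟨i, rfl, h⟩
        · rintro ⟨i', h3, h⟩
          have := (cop_new (by omega) h3).1
          subst this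
          exact h
      rw [← h2]
      exact h1

/-- the examples for all `j ≥ 1` -/
theorem exists_all (j : ℕ) : ∃ (n : ℕ) (Δ : Finset (Finset (Fin n))), IsComplex Δ ∧
    (∀ F ∈ Δ, F.card ≤ j + 4) ∧ JExp (j + 1) Δ ∧ ¬ ∃ g, IsAssign (j + 2) Δ g := by
  induction j with
  | zero => exact ⟨_, glue 37 K, isComplex_glue (by norm_num), card_glue,
    jexp_glue (by norm_num), no_assign_X⟩
  | succ j ih =>
    obtain ⟨n, Δ, h1, h2, h3, h4⟩ := ih
    refine ⟨n + 1, cone Δ, isComplex_cone h1, ?_, jexp_cone h1 h3, fun h => h4 (assign_of_cone h1 h)⟩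
    intro F hF
    have := card_cone h2 F hF
    omega

end Pool.Agent.Lib.MP_af28a5_co
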