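import Pool.Agent.Lib.MP_af28a5_co.Main

/-!
Packings by disjoint intervals of length at least `r`, and the number of faces they miss.
-/

namespace Pool.Agent.Lib.MP_af28a5_co

open Finset

theorem mem_uncovered {n : ℕ} {Δ : Finset (Finset (Fin n))}
    {P : Finset (Finset (Fin n) × Finset (Fin n))} {H : Finset (Fin n)} :
    H ∈ uncovered Δ P ↔ H ∈ Δ ∧ ∀ p ∈ P, ¬ (p.1 ⊆ H ∧ H ⊆ p.2) := by
  unfold uncovered
  rw [Finset.mem_filter]

/-- every packing by intervals of length at least `r` misses more than the fraction `1 / c`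
of the faces -/
def Robust (r c : ℕ) {n : ℕ} (Δ : Finset (Finset (Fin n))) : Prop :=
  ∀ P, IsPacking r Δ P → Δ.card < c * (uncovered Δ P).card

theorem not_union_of_robust {r c n : ℕ} {Δ : Finset (Finset (Fin n))} (h0 : IsComplex Δ)
    (h : Robust r c Δ) : ¬ IsUnionOfIntervals r Δ := by
  rintro ⟨P, hP, hP'⟩
  have h1 : IsPacking r Δ P := by
    refine ⟨fun p hp => ⟨(hP p hp).1, (hP p hp).2.1, (hP p hp).2.2.ge⟩, ?_⟩
    intro p hp q hq H a1 a2 a3 a4
    have hH : H ∈ Δ := h0.2 _ (hP p hp).2.1 _ a2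
    exact (hP' H hH).unique ⟨hp, a1, a2⟩ ⟨hq, a3, a4⟩
  have h2 := h P h1
  have h3 : uncovered Δ P = ∅ := by
    apply Finset.eq_empty_of_forall_notMem
    intro H hH
    rw [mem_uncovered] at hH
    obtain ⟨p, ⟨hp, h4⟩, -⟩ := hP' H hH.1
    exact hH.2 p hp h4
  rw [h3] at h2
  simp at h2

/-! ### Cones -/

section cone

variable {n : ℕ}

/-- the restriction to the first `n` elements -/
def res (S : Finset (Fin (n + 1))) : Finset (Fin n) :=
  Finset.univ.filter (fun v => inc v ∈ S)

theorem mem_res {S : Finset (Fin (n + 1))} {v : Fin n} : v ∈ res S ↔ inc v ∈ S := by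
  simp [res]

theorem res_mono {S T : Finset (Fin (n + 1))} (h : S ⊆ T) : res S ⊆ res T := by
  intro v hv
  rw [mem_res] at hv ⊢
  exact h hv

theorem inc_ne (v : Fin n) : inc v ≠ Fin.last n := (Fin.castSucc_lt_last v).ne

theorem cases_inc (v : Fin (n + 1)) : v = Fin.last n ∨ ∃ u, v = inc u := by
  by_cases h : v = Fin.last n
  · exact Or.inl h
  · obtain ⟨u, rfl⟩ := Fin.exists_castSucc_eq.mpr h
    exact Or.inr ⟨u, rfl⟩

theorem map_subset_iff {F : Finset (Fin n)} {S : Finset (Fin (n + 1))} :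
    F.map inc ⊆ S ↔ F ⊆ res S := by
  constructor
  · intro h v hv
    rw [mem_res]
    exact h (Finset.mem_map_of_mem _ hv)
  · intro h v hv
    rw [Finset.mem_map] at hv
    obtain ⟨u, hu, rfl⟩ := hv
    exact mem_res.mp (h hu)

theorem subset_map_iff' {F : Finset (Fin n)} {S : Finset (Fin (n + 1))} :
    S ⊆ F.map inc ↔ Fin.last n ∉ S ∧ res S ⊆ F := by
  constructor
  · intro h
    refine ⟨fun h1 => last_notMem F (h h1), fun v hv => ?_⟩
    rw [mem_res] at hv
    exact (Finset.mem_map' inc).mp (h hv)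
  · rintro ⟨h1, h2⟩ v hv
    rcases cases_inc v with rfl | ⟨u, rfl⟩
    · exact absurd hv h1
    · exact Finset.mem_map_of_mem _ (h2 (mem_res.mpr hv))

theorem insert_map_subset_iff {F : Finset (Fin n)} {S : Finset (Fin (n + 1))} :
    insert (Fin.last n) (F.map inc) ⊆ S ↔ Fin.last n ∈ S ∧ F ⊆ res S := by
  rw [Finset.insert_subset_iff, map_subset_iff]

theorem subset_insert_map_iff {F : Finset (Fin n)} {S : Finset (Fin (n + 1))} :
    S ⊆ insert (Fin.last n) (F.map inc) ↔ res S ⊆ F := by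
  constructor
  · intro h v hv
    rw [mem_res] at hv
    have h1 := h hv
    rw [Finset.mem_insert] at h1
    rcases h1 with h1 | h1
    · exact absurd h1 (inc_ne v)
    · exact (Finset.mem_map' inc).mp h1
  · intro h v hv
    rcases cases_inc v with rfl | ⟨u, rfl⟩
    · exact Finset.mem_insert_self _ _
    · exact Finset.mem_insert_of_mem (Finset.mem_map_of_mem _ (h (mem_res.mpr hv)))

theorem card_res {T B : Finset (Fin (n + 1))} {r : ℕ} (h : r + 1 ≤ (T \ B).card) :
    r ≤ (res T \ res B).card := by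
  have h1 : T \ B ⊆ insert (Fin.last n) ((res T \ res B).map inc) := by
    intro v hv
    rw [Finset.mem_sdiff] at hv
    rcases cases_inc v with rfl | ⟨u, rfl⟩
    · exact Finset.mem_insert_self _ _
    · refine Finset.mem_insert_of_mem (Finset.mem_map_of_mem _ ?_)
      rw [Finset.mem_sdiff, mem_res, mem_res]
      exact hv
  have h2 := Finset.card_le_card h1
  have h3 := Finset.card_insert_le (Fin.last n) ((res T \ res B).map inc)
  rw [Finset.card_map] at h3
  omega

theorem res_mem {Δ : Finset (Finset (Fin n))} {T : Finset (Fin (n + 1))} (h : T ∈ cone Δ) :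
    res T ∈ Δ := by
  rcases mem_cone.mp h with ⟨G, hG, rfl⟩ | ⟨G, hG, rfl⟩
  · have : res (G.map inc) = G := by
      ext v; rw [mem_res]; exact Finset.mem_map' inc
    rw [this]; exact hG
  · have : res (insert (Fin.last n) (G.map inc)) = G := by
      ext v
      rw [mem_res, Finset.mem_insert]
      constructor
      · rintro (h1 | h1)
        · exact absurd h1 (inc_ne v)
        · exact (Finset.mem_map' inc).mp h1
      · intro h1
        exact Or.inr (Finset.mem_map_of_mem _ h1)
    rw [this]; exact hG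

theorem insert_map_inj {F G : Finset (Fin n)}
    (h : insert (Fin.last n) (F.map inc) = insert (Fin.last n) (G.map inc)) : F = G := by
  have h1 : F.map inc = G.map inc := by
    rw [← Finset.erase_insert (last_notMem F), ← Finset.erase_insert (last_notMem G), h]
  rwa [Finset.map_inj] at h1

theorem card_cone_eq (Δ : Finset (Finset (Fin n))) : (cone Δ).card = 2 * Δ.card := by
  unfold cone
  rw [Finset.card_union_of_disjoint, Finset.card_image_of_injective,
    Finset.card_image_of_injective, two_mul]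
  · intro F G h; exact insert_map_inj h
  · intro F G h; exact Finset.map_inj.mp h
  · rw [Finset.disjoint_left]
    intro F hF hF'
    rw [Finset.mem_image] at hF hF'
    obtain ⟨G, _, rfl⟩ := hF
    obtain ⟨G', _, h⟩ := hF'
    exact last_notMem G (h ▸ Finset.mem_insert_self _ _)

theorem robust_cone {Δ : Finset (Finset (Fin n))} {r c : ℕ} (h : Robust r c Δ) :
    Robust (r + 1) c (cone Δ) := by
  classical
  intro P hP
  set P1 : Finset (Finset (Fin n) × Finset (Fin n)) :=
    (P.filter (fun p => Fin.last n ∉ p.1)).image (fun p => (res p.1, res p.2)) with hP1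
  set P2 : Finset (Finset (Fin n) × Finset (Fin n)) :=
    (P.filter (fun p => Fin.last n ∈ p.2)).image (fun p => (res p.1, res p.2)) with hP2
  have pk1 : IsPacking r Δ P1 := by
    refine ⟨?_, ?_⟩
    · intro p hp
      rw [hP1, Finset.mem_image] at hp
      obtain ⟨q, hq, rfl⟩ := hp
      rw [Finset.mem_filter] at hq
      obtain ⟨a1, a2, a3⟩ := hP.1 q hq.1
      exact ⟨res_mono a1, res_mem a2, card_res a3⟩
    · intro p hp q hq H a1 a2 a3 a4
      rw [hP1, Finset.mem_image] at hp hq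
      obtain ⟨p', hp', rfl⟩ := hp
      obtain ⟨q', hq', rfl⟩ := hq
      rw [Finset.mem_filter] at hp' hq'
      have := hP.2 p' hp'.1 q' hq'.1 (H.map inc) (subset_map_iff'.mpr ⟨hp'.2, a1⟩)
        (map_subset_iff.mpr a2) (subset_map_iff'.mpr ⟨hq'.2, a3⟩) (map_subset_iff.mpr a4)
      rw [this]
  have pk2 : IsPacking r Δ P2 := by
    refine ⟨?_, ?_⟩
    · intro p hp
      rw [hP2, Finset.mem_image] at hp
      obtain ⟨q, hq, rfl⟩ := hp
      rw [Finset.mem_filter] at hq
      obtain ⟨a1, a2, a3⟩ := hP.1 q hq.1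
      exact ⟨res_mono a1, res_mem a2, card_res a3⟩
    · intro p hp q hq H a1 a2 a3 a4
      rw [hP2, Finset.mem_image] at hp hq
      obtain ⟨p', hp', rfl⟩ := hp
      obtain ⟨q', hq', rfl⟩ := hq
      rw [Finset.mem_filter] at hp' hq'
      have := hP.2 p' hp'.1 q' hq'.1 (insert (Fin.last n) (H.map inc))
        (subset_insert_map_iff.mpr a1) (insert_map_subset_iff.mpr ⟨hp'.2, a2⟩)
        (subset_insert_map_iff.mpr a3) (insert_map_subset_iff.mpr ⟨hq'.2, a4⟩)
      rw [this]
  have h1 := h P1 pk1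
  have h2 := h P2 pk2
  have h3 : (uncovered Δ P1).image (fun F => F.map inc) ∪
      (uncovered Δ P2).image (fun F => insert (Fin.last n) (F.map inc)) ⊆
      uncovered (cone Δ) P := by
    intro F hF
    rw [Finset.mem_union, Finset.mem_image, Finset.mem_image] at hF
    rcases hF with ⟨H, hH, rfl⟩ | ⟨H, hH, rfl⟩
    · rw [mem_uncovered] at hH ⊢
      refine ⟨map_mem_cone.mpr hH.1, ?_⟩
      rintro p hp ⟨a1, a2⟩
      rw [subset_map_iff'] at a1
      rw [map_subset_iff] at a2
      refine hH.2 (res p.1, res p.2) ?_ ⟨a1.2, a2⟩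
      rw [hP1]
      exact Finset.mem_image_of_mem _ (Finset.mem_filter.mpr ⟨hp, a1.1⟩)
    · rw [mem_uncovered] at hH ⊢
      refine ⟨insert_map_mem_cone.mpr hH.1, ?_⟩
      rintro p hp ⟨a1, a2⟩
      rw [subset_insert_map_iff] at a1
      rw [insert_map_subset_iff] at a2
      refine hH.2 (res p.1, res p.2) ?_ ⟨a1, a2.2⟩
      rw [hP2]
      exact Finset.mem_image_of_mem _ (Finset.mem_filter.mpr ⟨hp, a2.1⟩)
  have h4 := Finset.card_le_card h3
  rw [Finset.card_union_of_disjoint, Finset.card_image_of_injective,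
    Finset.card_image_of_injective] at h4
  · rw [card_cone_eq]
    have h5 := Nat.mul_le_mul_left c h4
    rw [Nat.mul_add] at h5
    omega
  · intro F G h; exact insert_map_inj h
  · intro F G h; exact Finset.map_inj.mp h
  · rw [Finset.disjoint_left]
    intro F hF hF'
    rw [Finset.mem_image] at hF hF'
    obtain ⟨G, _, rfl⟩ := hF
    obtain ⟨G', _, h⟩ := hF'
    exact last_notMem G (h ▸ Finset.mem_insert_self _ _)

end cone

/-! ### Gluing -/

theorem hasNew_mono {F G : Finset (Fin 13)} (h : F ⊆ G) (hF : HasNew F) : HasNew G := by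
  obtain ⟨v, hv, h10⟩ := hF
  exact ⟨v, h hv, h10⟩

/-- the faces with a new vertex -/
def newF (K : Finset (Finset (Fin 13))) : Finset (Finset (Fin 13)) :=
  K.filter (fun F => ∃ v ∈ F, 10 ≤ v.val)

theorem mem_newF {K : Finset (Finset (Fin 13))} {F : Finset (Fin 13)} :
    F ∈ newF K ↔ F ∈ K ∧ HasNew F := by
  unfold newF HasNew
  rw [Finset.mem_filter]

/-- the faces of the `i`-th copy with a new vertex -/
def newC {N : ℕ} (K : Finset (Finset (Fin 13))) (i : Fin N) :
    Finset (Finset (Fin (10 + 3 * N))) :=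
  (newF K).image (fun F => F.map (cop i))

theorem mem_newC {N : ℕ} {K : Finset (Finset (Fin 13))} {i : Fin N}
    {H : Finset (Fin (10 + 3 * N))} :
    H ∈ newC K i ↔ ∃ F, F ∈ K ∧ HasNew F ∧ F.map (cop i) = H := by
  unfold newC
  rw [Finset.mem_image]
  constructor
  · rintro ⟨F, hF, h⟩
    rw [mem_newF] at hF
    exact ⟨F, hF.1, hF.2, h⟩
  · rintro ⟨F, h1, h2, h⟩
    exact ⟨F, mem_newF.mpr ⟨h1, h2⟩, h⟩

theorem card_newC {N : ℕ} (K : Finset (Finset (Fin 13))) (i : Fin N) :
    (newC K i).card = (newF K).card := by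
  unfold newC
  exact Finset.card_image_of_injective _ (fun F G h => Finset.map_inj.mp h)

theorem card_glue_le {N : ℕ} {K A : Finset (Finset (Fin 13))}
    (hA : ∀ F ∈ K, ¬ HasNew F → F ∈ A) :
    (glue N K).card ≤ A.card + N * (newF K).card := by
  classical
  rcases Nat.eq_zero_or_pos N with rfl | hN0
  · simp [glue]
  have h1 : glue N K ⊆ A.image (fun F => F.map (cop (⟨0, hN0⟩ : Fin N))) ∪
      (Finset.univ : Finset (Fin N)).biUnion (fun i => newC K i) := by
    intro H hH
    obtain ⟨i, F, hF, rfl⟩ := mem_glue.mp hH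
    rw [Finset.mem_union]
    by_cases h : HasNew F
    · refine Or.inr (Finset.mem_biUnion.mpr ⟨i, Finset.mem_univ _, mem_newC.mpr ⟨F, hF, h, rfl⟩⟩)
    · refine Or.inl (Finset.mem_image.mpr ⟨F, hA F hF h, ?_⟩)
      exact map_old _ _ (not_hasNew.mp h)
  have h2 := Finset.card_le_card h1
  have h3 := Finset.card_union_le (A.image (fun F => F.map (cop (⟨0, hN0⟩ : Fin N))))
    ((Finset.univ : Finset (Fin N)).biUnion (fun i => newC K i))
  have h4 : (A.image (fun F => F.map (cop (⟨0, hN0⟩ : Fin N)))).card ≤ A.card :=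
    Finset.card_image_le
  have h5 : ((Finset.univ : Finset (Fin N)).biUnion (fun i => newC K i)).card ≤
      N * (newF K).card := by
    have := Finset.card_biUnion_le_card_mul (Finset.univ : Finset (Fin N))
      (fun i => newC K i) (newF K).card (fun i _ => (card_newC K i).le)
    simpa using this
  omega

/-- In a copy not entered from the shared part, at least four faces are uncovered. -/
theorem four_le {N : ℕ} {K : Finset (Finset (Fin 13))}
    (hK : ∀ F ∈ K, ∀ G, G ⊆ F → G ∈ K) (hloc : NoLocal K) (h4 : 4 ∣ (newF K).card)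
    {P : Finset (Finset (Fin (10 + 3 * N)) × Finset (Fin (10 + 3 * N)))}
    (hP : IsPacking 2 (glue N K) P) {i : Fin N}
    (hi : ∀ p ∈ P, (∀ v ∈ p.1, v.val < 10) → p.2 ∉ newC K i) :
    4 ≤ ((newC K i).filter (fun H => ∀ p ∈ P, ¬ (p.1 ⊆ H ∧ H ⊆ p.2))).card := by
  classical
  have hcov : ∀ F, HasNew F → ∀ p ∈ P, p.1 ⊆ F.map (cop i) → F.map (cop i) ⊆ p.2 →
      ∃ B G, HasNew B ∧ B ⊆ F ∧ F ⊆ G ∧ G ∈ K ∧ B.map (cop i) = p.1 ∧ G.map (cop i) = p.2 := by
    intro F hF p hp h1 h2
    obtain ⟨a1, a2, a3⟩ := hP.1 p hp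
    obtain ⟨l, G, hG, hGl⟩ := mem_glue.mp a2
    have h6 : i = l := copy_eq_of_subset hF (by rw [hGl]; exact h2)
    subst h6
    obtain ⟨B, hB, hB'⟩ := Finset.subset_map_iff.mp h1
    have hFG : F ⊆ G := by
      rw [← hGl] at h2
      exact Finset.map_subset_map.mp h2
    refine ⟨B, G, ?_, hB, hFG, hG, hB'.symm, hGl⟩
    by_contra hn
    rw [not_hasNew] at hn
    refine hi p hp ?_ (mem_newC.mpr ⟨G, hG, hasNew_mono hFG hF, hGl⟩)
    intro v hv
    rw [hB', Finset.mem_map] at hv
    obtain ⟨u, hu, rfl⟩ := hv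
    exact (cop_lt_iff i u).mpr (hn u hu)
  set U := (newC K i).filter (fun H => ∀ p ∈ P, ¬ (p.1 ⊆ H ∧ H ⊆ p.2)) with hU
  -- some face is uncovered
  have hpos : 0 < U.card := by
    rw [Finset.card_pos, Finset.nonempty_iff_ne_empty]
    intro hemp
    have hall : ∀ F, (F ∈ K ∧ HasNew F) → ∃ p ∈ P, p.1 ⊆ F.map (cop i) ∧ F.map (cop i) ⊆ p.2 := by
      rintro F ⟨hF, hFn⟩
      by_contra hcon
      push Not at hcon
      have : F.map (cop i) ∈ U := by
        rw [hU, Finset.mem_filter]
        refine ⟨mem_newC.mpr ⟨F, hF, hFn, rfl⟩, ?_⟩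
        rintro p hp ⟨h1, h2⟩
        exact hcon p hp h1 h2
      rw [hemp] at this
      exact Finset.notMem_empty _ this
    choose! p hp hp1 hp2 using hall
    let pull : Finset (Fin (10 + 3 * N)) → Finset (Fin 13) :=
      fun S => Finset.univ.filter (fun v => cop i v ∈ S)
    have hpull : ∀ F : Finset (Fin 13), pull (F.map (cop i)) = F := by
      intro F
      ext v
      simp [pull]
    have hD : ∀ q : Finset (Fin 13) × Finset (Fin 13), ∃ D : Finset (Fin 13),
        2 ≤ (q.2 \ q.1).card → D ⊆ q.2 \ q.1 ∧ D.card = 2 := by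
      intro q
      by_cases h : 2 ≤ (q.2 \ q.1).card
      · obtain ⟨D, h1, h2⟩ := Finset.exists_subset_card_eq h
        exact ⟨D, fun _ => ⟨h1, h2⟩⟩
      · exact ⟨∅, fun h' => absurd h' h⟩
    choose D hD using hD
    refine hloc ⟨fun F => (F \ D (pull (p F).1, pull (p F).2), F ∪ D (pull (p F).1, pull (p F).2)),
      ?_⟩
    intro F hF hFn
    obtain ⟨B, G, hBn, hBF, hFG, hG, hB1, hG1⟩ :=
      hcov F hFn (p F) (hp F ⟨hF, hFn⟩) (hp1 F ⟨hF, hFn⟩) (hp2 F ⟨hF, hFn⟩)
    have hcard : 2 ≤ (G \ B).card := by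
      have := (hP.1 _ (hp F ⟨hF, hFn⟩)).2.2
      rw [← hB1, ← hG1, ← Finset.map_sdiff, Finset.card_map] at this
      exact this
    have hpB : pull (p F).1 = B := by rw [← hB1, hpull]
    have hpG : pull (p F).2 = G := by rw [← hG1, hpull]
    obtain ⟨hE1, hE2⟩ := hD (B, G) hcard
    simp only at hE1 hE2
    simp only [hpB, hpG]
    set E := D (B, G) with hE
    have hEG : E ⊆ G := hE1.trans Finset.sdiff_subset
    have hBE : B ⊆ F \ E := by
      intro v hv
      rw [Finset.mem_sdiff]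
      refine ⟨hBF hv, fun h => ?_⟩
      exact (Finset.mem_sdiff.mp (hE1 h)).2 hv
    have hFE : F ∪ E ⊆ G := Finset.union_subset hFG hEG
    refine ⟨Finset.sdiff_subset, Finset.subset_union_left, hK G hG _ hFE, hasNew_mono hBE hBn,
      ?_, ?_⟩
    · have : (F ∪ E) \ (F \ E) = E := by
        ext v
        simp only [Finset.mem_sdiff, Finset.mem_union]
        tauto
      rw [this, hE2]
    · intro H' h7 h8
      have hH'K : H' ∈ K := hK G hG _ (h8.trans hFE)
      have hH'n : HasNew H' := hasNew_mono (hBE.trans h7) hBn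
      have hpp : p H' = p F := by
        refine hP.2 _ (hp H' ⟨hH'K, hH'n⟩) _ (hp F ⟨hF, hFn⟩) (H'.map (cop i))
          (hp1 H' ⟨hH'K, hH'n⟩) (hp2 H' ⟨hH'K, hH'n⟩) ?_ ?_
        · rw [← hB1]
          exact Finset.map_subset_map.mpr (hBE.trans h7)
        · rw [← hG1]
          exact Finset.map_subset_map.mpr (h8.trans hFE)
      rw [hpp]
      simp only [hpB, hpG, ← hE]
      refine Prod.ext ?_ ?_
      · ext v
        have a := @h7 v
        have b := @h8 v
        simp only [Finset.mem_sdiff, Finset.mem_union] at a b ⊢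
        tauto
      · ext v
        have a := @h7 v
        have b := @h8 v
        simp only [Finset.mem_sdiff, Finset.mem_union] at a b ⊢
        tauto
  -- the number of uncovered faces is divisible by four
  have hW : (newC K i).filter (fun H => ¬ ∀ p ∈ P, ¬ (p.1 ⊆ H ∧ H ⊆ p.2)) =
      (P.filter (fun p => p.1 ∈ newC K i)).biUnion (fun p => Finset.Icc p.1 p.2) := by
    ext H
    rw [Finset.mem_filter, Finset.mem_biUnion]
    constructor
    · rintro ⟨hH, hn⟩
      push Not at hn
      obtain ⟨p, hp, h1, h2⟩ := hn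
      obtain ⟨F, hF, hFn, rfl⟩ := mem_newC.mp hH
      obtain ⟨B, G, hBn, hBF, hFG, hG, hB1, hG1⟩ := hcov F hFn p hp h1 h2
      refine ⟨p, Finset.mem_filter.mpr ⟨hp, ?_⟩, Finset.mem_Icc.mpr ⟨h1, h2⟩⟩
      rw [← hB1]
      exact mem_newC.mpr ⟨B, hK F hF _ hBF, hBn, rfl⟩
    · rintro ⟨p, hp, hH⟩
      rw [Finset.mem_filter] at hp
      rw [Finset.mem_Icc] at hH
      obtain ⟨hp, hpi⟩ := hp
      obtain ⟨B, hB, hBn, hB1⟩ := mem_newC.mp hpi
      obtain ⟨a1, a2, a3⟩ := hP.1 p hp
      obtain ⟨l, G, hG, hGl⟩ := mem_glue.mp a2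
      have h6 : i = l := copy_eq_of_subset hBn (by rw [hGl, hB1]; exact a1)
      subst h6
      have hHG : H ⊆ G.map (cop i) := by rw [hGl]; exact hH.2
      obtain ⟨F, hF, rfl⟩ := Finset.subset_map_iff.mp hHG
      have hBF : B ⊆ F := by
        rw [← Finset.map_subset_map (f := cop i), hB1]
        exact hH.1
      refine ⟨mem_newC.mpr ⟨F, hK G hG _ hF, hasNew_mono hBF hBn, rfl⟩, ?_⟩
      push Not
      exact ⟨p, hp, hH.1, hH.2⟩
  have hdvd : 4 ∣ ((newC K i).filter (fun H => ¬ ∀ p ∈ P, ¬ (p.1 ⊆ H ∧ H ⊆ p.2))).card := by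
    rw [hW, Finset.card_biUnion]
    · refine Finset.dvd_sum ?_
      intro p hp
      rw [Finset.mem_filter] at hp
      obtain ⟨a1, a2, a3⟩ := hP.1 p hp.1
      rw [Finset.card_sdiff_of_subset a1] at a3
      rw [Finset.card_Icc_finset a1]
      exact Dvd.dvd.trans (by norm_num) (pow_dvd_pow 2 a3)
    · intro p hp q hq hpq
      rw [Finset.mem_coe, Finset.mem_filter] at hp hq
      rw [Function.onFun, Finset.disjoint_left]
      intro H h1 h2
      rw [Finset.mem_Icc] at h1 h2
      exact hpq (hP.2 p hp.1 q hq.1 H h1.1 h1.2 h2.1 h2.2)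
  have hsum : U.card + ((newC K i).filter (fun H => ¬ ∀ p ∈ P, ¬ (p.1 ⊆ H ∧ H ⊆ p.2))).card =
      (newC K i).card := by
    rw [hU]
    exact Finset.card_filter_add_card_filter_not _
  rw [card_newC] at hsum
  have : 4 ∣ U.card := by
    rw [← hsum] at h4
    exact (Nat.dvd_add_left hdvd).mp h4
  exact Nat.le_of_dvd hpos this

theorem uncovered_glue {N : ℕ} {K A : Finset (Finset (Fin 13))}
    (hK : ∀ F ∈ K, ∀ G, G ⊆ F → G ∈ K) (hA : ∀ F ∈ K, ¬ HasNew F → F ∈ A)
    (hloc : NoLocal K) (h4 : 4 ∣ (newF K).card)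
    {P : Finset (Finset (Fin (10 + 3 * N)) × Finset (Fin (10 + 3 * N)))}
    (hP : IsPacking 2 (glue N K) P) :
    4 * N ≤ (uncovered (glue N K) P).card + 4 * A.card := by
  classical
  rcases Nat.eq_zero_or_pos N with rfl | hN0
  · simp
  set T : Finset (Fin N) := Finset.univ.filter
    (fun i => ∃ p ∈ P, (∀ v ∈ p.1, v.val < 10) ∧ p.2 ∈ newC K i) with hT
  have hTA : T.card ≤ A.card := by
    have h1 : ∀ i ∈ T, ∃ p ∈ P, (∀ v ∈ p.1, v.val < 10) ∧ p.2 ∈ newC K i := by
      intro i hi
      rw [hT, Finset.mem_filter] at hi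
      exact hi.2
    choose! p hp hp1 hp2 using h1
    have hmaps : ∀ i ∈ T, (p i).1 ∈ A.image (fun F => F.map (cop (⟨0, hN0⟩ : Fin N))) := by
      intro i hi
      obtain ⟨G, hG, hGn, hG1⟩ := mem_newC.mp (hp2 i hi)
      have h3 := (hP.1 _ (hp i hi)).1
      rw [← hG1] at h3
      obtain ⟨F, hF, hF1⟩ := Finset.subset_map_iff.mp h3
      have hFo : ¬ HasNew F := by
        rw [not_hasNew]
        intro v hv
        have := hp1 i hi (cop i v) (by rw [hF1]; exact Finset.mem_map_of_mem _ hv)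
        exact (cop_lt_iff i v).mp this
      refine Finset.mem_image.mpr ⟨F, hA F (hK G hG _ hF) hFo, ?_⟩
      rw [hF1]
      exact map_old _ _ (not_hasNew.mp hFo)
    have hinj : Set.InjOn (fun i => (p i).1) (T : Set (Fin N)) := by
      intro i hi i' hi' h
      simp only at h
      rw [Finset.mem_coe] at hi hi'
      have h3 : p i = p i' := hP.2 _ (hp i hi) _ (hp i' hi') (p i).1 (Finset.Subset.refl _)
        (hP.1 _ (hp i hi)).1 (by rw [h]) (by rw [h]; exact (hP.1 _ (hp i' hi')).1)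
      obtain ⟨G, hG, hGn, hG1⟩ := mem_newC.mp (hp2 i hi)
      obtain ⟨G', hG', hGn', hG1'⟩ := mem_newC.mp (hp2 i' hi')
      exact copy_eq_of_subset hGn (by rw [hG1, hG1', h3])
    exact (Finset.card_le_card_of_injOn _ hmaps hinj).trans Finset.card_image_le
  set U : Fin N → Finset (Finset (Fin (10 + 3 * N))) :=
    fun i => (newC K i).filter (fun H => ∀ p ∈ P, ¬ (p.1 ⊆ H ∧ H ⊆ p.2)) with hU
  have h1 : ∀ i ∈ Tᶜ, 4 ≤ (U i).card := by
    intro i hi
    refine four_le hK hloc h4 hP ?_
    intro p hp h2 h3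
    rw [Finset.mem_compl] at hi
    refine hi ?_
    rw [hT, Finset.mem_filter]
    exact ⟨Finset.mem_univ _, p, hp, h2, h3⟩
  have h2 : Tᶜ.biUnion U ⊆ uncovered (glue N K) P := by
    intro H hH
    rw [Finset.mem_biUnion] at hH
    obtain ⟨i, _, hHi⟩ := hH
    simp only [hU, Finset.mem_filter] at hHi
    obtain ⟨F, hF, _, rfl⟩ := mem_newC.mp hHi.1
    exact mem_uncovered.mpr ⟨mem_glue.mpr ⟨i, F, hF, rfl⟩, hHi.2⟩
  have h3 : (Tᶜ.biUnion U).card = ∑ i ∈ Tᶜ, (U i).card := by
    rw [Finset.card_biUnion]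
    intro i _ i' _ hii
    rw [Function.onFun, Finset.disjoint_left]
    intro H hH hH'
    simp only [hU, Finset.mem_filter] at hH hH'
    obtain ⟨F, hF, hFn, rfl⟩ := mem_newC.mp hH.1
    obtain ⟨F', hF', hFn', h⟩ := mem_newC.mp hH'.1
    exact hii (copy_eq_of_subset hFn (by rw [h]))
  have h5 := Finset.card_nsmul_le_sum Tᶜ (fun i => (U i).card) 4 h1
  have h6 := Finset.card_le_card h2
  rw [h3] at h6
  rw [Finset.card_compl, Fintype.card_fin, smul_eq_mul] at h5
  have h7 : T.card ≤ N := by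
    have := Finset.card_le_univ T
    simpa using this
  omega

/-! ### The examples -/

theorem pList_nodup : pList.Nodup := by decide +kernel

theorem pList_length : pList.length = 112 := by decide +kernel

theorem card_newF_K : (newF K).card = 112 := by
  have h1 : newF K = (pList.map dec).toFinset := by
    ext F
    rw [mem_newF, mem_K, List.mem_toFinset, List.mem_map]
    constructor
    · rintro ⟨⟨m, hm, rfl⟩, hn⟩
      rw [hasNew_dec] at hn
      rcases kList_new m hm with h | h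
      · exact ⟨m, h, rfl⟩
      · simp [h.1, h.2.1, h.2.2] at hn
    · rintro ⟨m, hm, rfl⟩
      obtain ⟨h2, h3⟩ := pList_new m hm
      exact ⟨⟨m, h2, rfl⟩, hasNew_dec.mpr h3⟩
  rw [h1, List.toFinset_card_of_nodup, List.length_map, pList_length]
  refine List.Nodup.map_on ?_ pList_nodup
  intro x hx y hy h
  exact dec_inj (kList_lt x (pList_new x hx).1) (kList_lt y (pList_new y hy).1) h

theorem robust_X (M : ℕ) : Robust 2 29 (glue (M + 1054) K) := by
  intro P hP
  have h1 := uncovered_glue K_down old_mem_A noLocal_K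
    (by rw [card_newF_K]; norm_num) hP
  have h2 := card_glue_le (N := M + 1054) (K := K) (A := A) old_mem_A
  have h3 := card_A
  rw [card_newF_K] at h2
  omega

theorem le_card_X (M : ℕ) : M ≤ (glue (M + 1054) K).card := by
  have h1 := uncovered_glue (N := M + 1054) (P := ∅) K_down old_mem_A noLocal_K
    (by rw [card_newF_K]; norm_num) ⟨by simp, by simp⟩
  have h2 : (uncovered (glue (M + 1054) K) ∅).card ≤ (glue (M + 1054) K).card :=
    Finset.card_le_card (Finset.filter_subset _ _)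
  have h3 := card_A
  omega

/-- the examples for all `j ≥ 1` -/
theorem exists_robust (M j : ℕ) : ∃ (n : ℕ) (Δ : Finset (Finset (Fin n))), IsComplex Δ ∧
    (∀ F ∈ Δ, F.card ≤ j + 4) ∧ JExp (j + 1) Δ ∧ M ≤ Δ.card ∧ Robust (j + 2) 29 Δ := by
  induction j with
  | zero =>
    exact ⟨_, _, isComplex_glue (Nat.succ_pos _), card_glue, jexp_glue (Nat.succ_pos _),
      le_card_X M, robust_X M⟩
  | succ j ih =>
    obtain ⟨n, Δ, h1, h2, h3, h4, h5⟩ := ih
    refine ⟨n + 1, cone Δ, isComplex_cone h1, ?_, jexp_cone h1 h3, ?_, robust_cone h5⟩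
    · intro F hF
      have := card_cone h2 F hF
      omega
    · rw [card_cone_eq]; omega

end Pool.Agent.Lib.MP_af28a5_co
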