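import Pool.Agent.Lib.MP_af28a5_co.Dim

/-!
The number of faces of a `j`-acyclic complex of dimension at most `j + 1`, and its partition into
intervals of length `j + 1`.
-/

set_option autoImplicit false

namespace Pool.Agent.Lib.MP_af28a5_co

open Finset

section

variable {k : Type*} [Field k] {n : ℕ}

theorem phi_zero {Δ : Finset (Finset (Fin n))} (hC : IsComplex Δ) {j : ℕ}
    (hJ : IsJAcyclic k j Δ) {i : ℕ} (hi : i ≤ j) :
    ∑ H ∈ Δ, (-1 : ℤ) ^ (H.card + i) * (H.card.choose i : ℤ) = 0 := by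
  classical
  have e1 : ∀ H ∈ Δ, (-1 : ℤ) ^ (H.card + i) * (H.card.choose i : ℤ) =
      ∑ _F ∈ H.powersetCard i, (-1 : ℤ) ^ (H.card + i) := by
    intro H _
    rw [Finset.sum_const, Finset.card_powersetCard, nsmul_eq_mul, mul_comm]
  rw [Finset.sum_congr rfl e1]
  rw [Finset.sum_comm' (t' := Δ.filter (fun F => F.card = i))
    (s' := fun F => Δ.filter (fun H => F ⊆ H))]
  · apply Finset.sum_eq_zero
    intro F hF
    rw [Finset.mem_filter] at hF
    rw [← sum_sign_eq_zero (link_closed hC F) (hJ F hF.1 (by omega))]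
    symm
    refine Finset.sum_bij' (fun G _ => G ∪ F) (fun H _ => H \ F) ?_ ?_ ?_ ?_ ?_
    · intro G hG
      rw [mem_link'] at hG
      rw [Finset.mem_filter]
      exact ⟨hG.2.2, Finset.subset_union_right⟩
    · intro H hH
      rw [Finset.mem_filter] at hH
      rw [mem_link']
      refine ⟨hC.2 _ hH.1 _ Finset.sdiff_subset, Finset.sdiff_inter_self _ _, ?_⟩
      rw [Finset.sdiff_union_of_subset hH.2]
      exact hH.1
    · intro G hG
      rw [mem_link'] at hG
      have hd : Disjoint G F := Finset.disjoint_iff_inter_eq_empty.mpr hG.2.1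
      rw [Finset.union_sdiff_right, Finset.sdiff_eq_self_of_disjoint hd]
    · intro H hH
      rw [Finset.mem_filter] at hH
      exact Finset.sdiff_union_of_subset hH.2
    · intro G hG
      rw [mem_link'] at hG
      have hd : Disjoint G F := Finset.disjoint_iff_inter_eq_empty.mpr hG.2.1
      rw [Finset.card_union_of_disjoint hd, hF.2, add_assoc, pow_add, ← two_mul, pow_mul]
      simp
  · intro H F
    simp only [Finset.mem_powersetCard, Finset.mem_filter]
    constructor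
    · rintro ⟨h1, h2, h3⟩
      exact ⟨⟨h1, h2⟩, hC.2 _ h1 _ h2, h3⟩
    · rintro ⟨⟨h1, h2⟩, _, h3⟩
      exact ⟨h1, h2, h3⟩

theorem binom_sum (x : ℤ) (s m : ℕ) (h : s ≤ m) :
    ∑ i ∈ Finset.range (m + 1), (-1 : ℤ) ^ (s + i) * (s.choose i : ℤ) * x ^ i = (x - 1) ^ s := by
  have e : (x - 1) ^ s = ∑ i ∈ Finset.range (s + 1), (-1 : ℤ) ^ (s + i) * (s.choose i : ℤ) * x ^ i := by
    rw [sub_eq_add_neg, add_pow]
    apply Finset.sum_congr rfl
    intro i hi
    rw [Finset.mem_range] at hi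
    have : s + i = (s - i) + 2 * i := by omega
    rw [this, pow_add, pow_mul]
    simp
    ring
  rw [e]
  symm
  apply Finset.sum_subset
  · intro i hi
    rw [Finset.mem_range] at hi ⊢
    omega
  · intro i _ hi
    rw [Finset.mem_range, not_lt] at hi
    rw [Nat.choose_eq_zero_of_lt (by omega)]
    simp

theorem card_eq {Δ : Finset (Finset (Fin n))} (hC : IsComplex Δ) {j : ℕ}
    (hJ : IsJAcyclic k j Δ) (hD : ∀ F ∈ Δ, F.card ≤ j + 2) :
    Δ.card = 2 ^ (j + 1) * (1 + (Δ.filter (fun F => F.card = j + 2)).card) := by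
  classical
  have key : ∀ x : ℤ, x ^ (j + 1) * (∑ H ∈ Δ, (-1 : ℤ) ^ (H.card + (j + 1)) * (H.card.choose (j + 1) : ℤ))
      + x ^ (j + 2) * (∑ H ∈ Δ, (-1 : ℤ) ^ (H.card + (j + 2)) * (H.card.choose (j + 2) : ℤ)) =
      ∑ H ∈ Δ, (x - 1) ^ H.card := by
    intro x
    have h1 : ∑ H ∈ Δ, (x - 1) ^ H.card = ∑ i ∈ Finset.range (j + 3),
        x ^ i * ∑ H ∈ Δ, (-1 : ℤ) ^ (H.card + i) * (H.card.choose i : ℤ) := by
      simp only [Finset.mul_sum]
      rw [Finset.sum_comm]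
      apply Finset.sum_congr rfl
      intro H hH
      rw [← binom_sum x H.card (j + 2) (hD H hH)]
      apply Finset.sum_congr rfl
      intro i _
      ring
    have hz : ∑ i ∈ Finset.range (j + 1),
        x ^ i * ∑ H ∈ Δ, (-1 : ℤ) ^ (H.card + i) * (H.card.choose i : ℤ) = 0 := by
      apply Finset.sum_eq_zero
      intro i hi
      rw [Finset.mem_range] at hi
      rw [phi_zero hC hJ (by omega), mul_zero]
    rw [h1, Finset.sum_range_succ, Finset.sum_range_succ, hz, zero_add]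
  have k2 := key 2
  have k1 := key 1
  have e3 : (∑ H ∈ Δ, (-1 : ℤ) ^ (H.card + (j + 2)) * (H.card.choose (j + 2) : ℤ)) =
      (Δ.filter (fun F => F.card = j + 2)).card := by
    rw [Finset.card_filter, Nat.cast_sum]
    apply Finset.sum_congr rfl
    intro H hH
    by_cases h : H.card = j + 2
    · rw [if_pos h, h, Nat.choose_self, ← two_mul, pow_mul]
      simp
    · rw [if_neg h, Nat.choose_eq_zero_of_lt (by have := hD H hH; omega)]
      simp
  have e1 : ∑ H ∈ Δ, ((1 : ℤ) - 1) ^ H.card = 1 := by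
    rw [Finset.sum_eq_single ∅]
    · simp
    · intro H _ hH
      rw [sub_self, zero_pow]
      exact fun h => hH (Finset.card_eq_zero.mp h)
    · intro h
      exact absurd hC.1 h
  have e2 : ∑ H ∈ Δ, ((2 : ℤ) - 1) ^ H.card = Δ.card := by
    norm_num
  rw [e3, e1] at k1
  rw [e3, e2] at k2
  simp only [one_pow, one_mul] at k1
  have : (Δ.card : ℤ) = 2 ^ (j + 1) * (1 + ((Δ.filter (fun F => F.card = j + 2)).card : ℤ)) := by
    rw [← k2]
    have h3 : (2 : ℤ) ^ (j + 2) = 2 * 2 ^ (j + 1) := by ring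
    rw [h3]
    linear_combination (2 : ℤ) ^ (j + 1) * k1
  exact_mod_cast this

/-- the positive statement, with a prescribed first interval -/
theorem exists_partition {Δ : Finset (Finset (Fin n))} (hC : IsComplex Δ) {j : ℕ}
    (hJ : IsJAcyclic k j Δ) (hD : ∀ F ∈ Δ, F.card ≤ j + 2) (e₀ : Finset (Fin n)) (he₀ : e₀ ∈ Δ)
    (hc₀ : e₀.card = j + 1) :
    ∃ P : Finset (Finset (Fin n) × Finset (Fin n)),
      (∀ p ∈ P, p.1 ⊆ p.2 ∧ p.2 ∈ Δ ∧ (p.2 \ p.1).card = j + 1) ∧
      (∀ H ∈ Δ, ∃! p, p ∈ P ∧ p.1 ⊆ H ∧ H ⊆ p.2) ∧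
      (∀ p ∈ P, ∀ G, G ⊆ p.1 → ∃ q ∈ P, q.1 = G) ∧ (∅, e₀) ∈ P := by
  classical
  obtain ⟨lev, hlev⟩ := exists_level hC hJ e₀ he₀ hc₀
  have hpar : ∀ t : Finset (Fin n), t.card = j + 2 → ∃ e, e ⊆ t ∧ e.card = j + 1 ∧
      ∀ e' ⊆ t, e'.card = j + 1 → lev e ≤ lev e' := by
    intro t ht
    have hne : (t.powersetCard (j + 1)).Nonempty := by
      rw [Finset.powersetCard_nonempty]
      omega
    obtain ⟨e, he, hmin⟩ := Finset.exists_min_image _ lev hne
    rw [Finset.mem_powersetCard] at he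
    exact ⟨e, he.1, he.2, fun e' h1 h2 => hmin e' (Finset.mem_powersetCard.mpr ⟨h1, h2⟩)⟩
  choose! par hp1 hp2 hp3 using hpar
  set T := Δ.filter (fun F => F.card = j + 2) with hT
  set P : Finset (Finset (Fin n) × Finset (Fin n)) :=
    insert (∅, e₀) (T.image (fun t => (t \ par t, t))) with hP
  have hPc : P.card ≤ 1 + T.card := by
    rw [hP]
    refine (Finset.card_insert_le _ _).trans ?_
    have := Finset.card_image_le (s := T) (f := fun t => (t \ par t, t))
    omega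
  have hb : ∀ t, t.card = j + 2 → (t \ par t).card = 1 := by
    intro t ht
    rw [Finset.card_sdiff_of_subset (hp1 t ht), ht, hp2 t ht]
    omega
  have hprop : ∀ p ∈ P, p.1 ⊆ p.2 ∧ p.2 ∈ Δ ∧ (p.2 \ p.1).card = j + 1 := by
    intro p hp
    rw [hP, Finset.mem_insert, Finset.mem_image] at hp
    rcases hp with rfl | ⟨t, ht, rfl⟩
    · exact ⟨Finset.empty_subset _, he₀, by simpa using hc₀⟩
    · rw [hT, Finset.mem_filter] at ht
      refine ⟨Finset.sdiff_subset, ht.1, ?_⟩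
      dsimp only
      rw [Finset.sdiff_sdiff_eq_self (hp1 t ht.2)]
      exact hp2 t ht.2
  have hcov : ∀ H ∈ Δ, ∃ p ∈ P, p.1 ⊆ H ∧ H ⊆ p.2 := by
    intro H hH
    by_cases hHe : H ⊆ e₀
    · exact ⟨(∅, e₀), Finset.mem_insert_self _ _, Finset.empty_subset _, hHe⟩
    -- a facet containing `H` whose parent does not contain `H`
    suffices h : ∃ t ∈ Δ, t.card = j + 2 ∧ H ⊆ t ∧ ¬ H ⊆ par t by
      obtain ⟨t, ht, htc, h1, h2⟩ := h
      refine ⟨(t \ par t, t), Finset.mem_insert_of_mem (Finset.mem_image.mpr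
        ⟨t, Finset.mem_filter.mpr ⟨ht, htc⟩, rfl⟩), ?_, h1⟩
      obtain ⟨v, hv⟩ := Finset.card_eq_one.mp (hb t htc)
      dsimp only
      rw [hv, Finset.singleton_subset_iff]
      obtain ⟨x, hx, hx'⟩ := Finset.not_subset.mp h2
      have hx2 : x ∈ t \ par t := Finset.mem_sdiff.mpr ⟨h1 hx, hx'⟩
      rw [hv, Finset.mem_singleton] at hx2
      exact hx2 ▸ hx
    by_cases hHc : H.card = j + 2
    · refine ⟨H, hH, hHc, subset_rfl, fun h => ?_⟩
      have := Finset.card_le_card h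
      rw [hp2 H hHc] at this
      omega
    · have hHc' : H.card ≤ j + 1 := by have := hD H hH; omega
      obtain ⟨E, hE, hHE, hEc⟩ := exists_ridge hC hJ (j + 1 - H.card) H hH (by omega)
      have hne : (Δ.filter (fun e => H ⊆ e ∧ e.card = j + 1)).Nonempty :=
        ⟨E, Finset.mem_filter.mpr ⟨hE, hHE, hEc⟩⟩
      obtain ⟨e, he, hmin⟩ := Finset.exists_min_image _ lev hne
      rw [Finset.mem_filter] at he
      obtain ⟨heΔ, hHe', hec⟩ := he
      have hee₀ : e ≠ e₀ := fun h => hHe (h ▸ hHe')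
      obtain ⟨t, ht, htc, het, e', he't, he'c, hlt⟩ := hlev e heΔ hec hee₀
      refine ⟨t, ht, htc, hHe'.trans het, fun h => ?_⟩
      have h1 := hmin (par t) (Finset.mem_filter.mpr
        ⟨hC.2 _ ht _ (hp1 t htc), h, hp2 t htc⟩)
      have h2 := hp3 t htc e' he't he'c
      omega
  have hIcc : ∀ p ∈ P, (Δ.filter (fun H => p.1 ⊆ H ∧ H ⊆ p.2)).card = 2 ^ (j + 1) := by
    intro p hp
    obtain ⟨h1, h2, h3⟩ := hprop p hp
    have e : Δ.filter (fun H => p.1 ⊆ H ∧ H ⊆ p.2) = Finset.Icc p.1 p.2 := by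
      ext H
      rw [Finset.mem_filter, Finset.mem_Icc]
      constructor
      · exact fun h => h.2
      · exact fun h => ⟨hC.2 _ h2 _ h.2, h⟩
    rw [e, Finset.card_Icc_finset h1]
    rw [Finset.card_sdiff_of_subset h1] at h3
    rw [h3]
  have hdc := Finset.sum_card_bipartiteAbove_eq_sum_card_bipartiteBelow (s := P) (t := Δ)
    (fun (p : Finset (Fin n) × Finset (Fin n)) (H : Finset (Fin n)) => p.1 ⊆ H ∧ H ⊆ p.2)
  have hL : ∑ p ∈ P, (Finset.bipartiteAbove (fun (p : Finset (Fin n) × Finset (Fin n))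
      (H : Finset (Fin n)) => p.1 ⊆ H ∧ H ⊆ p.2) Δ p).card = P.card * 2 ^ (j + 1) := by
    have h5 : ∀ p ∈ P, (Finset.bipartiteAbove (fun (p : Finset (Fin n) × Finset (Fin n))
      (H : Finset (Fin n)) => p.1 ⊆ H ∧ H ⊆ p.2) Δ p).card = 2 ^ (j + 1) :=
      fun p hp => hIcc p hp
    rw [Finset.sum_congr rfl h5, Finset.sum_const, smul_eq_mul]
  rw [hL] at hdc
  have hge : ∀ H ∈ Δ, 1 ≤ (Finset.bipartiteBelow (fun (p : Finset (Fin n) × Finset (Fin n))
      (H : Finset (Fin n)) => p.1 ⊆ H ∧ H ⊆ p.2) P H).card := by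
    intro H hH
    obtain ⟨p, hp, h⟩ := hcov H hH
    exact Finset.card_pos.mpr ⟨p, Finset.mem_filter.mpr ⟨hp, h⟩⟩
  have hle : ∑ H ∈ Δ, (Finset.bipartiteBelow (fun (p : Finset (Fin n) × Finset (Fin n))
      (H : Finset (Fin n)) => p.1 ⊆ H ∧ H ⊆ p.2) P H).card ≤ ∑ _H ∈ Δ, 1 := by
    rw [← hdc, ← Finset.card_eq_sum_ones, card_eq hC hJ hD, mul_comm]
    exact Nat.mul_le_mul_left _ hPc
  have heq : ∀ H ∈ Δ, 1 = (Finset.bipartiteBelow (fun (p : Finset (Fin n) × Finset (Fin n))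
      (H : Finset (Fin n)) => p.1 ⊆ H ∧ H ⊆ p.2) P H).card :=
    (Finset.sum_eq_sum_iff_of_le hge).mp (le_antisymm (Finset.sum_le_sum hge) hle)
  refine ⟨P, hprop, ?_, ?_, Finset.mem_insert_self _ _⟩
  · intro H hH
    obtain ⟨p, hp⟩ := Finset.card_eq_one.mp (heq H hH).symm
    have hmem : ∀ q, q ∈ Finset.bipartiteBelow (fun (p : Finset (Fin n) × Finset (Fin n))
      (H : Finset (Fin n)) => p.1 ⊆ H ∧ H ⊆ p.2) P H ↔ q ∈ P ∧ q.1 ⊆ H ∧ H ⊆ q.2 := fun q =>
        Finset.mem_filter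
    rw [hp] at hmem
    refine ⟨p, (hmem p).1 (Finset.mem_singleton_self _), fun q hq => ?_⟩
    exact Finset.mem_singleton.mp ((hmem q).2 hq)
  · intro p hp G hG
    have hp' := hp
    rw [hP, Finset.mem_insert, Finset.mem_image] at hp'
    rcases hp' with rfl | ⟨t, ht, rfl⟩
    · exact ⟨(∅, e₀), Finset.mem_insert_self _ _, (Finset.subset_empty.mp hG).symm⟩
    · rw [hT, Finset.mem_filter] at ht
      obtain ⟨v, hv⟩ := Finset.card_eq_one.mp (hb t ht.2)
      have hG' : G ⊆ {v} := by rw [← hv]; exact hG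
      rcases Finset.subset_singleton_iff.mp hG' with h | h
      · exact ⟨(∅, e₀), Finset.mem_insert_self _ _, h.symm⟩
      · exact ⟨_, hp, by rw [h]; exact hv⟩

end

end Pool.Agent.Lib.MP_af28a5_co
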