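import Pool.Agent.Lib.MP_af28a5_co.Addv

/-!
Shellable `j`-acyclic complexes of dimension `j + 2` all of whose edges lie in empty triangles.
-/

set_option autoImplicit false

namespace Pool.Agent.Lib.MP_af28a5_co

open Finset

/-- sets in a window of `j + 2` consecutive vertices -/
def win (j n : ℕ) : Finset (Finset (Fin n)) :=
  Finset.univ.filter (fun F => ∀ a ∈ F, ∀ b ∈ F, b.val ≤ a.val + (j + 1))

/-- sets which without their largest element are in a window of `j + 2` consecutive vertices -/
def base (j n : ℕ) : Finset (Finset (Fin n)) :=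
  Finset.univ.filter (fun F => ∀ a ∈ F, ∀ b ∈ F, ∀ c ∈ F, b.val < c.val →
    b.val ≤ a.val + (j + 1))

theorem mem_win {j n : ℕ} {F : Finset (Fin n)} :
    F ∈ win j n ↔ ∀ a ∈ F, ∀ b ∈ F, b.val ≤ a.val + (j + 1) := by
  simp [win]

theorem mem_base {j n : ℕ} {F : Finset (Fin n)} :
    F ∈ base j n ↔ ∀ a ∈ F, ∀ b ∈ F, ∀ c ∈ F, b.val < c.val → b.val ≤ a.val + (j + 1) := by
  simp [base]

theorem win_subset_base (j n : ℕ) : win j n ⊆ base j n := by
  intro F hF
  rw [mem_win] at hF
  rw [mem_base]
  exact fun a ha b hb _ _ _ => hF a ha b hb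

theorem inc_val {n : ℕ} (x : Fin n) : (inc x).val = x.val := rfl

/-- the last `j + 1` vertices -/
def tail (j n : ℕ) : Finset (Fin n) := Finset.univ.filter (fun x => n ≤ x.val + (j + 1))

theorem mem_tail {j n : ℕ} {x : Fin n} : x ∈ tail j n ↔ n ≤ x.val + (j + 1) := by
  simp [tail]

theorem card_tail {j n : ℕ} (h : j + 1 ≤ n) : (tail j n).card = j + 1 := by
  have hlt : ∀ i : Fin (j + 1), n - 1 - i.val < n := by
    intro i
    have := i.isLt
    omega
  have h1 : (tail j n) = (Finset.univ : Finset (Fin (j + 1))).image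
      (fun i => (⟨n - 1 - i.val, hlt i⟩ : Fin n)) := by
    ext x
    rw [mem_tail, Finset.mem_image]
    constructor
    · intro hx
      have := x.isLt
      exact ⟨⟨n - 1 - x.val, by omega⟩, Finset.mem_univ _, Fin.ext (by simp only; omega)⟩
    · rintro ⟨i, _, rfl⟩
      have := i.isLt
      simp only
      omega
  rw [h1, Finset.card_image_of_injective, Finset.card_univ, Fintype.card_fin]
  intro i i' hii
  have h2 := congrArg Fin.val hii
  simp only at h2
  have := i.isLt
  have := i'.isLt
  exact Fin.ext (by omega)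

theorem win_succ (j n : ℕ) : win j (n + 1) = addv (win j n) (tail j n).powerset := by
  ext F
  rcases form F with ⟨G, rfl⟩ | ⟨G, rfl⟩
  · rw [map_mem_addv, mem_win, mem_win]
    constructor
    · intro h a ha b hb
      exact h (inc a) (Finset.mem_map_of_mem _ ha) (inc b) (Finset.mem_map_of_mem _ hb)
    · intro h a ha b hb
      obtain ⟨a', ha', rfl⟩ := Finset.mem_map.mp ha
      obtain ⟨b', hb', rfl⟩ := Finset.mem_map.mp hb
      exact h a' ha' b' hb'
  · rw [insert_mem_addv, mem_win, Finset.mem_powerset]
    constructor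
    · intro h x hx
      rw [mem_tail]
      have := h (inc x) (Finset.mem_insert_of_mem (Finset.mem_map_of_mem _ hx)) (Fin.last n)
        (Finset.mem_insert_self _ _)
      rw [inc_val, Fin.val_last] at this
      exact this
    · intro h a ha b hb
      have hb' : b.val ≤ n := by have := b.isLt; omega
      rw [Finset.mem_insert] at ha
      rcases ha with rfl | ha
      · rw [Fin.val_last]
        omega
      · obtain ⟨a', ha', rfl⟩ := Finset.mem_map.mp ha
        have := mem_tail.mp (h ha')
        rw [inc_val]
        omega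

theorem tail_subset_win (j n : ℕ) : (tail j n).powerset ⊆ win j n := by
  intro F hF
  rw [Finset.mem_powerset] at hF
  rw [mem_win]
  intro a ha b hb
  have h1 := mem_tail.mp (hF ha)
  have := b.isLt
  omega

theorem base_succ (j n : ℕ) : base j (n + 1) = addv (base j n) (win j n) := by
  ext F
  rcases form F with ⟨G, rfl⟩ | ⟨G, rfl⟩
  · rw [map_mem_addv, mem_base, mem_base]
    constructor
    · intro h a ha b hb c hc hbc
      exact h (inc a) (Finset.mem_map_of_mem _ ha) (inc b) (Finset.mem_map_of_mem _ hb)
        (inc c) (Finset.mem_map_of_mem _ hc) hbc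
    · intro h a ha b hb c hc hbc
      obtain ⟨a', ha', rfl⟩ := Finset.mem_map.mp ha
      obtain ⟨b', hb', rfl⟩ := Finset.mem_map.mp hb
      obtain ⟨c', hc', rfl⟩ := Finset.mem_map.mp hc
      exact h a' ha' b' hb' c' hc' hbc
  · rw [insert_mem_addv, mem_base, mem_win]
    constructor
    · intro h a ha b hb
      exact h (inc a) (Finset.mem_insert_of_mem (Finset.mem_map_of_mem _ ha))
        (inc b) (Finset.mem_insert_of_mem (Finset.mem_map_of_mem _ hb))
        (Fin.last n) (Finset.mem_insert_self _ _) (by rw [inc_val, Fin.val_last]; exact b.isLt)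
    · intro h a ha b hb c hc hbc
      have hcn : c.val ≤ n := by have := c.isLt; omega
      rw [Finset.mem_insert] at ha hb
      rcases hb with rfl | hb
      · rw [Fin.val_last] at hbc
        omega
      · obtain ⟨b', hb', rfl⟩ := Finset.mem_map.mp hb
        rcases ha with rfl | ha
        · rw [Fin.val_last, inc_val]
          have := b'.isLt
          omega
        · obtain ⟨a', ha', rfl⟩ := Finset.mem_map.mp ha
          exact h a' ha' b' hb'

theorem good_win {j n : ℕ} (h : j + 2 ≤ n) : Good j (j + 2) (win j n) := by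
  induction n, h using Nat.le_induction with
  | base =>
    have e : win j (j + 2) = (Finset.univ : Finset (Fin (j + 2))).powerset := by
      ext F
      rw [mem_win, Finset.mem_powerset]
      constructor
      · intro _
        exact Finset.subset_univ _
      · intro _ a _ b _
        have := b.isLt
        omega
    rw [e]
    exact good_powerset (by omega) _ (by rw [Finset.card_univ, Fintype.card_fin])
  | succ n hn ih =>
    rw [win_succ]
    exact good_addv ih (good_powerset le_rfl _ (card_tail (by omega))) (tail_subset_win j n)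

theorem good_base {j n : ℕ} (h : j + 3 ≤ n) : Good j (j + 3) (base j n) := by
  induction n, h using Nat.le_induction with
  | base =>
    have e : base j (j + 3) = (Finset.univ : Finset (Fin (j + 3))).powerset := by
      ext F
      rw [mem_base, Finset.mem_powerset]
      constructor
      · intro _
        exact Finset.subset_univ _
      · intro _ a _ b _ c _ hbc
        have := c.isLt
        omega
    rw [e]
    exact good_powerset (by omega) _ (by rw [Finset.card_univ, Fintype.card_fin])
  | succ n hn ih =>
    rw [base_succ]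
    exact good_addv ih (good_win (by omega)) (win_subset_base j n)

theorem pair_mem_base {j n : ℕ} (u w : Fin n) : ({u, w} : Finset (Fin n)) ∈ base j n := by
  rw [mem_base]
  intro a ha b hb c hc hbc
  simp only [Finset.mem_insert, Finset.mem_singleton] at ha hb hc
  rcases ha with rfl | rfl <;> rcases hb with rfl | rfl <;> rcases hc with rfl | rfl <;> omega

theorem singleton_mem_win {j n : ℕ} (u : Fin n) : ({u} : Finset (Fin n)) ∈ win j n := by
  rw [mem_win]
  intro a ha b hb
  rw [Finset.mem_singleton] at ha hb
  subst ha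
  subst hb
  omega

theorem pair_notMem_win {j n : ℕ} {u w : Fin n} (h : u.val + (j + 2) ≤ w.val) :
    ({u, w} : Finset (Fin n)) ∉ win j n := by
  intro hmem
  rw [mem_win] at hmem
  have := hmem u (by simp) w (by simp)
  omega

theorem exists_far {j n : ℕ} (h : 2 * j + 4 ≤ n) (u : Fin n) :
    ∃ w, w ≠ u ∧ ({u, w} : Finset (Fin n)) ∉ win j n := by
  by_cases hu : u.val ≤ j + 1
  · refine ⟨⟨n - 1, by omega⟩, ?_, pair_notMem_win ?_⟩
    · intro h'
      have := congrArg Fin.val h'
      simp only at this
      omega
    · simp only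
      omega
  · refine ⟨⟨0, by omega⟩, ?_, ?_⟩
    · intro h'
      have := congrArg Fin.val h'
      simp only at this
      omega
    · rw [Finset.pair_comm]
      apply pair_notMem_win
      simp only
      omega

theorem att_win {j n : ℕ} (h : 2 * j + 4 ≤ n) : Att j (base j n) (win j n) := by
  refine ⟨good_win (by omega), win_subset_base j n, ?_⟩
  intro u _
  obtain ⟨w, hw, hw'⟩ := exists_far h u
  exact ⟨w, hw, singleton_mem_win w, pair_mem_base u w, hw'⟩

/-- the first `j + 2` vertices without one of them -/
def head (j m t : ℕ) : Finset (Fin m) :=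
  Finset.univ.filter (fun x => x.val ≤ j + 1 ∧ x.val ≠ t)

theorem mem_head {j m t : ℕ} {x : Fin m} : x ∈ head j m t ↔ x.val ≤ j + 1 ∧ x.val ≠ t := by
  simp [head]

theorem card_head {j m t : ℕ} (hm : j + 2 ≤ m) (ht : t ≤ j + 1) : (head j m t).card = j + 1 := by
  have h1 : insert (⟨t, by omega⟩ : Fin m) (head j m t) =
      (Finset.univ : Finset (Fin (j + 2))).map (Fin.castLEEmb hm) := by
    ext x
    rw [Finset.mem_insert, mem_head, Finset.mem_map]
    constructor
    · rintro (rfl | ⟨h, _⟩)
      · exact ⟨⟨t, by omega⟩, Finset.mem_univ _, rfl⟩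
      · exact ⟨⟨x.val, by omega⟩, Finset.mem_univ _, rfl⟩
    · rintro ⟨y, _, rfl⟩
      by_cases hy : y.val = t
      · left
        exact Fin.ext hy
      · right
        have := y.isLt
        exact ⟨by change y.val ≤ j + 1; omega, hy⟩
  have h2 : (⟨t, by omega⟩ : Fin m) ∉ head j m t := by
    intro h
    exact (mem_head.mp h).2 rfl
  have h3 := congrArg Finset.card h1
  rw [Finset.card_insert_of_notMem h2, Finset.card_map, Finset.card_univ, Fintype.card_fin] at h3
  omega

theorem head_subset_win (j m t : ℕ) : (head j m t).powerset ⊆ win j m := by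
  intro F hF
  rw [Finset.mem_powerset] at hF
  rw [mem_win]
  intro a _ b hb
  have := (mem_head.mp (hF hb)).1
  omega

/-- the vertices from `a` on, the vertex `a` being the last -/
def shift (a m n : ℕ) (h : m + a + 1 = n) : Fin (m + 1) ↪ Fin n where
  toFun x := if hx : x.val < m then ⟨x.val + a + 1, by omega⟩ else ⟨a, by omega⟩
  inj' := by
    intro x y hxy
    have hx := x.isLt
    have hy := y.isLt
    simp only at hxy
    split_ifs at hxy with h1 h2 h2
    · rw [Fin.mk.injEq] at hxy
      exact Fin.ext (by omega)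
    · rw [Fin.mk.injEq] at hxy
      omega
    · rw [Fin.mk.injEq] at hxy
      omega
    · exact Fin.ext (by omega)

theorem shift_inc {a m n : ℕ} (h : m + a + 1 = n) (x : Fin m) :
    (shift a m n h (inc x)).val = x.val + a + 1 := by
  have h1 : (inc x).val < m := x.isLt
  change (if hx : (inc x).val < m then (⟨(inc x).val + a + 1, _⟩ : Fin n) else ⟨a, _⟩).val = _
  rw [dif_pos h1]
  rfl

theorem shift_last {a m n : ℕ} (h : m + a + 1 = n) :
    (shift a m n h (Fin.last m)).val = a := by
  change (if hx : (Fin.last m).val < m then (⟨(Fin.last m).val + a + 1, _⟩ : Fin n)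
    else ⟨a, _⟩).val = _
  rw [dif_neg (by rw [Fin.val_last]; omega)]

theorem exists_att {j n : ℕ} (hn : n = 3 * j + 6) (a b : Fin n) (ha : a.val ≤ j + 1)
    (hab : a.val < b.val) (hb : b.val ≤ a.val + (j + 1)) :
    ∃ L, Att j (base j n) L ∧ ({a} : Finset (Fin n)) ∈ L ∧ ({b} : Finset (Fin n)) ∈ L ∧
      ({a, b} : Finset (Fin n)) ∉ L := by
  obtain ⟨m, hm⟩ : ∃ m, m + a.val + 1 = n := ⟨n - 1 - a.val, by omega⟩
  have hm2 : 2 * j + 4 ≤ m := by omega
  set t := b.val - a.val - 1 with ht
  set φ := shift a.val m n hm with hφ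
  set B : Finset (Finset (Fin (m + 1))) := addv (win j m) (head j m t).powerset with hB
  have hgood : Good j (j + 2) B :=
    good_addv (good_win (by omega)) (good_powerset le_rfl _ (card_head (by omega) (by omega)))
      (head_subset_win j m t)
  have hφl : φ (Fin.last m) = a := Fin.ext (shift_last hm)
  have hφt : φ (inc ⟨t, by omega⟩) = b := by
    apply Fin.ext
    rw [hφ, shift_inc]
    simp only
    omega
  have hp : ∀ x y : Fin (m + 1), ({φ x, φ y} : Finset (Fin n)) =
      ({x, y} : Finset (Fin (m + 1))).map φ := by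
    intro x y
    rw [Finset.map_insert, Finset.map_singleton]
  have hs : ∀ x : Fin (m + 1), ({φ x} : Finset (Fin n)) =
      ({x} : Finset (Fin (m + 1))).map φ := by
    intro x
    rw [Finset.map_singleton]
  have hinc : ∀ x y : Fin m, ({inc x, inc y} : Finset (Fin (m + 1))) =
      ({x, y} : Finset (Fin m)).map inc := by
    intro x y
    rw [Finset.map_insert, Finset.map_singleton]
  have hlast : ∀ x : Fin m, ({Fin.last m, inc x} : Finset (Fin (m + 1))) =
      insert (Fin.last m) (({x} : Finset (Fin m)).map inc) := by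
    intro x
    rw [Finset.map_singleton]
  have hB1 : ∀ x : Fin m, ({inc x} : Finset (Fin (m + 1))) ∈ B := by
    intro x
    have : ({inc x} : Finset (Fin (m + 1))) = ({x} : Finset (Fin m)).map inc := by
      rw [Finset.map_singleton]
    rw [this, hB, map_mem_addv]
    exact singleton_mem_win x
  have hB2 : ({Fin.last m} : Finset (Fin (m + 1))) ∈ B := by
    have : ({Fin.last m} : Finset (Fin (m + 1))) =
        insert (Fin.last m) ((∅ : Finset (Fin m)).map inc) := by
      rw [Finset.map_empty]
      rfl
    rw [this, hB, insert_mem_addv]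
    exact Finset.empty_mem_powerset _
  have hB3 : ({Fin.last m, inc ⟨t, by omega⟩} : Finset (Fin (m + 1))) ∉ B := by
    rw [hlast, hB, insert_mem_addv, Finset.mem_powerset, Finset.singleton_subset_iff, mem_head]
    exact fun h => h.2 rfl
  refine ⟨mapC φ B, ⟨good_mapC φ hgood, ?_, ?_⟩, ?_, ?_, ?_⟩
  · intro F hF
    obtain ⟨G, hG, rfl⟩ := mem_mapC.mp hF
    rw [mem_base]
    intro x hx y hy z hz hyz
    obtain ⟨x', hx', rfl⟩ := Finset.mem_map.mp hx
    obtain ⟨y', hy', rfl⟩ := Finset.mem_map.mp hy
    obtain ⟨z', hz', rfl⟩ := Finset.mem_map.mp hz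
    rcases mem_addv.mp hG with ⟨K, hK, rfl⟩ | ⟨K, hK, rfl⟩
    · obtain ⟨x'', hx'', rfl⟩ := Finset.mem_map.mp hx'
      obtain ⟨y'', hy'', rfl⟩ := Finset.mem_map.mp hy'
      rw [mem_win] at hK
      have := hK x'' hx'' y'' hy''
      rw [hφ, shift_inc, shift_inc]
      omega
    · rw [Finset.mem_powerset] at hK
      rw [Finset.mem_insert] at hx' hy' hz'
      -- all elements are between `a` and `a + j + 2`
      have low : ∀ w : Fin (m + 1), a.val ≤ (φ w).val := by
        intro w
        rcases Fin.eq_castSucc_or_eq_last w with ⟨w', rfl⟩ | rfl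
        · have := shift_inc hm w'
          change a.val ≤ (shift a.val m n hm (inc w')).val
          omega
        · rw [hφl]
      have hz2 : (φ z').val ≤ a.val + (j + 2) := by
        rcases hz' with rfl | hz'
        · rw [hφl]
          omega
        · obtain ⟨z'', hz'', rfl⟩ := Finset.mem_map.mp hz'
          have h1 := (mem_head.mp (hK hz'')).1
          rw [hφ, shift_inc]
          omega
      have := low x'
      omega
  · intro u hu
    obtain ⟨G, hG, hGe⟩ := mem_mapC.mp hu
    have hG1 : G.card = 1 := by
      rw [← Finset.card_map φ, hGe, Finset.card_singleton]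
    obtain ⟨x, rfl⟩ := Finset.card_eq_one.mp hG1
    rw [Finset.map_singleton, Finset.singleton_inj] at hGe
    subst hGe
    rcases Fin.eq_castSucc_or_eq_last x with ⟨x', rfl⟩ | rfl
    · obtain ⟨w, hw, hw'⟩ := exists_far hm2 x'
      refine ⟨φ (inc w), fun h => hw (inc.injective (φ.injective h)), ?_, pair_mem_base _ _, ?_⟩
      · rw [hs, map_mem_mapC]
        exact hB1 w
      · change ({φ (inc x'), φ (inc w)} : Finset (Fin n)) ∉ _
        rw [hp, map_mem_mapC, hinc, hB, map_mem_addv]
        exact hw'
    · refine ⟨b, ?_, ?_, pair_mem_base _ _, ?_⟩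
      · rw [hφl]
        intro h
        rw [h] at hab
        omega
      · rw [← hφt, hs, map_mem_mapC]
        exact hB1 _
      · rw [← hφt, hp, map_mem_mapC]
        exact hB3
  · rw [← hφl, hs, map_mem_mapC]
    exact hB2
  · rw [← hφt, hs, map_mem_mapC]
    exact hB1 _
  · have e : ({a, b} : Finset (Fin n)) = ({φ (Fin.last m), φ (inc ⟨t, by omega⟩)} :
        Finset (Fin n)) := by
      rw [hφl, hφt]
    rw [e, hp, map_mem_mapC]
    exact hB3

theorem bad_edge {j n : ℕ} (hn : n = 3 * j + 6) (a b : Fin n) (hab : a.val < b.val) :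
    (∃ v, v ≠ a ∧ v ≠ b ∧ ({a, b, v} : Finset (Fin n)) ∉ base j n) ∨
      ∃ L, Att j (base j n) L ∧ ({a} : Finset (Fin n)) ∈ L ∧ ({b} : Finset (Fin n)) ∈ L ∧
        ({a, b} : Finset (Fin n)) ∉ L := by
  by_cases h1 : a.val + (j + 2) ≤ b.val
  · right
    exact ⟨win j n, att_win (by omega), singleton_mem_win a, singleton_mem_win b,
      pair_notMem_win h1⟩
  · by_cases h2 : a.val ≤ j + 1
    · right
      exact exists_att hn a b h2 hab (by omega)
    · left
      refine ⟨⟨a.val - (j + 2), by have := a.isLt; omega⟩, ?_, ?_, ?_⟩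
      · intro h
        have := congrArg Fin.val h
        simp only at this
        omega
      · intro h
        have := congrArg Fin.val h
        simp only at this
        omega
      · intro h
        rw [mem_base] at h
        have := h ⟨a.val - (j + 2), by have := a.isLt; omega⟩ (by simp) a (by simp) b (by simp) hab
        simp only at this
        omega

/-- for every `j` there is a shellable `j`-acyclic complex of dimension `j + 2` which is a
disjoint union of intervals of length `j + 1` and all of whose edges lie in empty triangles -/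
theorem exists_good (j : ℕ) : ∃ (n : ℕ) (Δ : Finset (Finset (Fin n))), Good j (j + 3) Δ ∧
    EdgesInEmptyTriangles Δ := by
  classical
  obtain ⟨m, Δ, ι, h1, h2, h3⟩ := exists_attach j (X := base j (3 * j + 6))
    (good_base (by omega)) (Finset.univ.filter (fun L => Att j (base j (3 * j + 6)) L))
    (fun L hL => (Finset.mem_filter.mp hL).2)
  have hp : ∀ x y : Fin (3 * j + 6), ({ι x, ι y} : Finset (Fin m)) =
      ({x, y} : Finset (Fin (3 * j + 6))).map ι := by
    intro x y
    rw [Finset.map_insert, Finset.map_singleton]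
  have hp3 : ∀ x y z : Fin (3 * j + 6), ({ι x, ι y, ι z} : Finset (Fin m)) =
      ({x, y, z} : Finset (Fin (3 * j + 6))).map ι := by
    intro x y z
    rw [Finset.map_insert, Finset.map_insert, Finset.map_singleton]
  have key : ∀ a b : Fin (3 * j + 6), a.val < b.val →
      (∀ L ∈ Finset.univ.filter (fun L => Att j (base j (3 * j + 6)) L),
        ({a} : Finset (Fin (3 * j + 6))) ∈ L → ({b} : Finset (Fin (3 * j + 6))) ∈ L →
          ({a, b} : Finset (Fin (3 * j + 6))) ∈ L) →
      ∃ v, v ≠ ι a ∧ v ≠ ι b ∧ ({ι a, v} : Finset (Fin m)) ∈ Δ ∧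
        ({ι b, v} : Finset (Fin m)) ∈ Δ ∧ ({ι a, ι b, v} : Finset (Fin m)) ∉ Δ := by
    intro a b hab hL
    rcases bad_edge rfl a b hab with ⟨v, v1, v2, v3⟩ | ⟨L, l1, l2, l3, l4⟩
    · refine ⟨ι v, fun h => v1 (ι.injective h), fun h => v2 (ι.injective h), ?_, ?_, ?_⟩
      · rw [hp, h2]
        exact pair_mem_base _ _
      · rw [hp, h2]
        exact pair_mem_base _ _
      · rw [hp3, h2]
        exact v3
    · exact absurd (hL L (Finset.mem_filter.mpr ⟨Finset.mem_univ _, l1⟩) l2 l3) l4
  refine ⟨m, Δ, h1, ?_⟩
  intro x y hxy hmem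
  rcases h3 x y hxy hmem with h | ⟨a, b, rfl, rfl, hL⟩
  · exact h
  · rcases lt_trichotomy a.val b.val with hab | hab | hab
    · exact key a b hab hL
    · exact absurd (by rw [Fin.ext hab]) hxy
    · obtain ⟨v, v1, v2, v3, v4, v5⟩ := key b a hab (fun L hLm hb ha => by
        rw [Finset.pair_comm]
        exact hL L hLm ha hb)
      refine ⟨v, v2, v1, v4, v3, ?_⟩
      rw [Finset.insert_comm]
      exact v5

end Pool.Agent.Lib.MP_af28a5_co
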